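import Pool.Agent.LibHP.S1b

/-! Row M6. Transport of `PresAt` (LibHP/S2) by an automorphism `h` of the scheme. -/

set_option autoImplicit false
open AlgebraicGeometry CategoryTheory

namespace Pool.Agent.LibHP.K3

open Pool.Agent.LibHP

/-- pull-back of rational functions and stalks -/
theorem kap_stalk {X : Scheme} [IsIntegral X] (h : X ⟶ X) [IsIso h] (x : X)
    (z : X.presheaf.stalk (h x)) :
    kap h (algebraMap (X.presheaf.stalk (h x)) X.functionField z) =
      algebraMap (X.presheaf.stalk x) X.functionField (h.stalkMap x z) := by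
  obtain ⟨U, hxU, s, rfl⟩ := X.presheaf.exists_germ_eq z
  have hne : Nonempty U := ⟨⟨_, hxU⟩⟩
  have hne2 : Nonempty (h ⁻¹ᵁ U : X.Opens) := ⟨⟨x, hxU⟩⟩
  have h1 := X.algebraMap_germ_eq_germToFunctionField (U := U) (hx := hxU) (x := h x) s
  rw [h1]
  have h2 := h.germ_stalkMap_apply U x hxU s
  rw [h2]
  have h3 := X.algebraMap_germ_eq_germToFunctionField (U := h ⁻¹ᵁ U) (hx := hxU) (x := x)
    (h.app U s)
  rw [h3]
  exact kap_germ h U (genericPoint_mem U _ hxU) (genericPoint_mem _ x hxU) s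

theorem presAt_transport {X : Scheme} [IsIntegral X] (h : X ⟶ X) [IsIso h] {L1 L2 : Type}
    [Field L1] [Field L2] (j1 : X.functionField →+* L1) (j2 : X.functionField →+* L2)
    (e : L1 ≃+* L2) (he : ∀ a, e (j1 a) = j2 (kap h a)) (x : X) (hx : PresAt j1 (h x)) :
    PresAt j2 x := by
  have key : ∀ z : X.presheaf.stalk (h x),
      e (stalkTo j1 (h x) z) = stalkTo j2 x (h.stalkMap x z) := by
    intro z
    show e (j1 (algebraMap (X.presheaf.stalk (h x)) X.functionField z)) =
      j2 (algebraMap (X.presheaf.stalk x) X.functionField (h.stalkMap x z))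
    rw [he, kap_stalk]
  have hb : Function.Bijective (h.stalkMap x).hom :=
    ConcreteCategory.bijective_of_isIso (h.stalkMap x)
  let σ : X.presheaf.stalk (h x) ≃+* X.presheaf.stalk x := RingEquiv.ofBijective _ hb
  have hσ : ∀ z, h.stalkMap x z = σ z := fun z => rfl
  have key2 : ∀ y, e.symm (stalkTo j2 x y) = stalkTo j1 (h x) (σ.symm y) := by
    intro y
    rw [RingEquiv.symm_apply_eq, key, hσ, RingEquiv.apply_symm_apply]
  have hi1 : ∀ b : L2, (stalkTo j2 x).IsIntegralElem b → (stalkTo j1 (h x)).IsIntegralElem (e.symm b) := by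
    rintro b ⟨p, hp, hpb⟩
    refine ⟨p.map (σ.symm : _ →+* _), hp.map _, ?_⟩
    rw [Polynomial.eval₂_map]
    have h1 : (stalkTo j1 (h x)).comp (σ.symm : X.presheaf.stalk x →+* X.presheaf.stalk (h x)) =
        (e.symm : L2 →+* L1).comp (stalkTo j2 x) := by
      ext y
      exact (key2 y).symm
    rw [h1]
    have h2 := congrArg (e.symm : L2 →+* L1) hpb
    rw [Polynomial.hom_eval₂, map_zero] at h2
    exact h2
  have hi2 : ∀ b : L1, (stalkTo j1 (h x)).IsIntegralElem b → (stalkTo j2 x).IsIntegralElem (e b) := by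
    rintro b ⟨p, hp, hpb⟩
    refine ⟨p.map (σ : _ →+* _), hp.map _, ?_⟩
    rw [Polynomial.eval₂_map]
    have h1 : (stalkTo j2 x).comp (σ : X.presheaf.stalk (h x) →+* X.presheaf.stalk x) =
        (e : L1 →+* L2).comp (stalkTo j1 (h x)) := by
      ext y
      exact (key y).symm
    rw [h1]
    have h2 := congrArg (e : L1 →+* L2) hpb
    rw [Polynomial.hom_eval₂, map_zero] at h2
    exact h2
  intro D hD b hbi
  let D1 : Derivation ℤ L1 L1 := Derivation.mk' (AddMonoidHom.toIntLinearMap
    ((e.symm : L2 →+ L1).comp ((D : L2 →+ L2).comp (e : L1 →+ L2)))) (by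
      intro a b
      show e.symm (D (e (a * b))) = a • e.symm (D (e b)) + b • e.symm (D (e a))
      rw [map_mul, Derivation.leibniz, map_add, smul_eq_mul, smul_eq_mul, map_mul, map_mul,
        RingEquiv.symm_apply_apply, RingEquiv.symm_apply_apply]
      rfl)
  have hD1 : ∀ a, D1 a = e.symm (D (e a)) := fun a => rfl
  have h1 := hx D1 (by
    intro y
    obtain ⟨y', hy'⟩ := hD (σ y)
    refine ⟨σ.symm y', ?_⟩
    rw [hD1, key, hσ, hy', key2]) (e.symm b) (hi1 b hbi)
  rw [hD1, RingEquiv.apply_symm_apply] at h1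
  have h2 := hi2 _ h1
  rwa [RingEquiv.apply_symm_apply] at h2

end Pool.Agent.LibHP.K3
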