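import Pool.Agent.LibHPF.P9
import Pool.Agent.LibK3M.M6

/-!
Row R1: `exists_const_of_presAt` for a nonempty open subset (helper33).
-/

set_option autoImplicit false
open AlgebraicGeometry CategoryTheory

namespace Pool.Agent.LibHP

/-- Transport of `PresAt` along isomorphisms of the local rings and of the fields. -/
theorem presAt_of_equiv {X U : Scheme} [IsIntegral X] [IsIntegral U] {L : Type} [Field L]
    (j1 : X.functionField →+* L) (j2 : U.functionField →+* L) (y : X) (x : U)
    (σ : X.presheaf.stalk y ≃+* U.presheaf.stalk x)
    (key : ∀ z, stalkTo j1 y z = stalkTo j2 x (σ z)) (hx : PresAt j1 y) : PresAt j2 x := by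
  have key2 : ∀ z, stalkTo j2 x z = stalkTo j1 y (σ.symm z) := by
    intro z
    rw [key, RingEquiv.apply_symm_apply]
  have c1 : (stalkTo j1 y).comp (σ.symm : U.presheaf.stalk x →+* X.presheaf.stalk y) =
      stalkTo j2 x := by
    ext z
    exact (key2 z).symm
  have c2 : (stalkTo j2 x).comp (σ : X.presheaf.stalk y →+* U.presheaf.stalk x) =
      stalkTo j1 y := by
    ext z
    exact (key z).symm
  intro D hD b hb
  obtain ⟨p, hp, hpb⟩ := hb
  have h1 : (stalkTo j1 y).IsIntegralElem b := by
    refine ⟨p.map (σ.symm : _ →+* _), hp.map _, ?_⟩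
    rw [Polynomial.eval₂_map, c1]
    exact hpb
  obtain ⟨q, hq, hqb⟩ := hx D (fun z => by
    obtain ⟨z', hz'⟩ := hD (σ z)
    refine ⟨σ.symm z', ?_⟩
    rw [key, hz', key2]) b h1
  refine ⟨q.map (σ : _ →+* _), hq.map _, ?_⟩
  rw [Polynomial.eval₂_map, c2]
  exact hqb

section

variable {X U : Scheme} [IsIntegral X] [IsIntegral U] (i : U ⟶ X) [IsOpenImmersion i]

/-- The isomorphism of the function fields. -/
noncomputable def kapO : X.functionField →+* U.functionField :=
  (X.presheaf.stalkSpecializes (by rw [genericPoint_eq_of_isOpenImmersion i] :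
    i (genericPoint U) ⤳ genericPoint X) ≫ i.stalkMap (genericPoint U)).hom

theorem kapO_germ (V : X.Opens) (h1 : genericPoint X ∈ V) (h2 : genericPoint U ∈ i ⁻¹ᵁ V)
    (s : Γ(X, V)) :
    kapO i (X.presheaf.germ V _ h1 s) = U.presheaf.germ (i ⁻¹ᵁ V) _ h2 (i.app V s) := by
  rw [kapO, ← CommRingCat.comp_apply, TopCat.Presheaf.germ_stalkSpecializes_assoc,
    i.germ_stalkMap]
  rfl

theorem kapO_stalk (x : U) (z : X.presheaf.stalk (i x)) :
    kapO i (algebraMap (X.presheaf.stalk (i x)) X.functionField z) =
      algebraMap (U.presheaf.stalk x) U.functionField (i.stalkMap x z) := by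
  obtain ⟨V, hxV, s, rfl⟩ := X.presheaf.exists_germ_eq z
  have hne : Nonempty V := ⟨⟨_, hxV⟩⟩
  have hne2 : Nonempty (i ⁻¹ᵁ V : U.Opens) := ⟨⟨x, hxV⟩⟩
  have h1 := X.algebraMap_germ_eq_germToFunctionField (U := V) (hx := hxV) (x := i x) s
  rw [h1]
  have h2 := i.germ_stalkMap_apply V x hxV s
  rw [h2]
  have h3 := U.algebraMap_germ_eq_germToFunctionField (U := i ⁻¹ᵁ V) (hx := hxV) (x := x)
    (i.app V s)
  rw [h3]
  exact kapO_germ i V (genericPoint_mem V _ hxV) (genericPoint_mem _ x hxV) s

theorem kapO_bijective : Function.Bijective (kapO i) := by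
  have he : Inseparable (genericPoint X) (i (genericPoint U)) :=
    .of_eq (genericPoint_eq_of_isOpenImmersion i).symm
  have h1 : IsIso (X.presheaf.stalkSpecializes he.ge) :=
    (X.presheaf.stalkCongr he).isIso_hom
  have h2 : IsIso (X.presheaf.stalkSpecializes he.ge ≫ i.stalkMap (genericPoint U)) := inferInstance
  exact ConcreteCategory.bijective_of_isIso
    (X.presheaf.stalkSpecializes he.ge ≫ i.stalkMap (genericPoint U))

theorem kapO_toStalk {k : Type} [Field k] (f : X ⟶ Spec (CommRingCat.of k)) (c : k) :
    kapO i (toStalk f (genericPoint X) c) = toStalk (i ≫ f) (genericPoint U) c := by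
  have h1 : ∀ s : Γ(X, ⊤), kapO i (X.presheaf.germ ⊤ (genericPoint X) trivial s) =
      U.presheaf.germ ⊤ (genericPoint U) trivial (i.appTop s) := fun s =>
    kapO_germ i ⊤ trivial trivial s
  show kapO i (X.presheaf.germ ⊤ (genericPoint X) trivial
    (f.appTop ((Scheme.ΓSpecIso (CommRingCat.of k)).inv c))) =
    U.presheaf.germ ⊤ (genericPoint U) trivial
      ((i ≫ f).appTop ((Scheme.ΓSpecIso (CommRingCat.of k)).inv c))
  rw [h1, Scheme.Hom.comp_appTop]
  rfl

end

/-- A finite extension of the function field which is unramified at the codimension one points of a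
geometrically simply connected open subset contains new constants. -/
theorem exists_const_of_presAt_open {k : Type} [Field k] [CharZero k] {X U : Scheme}
    (f : X ⟶ Spec (CommRingCat.of k)) [IsIntegral X] [Smooth f] [IsSeparated f] [QuasiCompact f]
    (i : U ⟶ X) [IsOpenImmersion i] [Nonempty U]
    (hsc : GeomSimplyConnected (i ≫ f)) (L : Type) [Field L] [Algebra X.functionField L]
    [FiniteDimensional X.functionField L] (h2 : 2 ≤ Module.finrank X.functionField L)
    (hpres : ∀ x : U, ringKrullDim (X.presheaf.stalk (i x)) = 1 →
      PresAt (algebraMap X.functionField L) (i x)) :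
    ∃ α : L, (∃ h : Polynomial k, h ≠ 0 ∧
        h.eval₂ ((algebraMap X.functionField L).comp (toStalk f (genericPoint X))) α = 0) ∧
      ∀ c : k, algebraMap X.functionField L (toStalk f (genericPoint X) c) ≠ α := by
  have hU : IsIntegral U := isIntegral_of_isOpenImmersion i
  have hno : IsLocallyNoetherian X := LocallyOfFiniteType.isLocallyNoetherian f
  have hqc : QuasiCompact i := inferInstance
  let φ : X.functionField ≃+* U.functionField := RingEquiv.ofBijective (kapO i) (kapO_bijective i)
  have hφ : ∀ z, φ z = kapO i z := fun z => rfl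
  let alg : Algebra U.functionField L :=
    ((algebraMap X.functionField L).comp (φ.symm : U.functionField →+* X.functionField)).toAlgebra
  have halg : ∀ z : X.functionField, algebraMap U.functionField L (φ z) =
      algebraMap X.functionField L z := by
    intro z
    show algebraMap X.functionField L (φ.symm (φ z)) = _
    rw [RingEquiv.symm_apply_apply]
  have hlin : ∀ (c : X.functionField) (z : L), c • z = φ c • z := by
    intro c z
    rw [Algebra.smul_def, Algebra.smul_def, halg]
  have hfr : Module.finrank U.functionField L = Module.finrank X.functionField L := by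
    let _ : Algebra X.functionField U.functionField := (kapO i).toAlgebra
    have _ : IsScalarTower X.functionField U.functionField L :=
      IsScalarTower.of_algebraMap_eq fun z => (halg z).symm
    have h3 := Module.finrank_mul_finrank X.functionField U.functionField L
    have h4 : Module.finrank X.functionField U.functionField = 1 := by
      have e : X.functionField ≃ₗ[X.functionField] U.functionField :=
        LinearEquiv.ofBijective (Algebra.linearMap X.functionField U.functionField)
          (kapO_bijective i)
      rw [← e.finrank_eq, Module.finrank_self]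
    rw [h4, one_mul] at h3
    exact h3
  have _ : FiniteDimensional U.functionField L :=
    Module.finite_of_finrank_pos (by rw [hfr]; omega)
  obtain ⟨α, ⟨h, hh0, hh⟩, hα⟩ := exists_const_of_presAt (i ≫ f) hsc L (by rw [hfr]; exact h2)
    (fun x hx => by
      have hb : Function.Bijective (i.stalkMap x).hom :=
        ConcreteCategory.bijective_of_isIso (i.stalkMap x)
      let σ : X.presheaf.stalk (i x) ≃+* U.presheaf.stalk x := RingEquiv.ofBijective _ hb
      refine presAt_of_equiv (algebraMap X.functionField L) _ (i x) x σ (fun z => ?_)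
        (hpres x ?_)
      · show algebraMap X.functionField L (algebraMap (X.presheaf.stalk (i x)) X.functionField z) =
          algebraMap U.functionField L (algebraMap (U.presheaf.stalk x) U.functionField
            (i.stalkMap x z))
        rw [← kapO_stalk, ← hφ, halg]
      · rw [← hx]
        exact ringKrullDim_eq_of_ringEquiv σ)
  have hc : ∀ c : k, algebraMap U.functionField L (toStalk (i ≫ f) (genericPoint U) c) =
      algebraMap X.functionField L (toStalk f (genericPoint X) c) := by
    intro c
    rw [← kapO_toStalk, ← hφ, halg]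
  have hcomp : (algebraMap U.functionField L).comp (toStalk (i ≫ f) (genericPoint U)) =
      (algebraMap X.functionField L).comp (toStalk f (genericPoint X)) := by
    ext c
    exact hc c
  refine ⟨α, ⟨h, hh0, ?_⟩, fun c => ?_⟩
  · rw [← hcomp]
    exact hh
  · rw [← hc]
    exact hα c

/-- The same for an open subset `U` of `X`. -/
theorem exists_const_open {k : Type} [Field k] [CharZero k] {X : Scheme}
    (f : X ⟶ Spec (CommRingCat.of k)) [IsIntegral X] [Smooth f] [IsSeparated f] [QuasiCompact f]
    (U : X.Opens) [Nonempty U] (hU : GeomSimplyConnected (U.ι ≫ f))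
    (L : Type) [Field L] [Algebra X.functionField L]
    [FiniteDimensional X.functionField L] (h2 : 2 ≤ Module.finrank X.functionField L)
    (hpres : ∀ x ∈ U, ringKrullDim (X.presheaf.stalk x) = 1 →
      PresAt (algebraMap X.functionField L) x) :
    ∃ α : L, (∃ h : Polynomial k, h ≠ 0 ∧
        h.eval₂ ((algebraMap X.functionField L).comp (toStalk f (genericPoint X))) α = 0) ∧
      ∀ c : k, algebraMap X.functionField L (toStalk f (genericPoint X) c) ≠ α := by
  have : Nonempty (U : Scheme) := inferInstance
  exact exists_const_of_presAt_open f U.ι hU L h2 fun x hx => hpres _ x.2 hx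

end Pool.Agent.LibHP
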