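import Pool.Agent.LibK3.HDefs
import Pool.Agent.LibK3.BV

/-!
ROW [K3M R3].

A curve of residue field `k(t)` (more generally: `k` is algebraically closed in the residue field)
does not lift to a cover with new constants.

Proof. Let `v'` be the valuation of `M` over `v` of residue degree one and `α ∈ M` algebraic over
`k`. Then `v' α = 0`, so there is `w ∈ K` with `v' (α - w) > 0`; `P (α) = 0` implies
`v (P (w)) > 0`; as `k` is algebraically closed in the residue field of `v`, there is `c ∈ k` with
`v (w - c) > 0`. So `v' (α - c) > 0`, but `α - c` is algebraic over `k`. So `α = c`.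
-/

set_option autoImplicit false

namespace Pool.Agent.LibK3

section

variable {k : Type} [Field k] {K : Type} [Field K] [Algebra k K]

theorem R3_aeval (v : KVal k K) {b : K} (hb : 0 ≤ v.ord b) (P : Polynomial k) :
    ((Polynomial.aeval (⟨b, hb⟩ : v.ring) P : v.ring) : K) = Polynomial.aeval b P :=
  (Polynomial.aeval_algHom_apply v.ring.val (⟨b, hb⟩ : v.ring) P).symm

/-- An element of positive order is transcendental. -/
theorem R3_trans (v : KVal k K) {b : K} (hb : 0 < v.ord b) :
    ∀ (n : ℕ) (P : Polynomial k), P.natDegree ≤ n → P ≠ 0 → Polynomial.aeval b P ≠ 0 := by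
  have hb0 : b ≠ 0 := by
    rintro rfl
    rw [v.ord_zero] at hb
    exact lt_irrefl _ hb
  intro n
  induction n with
  | zero =>
    intro P hn hP
    rw [Polynomial.eq_C_of_natDegree_le_zero hn, Polynomial.aeval_C]
    intro h
    apply hP
    rw [Polynomial.eq_C_of_natDegree_le_zero hn, (map_eq_zero _).1 h, Polynomial.C_0]
  | succ n ih =>
    intro P hn hP h
    have hdec : Polynomial.aeval b P =
        b * Polynomial.aeval b P.divX + algebraMap k K (P.coeff 0) := by
      conv_lhs => rw [← Polynomial.divX_mul_X_add P]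
      rw [map_add, map_mul, Polynomial.aeval_X, Polynomial.aeval_C, mul_comm]
    have hdeg : P.divX.natDegree ≤ n := by
      rw [Polynomial.natDegree_divX_eq_natDegree_tsub_one]
      omega
    rw [hdec] at h
    by_cases hc : P.coeff 0 = 0
    · rw [hc, map_zero, add_zero] at h
      have hX : P.divX ≠ 0 := by
        intro h0
        apply hP
        rw [← Polynomial.divX_mul_X_add P, h0, hc]
        simp
      rcases mul_eq_zero.1 h with h1 | h1
      · exact hb0 h1
      · exact ih _ hdeg hX h1
    · have h2 : b * Polynomial.aeval b P.divX = -algebraMap k K (P.coeff 0) :=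
        eq_neg_of_add_eq_zero_left h
      have hw : Polynomial.aeval b P.divX ≠ 0 := by
        intro h0
        rw [h0, mul_zero] at h2
        exact hc ((map_eq_zero (algebraMap k K)).1 (neg_eq_zero.1 h2.symm))
      have hw1 : 0 ≤ v.ord (Polynomial.aeval b P.divX) := by
        rw [← R3_aeval v hb.le]
        exact (Polynomial.aeval (⟨b, hb.le⟩ : v.ring) P.divX).2
      have h3 := v.ord_mul _ _ hb0 hw
      rw [h2, v.ord_neg, v.ord_const] at h3
      omega

theorem ord_of_isAlgebraic (v : KVal k K) {b : K} (hb : IsAlgebraic k b) : v.ord b = 0 := by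
  rcases lt_trichotomy (v.ord b) 0 with h | h | h
  · exfalso
    obtain ⟨P, hP, h1⟩ := hb.inv
    have h2 : 0 < v.ord b⁻¹ := by
      rw [v.ord_inv]
      omega
    exact R3_trans v h2 _ P le_rfl hP h1
  · exact h
  · exfalso
    obtain ⟨P, hP, h1⟩ := hb
    exact R3_trans v h _ P le_rfl hP h1

end

/-- If there is a valuation of `M` of residue degree one over `v`, and `k` is algebraically closed
in the residue field of `v`, then all elements of `M` which are algebraic over `k` are in `k`. -/
theorem exists_const_of_resLift {k K M : Type} [Field k] [Field K] [Field M] [Algebra k K]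
    (v : KVal k K) (hcl : v.ResClosed) (j : K →+* M) (h : ResLift j v) (α : M)
    (P : Polynomial k) (hP : P ≠ 0) (hα : P.eval₂ (j.comp (algebraMap k K)) α = 0) :
    ∃ c : k, j (algebraMap k K c) = α := by
  letI : Algebra k M := (j.comp (algebraMap k K)).toAlgebra
  have hαP : Polynomial.aeval α P = 0 := hα
  obtain ⟨v', e, he, hv', hres⟩ := h
  change KVal k M at v'
  have he' : (0 : ℤ) < e := by exact_mod_cast he
  have hkM : ∀ c : k, algebraMap k M c = j (algebraMap k K c) := fun _ => rfl
  have hm : ∀ w : K, (j w = 0 ∨ 0 < v'.ord (j w)) ↔ (w = 0 ∨ 0 < v.ord w) := by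
    intro w
    rw [map_eq_zero, hv']
    constructor
    · rintro (h | h)
      · exact Or.inl h
      · exact Or.inr ((mul_pos_iff_of_pos_left he').1 h)
    · rintro (h | h)
      · exact Or.inl h
      · exact Or.inr (mul_pos he' h)
  have halg : IsAlgebraic k α := ⟨P, hP, hαP⟩
  have hα0 : v'.ord α = 0 := ord_of_isAlgebraic v' halg
  obtain ⟨w, hw0, hw⟩ := hres α hα0.ge
  have hw' : α - j w = 0 ∨ 0 < v'.ord (α - j w) := by
    rcases hw with h | h
    · exact Or.inl (sub_eq_zero.2 h)
    · exact Or.inr h
  have hjw : 0 ≤ v'.ord (j w) := by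
    rw [hv']
    exact mul_nonneg he'.le hw0
  -- the residue map
  obtain ⟨κ, iκ, aκ, r, hr⟩ := v'.exists_res
  have hreq : r ⟨α, hα0.ge⟩ = r ⟨j w, hjw⟩ := by
    rw [← sub_eq_zero, ← map_sub, hr.zero]
    exact hw'
  have h1 : r (Polynomial.aeval (⟨α, hα0.ge⟩ : v'.ring) P) = 0 := by
    have : Polynomial.aeval (⟨α, hα0.ge⟩ : v'.ring) P = 0 := by
      apply Subtype.ext
      rw [R3_aeval v' hα0.ge P, hαP]
      rfl
    rw [this, map_zero]
  have h2 : r (Polynomial.aeval (⟨j w, hjw⟩ : v'.ring) P) = 0 := by
    rw [← Polynomial.aeval_algHom_apply, ← hreq, Polynomial.aeval_algHom_apply, h1]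
  rw [hr.zero, R3_aeval v' hjw P] at h2
  have h3 : Polynomial.aeval (j w) P = j (Polynomial.aeval w P) := by
    let jk : K →ₐ[k] M := { j with commutes' := fun c => rfl }
    exact Polynomial.aeval_algHom_apply jk w P
  rw [h3, hm] at h2
  obtain ⟨c, hc⟩ := hcl w P hw0 hP h2
  refine ⟨c, ?_⟩
  have hc' : w - algebraMap k K c = 0 ∨ 0 < v.ord (w - algebraMap k K c) := by
    rcases hc with h | h
    · exact Or.inl (sub_eq_zero.2 h)
    · exact Or.inr h
  have h4 : α - algebraMap k M c = 0 ∨ 0 < v'.ord (α - algebraMap k M c) := by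
    have h5 : α - algebraMap k M c = (α - j w) + j (w - algebraMap k K c) := by
      rw [map_sub, hkM]
      ring
    rw [h5]
    exact v'.pos_add hw' ((hm _).2 hc')
  rcases h4 with h4 | h4
  · rw [← hkM]
    exact (sub_eq_zero.1 h4).symm
  · have h6 := ord_of_isAlgebraic v' (halg.sub (isAlgebraic_algebraMap c))
    omega

/-- **[K3M R3]** -/
theorem not_resLift_of_new_const {k K M : Type} [Field k] [Field K] [Field M] [Algebra k K]
    (v : KVal k K) (hcl : v.ResClosed) (j : K →+* M) (α : M)
    (P : Polynomial k) (hP : P ≠ 0) (hα : P.eval₂ (j.comp (algebraMap k K)) α = 0)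
    (hnew : ∀ c : k, j (algebraMap k K c) ≠ α) : ¬ ResLift j v := by
  intro h
  obtain ⟨c, hc⟩ := exists_const_of_resLift v hcl j h α P hP hα
  exact hnew c hc

/-- **[K3M R3]**, with `IsAlgebraic`. -/
theorem not_resLift_of_isAlgebraic {k K M : Type} [Field k] [Field K] [Field M] [Algebra k K]
    (v : KVal k K) (hcl : v.ResClosed) (j : K →+* M) (α : M)
    (hα : letI : Algebra k M := (j.comp (algebraMap k K)).toAlgebra; IsAlgebraic k α)
    (hnew : ∀ c : k, j (algebraMap k K c) ≠ α) : ¬ ResLift j v := by
  obtain ⟨P, hP, h⟩ := hα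
  exact not_resLift_of_new_const v hcl j α P hP h hnew

end Pool.Agent.LibK3
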