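import Pool.Agent.LibK3M.F2
import Pool.Agent.LibK3M.R1
import Pool.Agent.LibK3M.R3
import Pool.Agent.LibK3P.BR3
import Pool.Agent.LibK3P.CF13
import Pool.Agent.LibK3P.DR2
import Pool.Agent.LibK3P.FA4
import Pool.Agent.LibK3P.IDefs

section

/-!
Block C in the form used by the final theorem.
-/

set_option autoImplicit false

open Pool.Agent.LibGMM Pool.Agent.LibK Pool.Agent.LibKB
open Pool.Agent.LibLB (PSurf RLR)
open Pool.Agent.LibCov80 (Over)

open Pool.Agent.LibK3

namespace Pool.Agent.LibK3P

theorem bad_eq_Bad {L : Type} [Field L] [Algebra ℂ L] (S : PSurf L) (C : RC L) (B : DVal L) :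
    bad S C B = Bad S C B := by
  unfold bad Bad
  exact finsum_congr fun v => by congr

/-- **Block C.** -/
theorem statementC0 : StatementC0 := by
  intro L _ _ X C hC x y hxy B hB ε hε
  obtain ⟨F, m₀, hF, hm⟩ := blockC X hC hxy hB hε
  refine ⟨F, F.natDegree, hF, le_rfl, m₀, fun m hm1 => ?_⟩
  rcases hm m hm1 with h | h
  · exact Or.inl h
  · right
    rw [← bad_eq_Bad]
    exact h

end Pool.Agent.LibK3P

end

section

/-! Theorem K3+, geometric part: the four statements. -/

set_option autoImplicit false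

namespace Pool.Agent.LibK3P

theorem statementA0 : StatementA0 := statementA0_of statementD0 statementC0


end Pool.Agent.LibK3P

end

section

/-! F4. One extension of the function field: the web over the complex numbers. -/

set_option autoImplicit false
open AlgebraicGeometry CategoryTheory Polynomial Filter
open Pool.Agent.LibGMM Pool.Agent.LibK
open Pool.Agent.LibK3 Pool.Agent.LibK3P
open Pool.Agent.LibCov80 (Over)

namespace Pool.Agent.LibHP.K3

open Pool.Agent.LibHP

theorem iterate_inv {X : Scheme} (g : X ≅ X) (x : X) (n : ℕ)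
    (h : (fun z : X => g.inv z)^[n] x = x) : (fun z : X => g.hom z)^[n] x = x := by
  have hl : Function.LeftInverse (fun z : X => g.hom z) (fun z : X => g.inv z) := by
    intro z
    change g.hom (g.inv z) = z
    rw [← Scheme.Hom.comp_apply, g.inv_hom_id]
    rfl
  have h1 := (hl.iterate n) x
  rw [h] at h1
  exact h1

theorem web_of_ext {k : Type} [Field k] [CharZero k] [Algebra k ℂ] {X : Scheme}
    (f : X ⟶ Spec (CommRingCat.of k)) [IsIntegral X] [Smooth f] [IsSeparated f] [QuasiCompact f]
    [Algebra k X.functionField]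
    (hk : ∀ a : k, algebraMap k X.functionField a = toStalk f (genericPoint X) a)
    {ι : Type} [Finite ι] {c : ι → X.functionField} (hc : IsProjEmb f c) (hm : KModel k c)
    {g : X ≅ X} {γ : X.functionField ≃ₐ[k] X.functionField}
    (hγ : ∀ x : X, γ '' stk X (g.hom x) = stk X x)
    {v₀ : KVal k X.functionField} (hOn : ∃ i, v₀.On (kchart k c i)) (hcl : v₀.ResClosed)
    {L : Type} [Field L] [Algebra ℂ L] [Algebra X.functionField L]
    (hL : IsCx k X.functionField L) (Γ : L ≃ₐ[ℂ] L)
    (hΓ : ∀ z : X.functionField, Γ (algebraMap X.functionField L z) =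
      algebraMap X.functionField L (γ z)) {C₀ : RC L} (hC : CxOver v₀ C₀.ν)
    (hDyn : Dyn0 (cxModel hm hL) Γ) (hC₀ : C₀.ν ∈ primes (cxModel hm hL))
    (hG : Grow (cxModel hm hL) Γ C₀)
    (U : X.Opens) [Nonempty U] (hU : GeomSimplyConnected (U.ι ≫ f))
    (hper : ∀ x ∈ U, ringKrullDim (X.presheaf.stalk x) = 1 → ∀ n : ℕ, 0 < n →
      (fun z : X => g.hom z)^[n] x ≠ x)
    (x y : X.functionField) (hindL : AlgebraicIndependent ℂ ![algebraMap X.functionField L x,
      algebraMap X.functionField L y])
    (M' : Type) [Field M'] (j : X.functionField →+* M') (hj : j.Finite)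
    (hj2 : ¬ Function.Surjective j) :
    ∃ F : Polynomial L, F ≠ 0 ∧ ∃ m₀ : ℕ, ∀ m : ℕ, m₀ ≤ m → ResLift j (v₀.mv (γ ^ m)) →
      SlopeRoot (C₀.mv (Γ ^ m)) (algebraMap X.functionField L x) (algebraMap X.functionField L y)
        F := by
  classical
  letI : Algebra X.functionField M' := j.toAlgebra
  letI : Algebra k M' := (j.comp (algebraMap k X.functionField)).toAlgebra
  haveI : IsScalarTower k X.functionField M' := IsScalarTower.of_algebraMap_eq fun _ => rfl
  haveI : FiniteDimensional X.functionField M' := hj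
  by_cases hcM : ∀ b : M', IsAlgebraic k b → ∃ c : k, algebraMap k M' c = b
  swap
  · push Not at hcM
    obtain ⟨α, ⟨h, hh, hα⟩, hne⟩ := hcM
    refine ⟨1, one_ne_zero, 0, fun m _ hres => ?_⟩
    exact absurd hres (not_resLift_of_new_const _ (hcl.mv (γ ^ m)) j α h hh hα hne)
  · obtain ⟨M, i1, i2, i3, i4, i5, i6, hM, hcc, -⟩ := exists_cx_tower hL M' hcM
    -- a ramified point
    have h2 : 2 ≤ Module.finrank X.functionField M' := by
      have h1 : 0 < Module.finrank X.functionField M' := Module.finrank_pos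
      have h3 : Module.finrank X.functionField M' ≠ 1 := by
        intro h
        apply hj2
        intro z
        obtain ⟨w, hw, hw'⟩ := finrank_eq_one_iff'.1 h
        obtain ⟨a, ha⟩ := hw' 1
        obtain ⟨b, hb⟩ := hw' z
        have ha' : j a * w = 1 := by rw [← ha]; exact (Algebra.smul_def a w).symm
        have hb' : j b * w = z := by rw [← hb]; exact (Algebra.smul_def b w).symm
        have ha0 : j a ≠ 0 := fun h0 => by rw [h0, zero_mul] at ha'; exact zero_ne_one ha'
        refine ⟨b * a⁻¹, ?_⟩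
        rw [map_mul, map_inv₀, ← hb', eq_inv_of_mul_eq_one_right ha']
      omega
    obtain ⟨z, hzU, hz1, hz2⟩ : ∃ z ∈ U, ringKrullDim (X.presheaf.stalk z) = 1 ∧
        ¬ PresAt (algebraMap X.functionField M') z := by
      by_contra hcon
      push Not at hcon
      obtain ⟨α, ⟨h, hh, hev⟩, hα⟩ := exists_const_open f U hU M' h2 hcon
      obtain ⟨a, ha⟩ := hcM α ⟨h, hh, by
        rw [aeval_def, ← hev]
        congr 1
        ext a
        change j (algebraMap k X.functionField a) = _
        rw [hk]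
        rfl⟩
      refine hα a ?_
      rw [← ha, ← hk]
      rfl
    obtain ⟨v, B, Q, e, hv, hvB, hB, hQB, he⟩ := bridge_ramified0 f hk hc hm hL hM hcc z hz1 hz2
    obtain ⟨w, hw, hwOn⟩ := exists_kval f hk hc z hz1
    have hvw : w = v := KVal.ext_ring fun a ha => (hv a).2 ((hw a).1 ha)
    subst hvw
    have hnper : ¬ PerV Γ B := by
      rw [perV_iff f hm hL hγ Γ hΓ z hv hwOn hvB]
      rintro ⟨n, hn, h1⟩
      exact hper z hzU hz1 n hn (iterate_inv g z n h1)
    obtain ⟨F, hF, m₀, h3⟩ := statementA0 L (cxModel hm hL) Γ hDyn C₀ hC₀ hG _ _ hindL M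
      ⟨B, Q, e, hB, hnper, hQB, he⟩
    refine ⟨F, hF, m₀, fun m hm0 hres => ?_⟩
    obtain ⟨v', e', he', hv', hres'⟩ := hres
    obtain ⟨i, hi⟩ := hOn
    obtain ⟨h4, -, -, h5⟩ := h3 m hm0
      (bridge_lift hL hM hcc γ Γ hΓ hi hcl hC m v' e' he' hv' hres')
    exact slopeRoot_of_hom F h4 h5

end Pool.Agent.LibHP.K3

end
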