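import Pool.Agent.LibK3.BDefs

/-!
ROW [K3M R2].

Algebraic independence over `k` and over `ℂ`; a transcendence basis of the function field of a
surface.
-/

set_option autoImplicit false

open Pool.Agent.LibGMM

namespace Pool.Agent.LibK3

theorem exists_xy {k K : Type} [Field k] [Field K] [Algebra k K] (h : Algebra.trdeg k K = 2) :
    ∃ x y : K, AlgebraicIndependent k ![x, y] ∧
      ∀ a : K, IsAlgebraic (Algebra.adjoin k {x, y}) a := by
  obtain ⟨ι, b, hb⟩ := exists_isTranscendenceBasis' k K
  have hc : Cardinal.mk ι = Cardinal.mk (Fin 2) := by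
    rw [hb.cardinalMk_eq_trdeg, h]
    simp
  obtain ⟨e⟩ := Cardinal.eq.1 hc
  refine ⟨b (e.symm 0), b (e.symm 1), ?_, ?_⟩
  · have h1 := hb.1.comp e.symm e.symm.injective
    have h2 : b ∘ e.symm = ![b (e.symm 0), b (e.symm 1)] := by
      funext i
      fin_cases i <;> rfl
    rwa [h2] at h1
  · have h3 : Set.range b = {b (e.symm 0), b (e.symm 1)} := by
      ext z
      constructor
      · rintro ⟨i, rfl⟩
        obtain ⟨j, rfl⟩ := e.symm.surjective i
        fin_cases j
        · exact Or.inl rfl
        · exact Or.inr rfl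
      · rintro (rfl | rfl) <;> exact ⟨_, rfl⟩
    have h4 := hb.isAlgebraic
    rw [h3] at h4
    exact fun a => h4.isAlgebraic a

theorem alg_indep_cx {k K L : Type} [Field k] [Field K] [Field L] [Algebra k ℂ] [Algebra k K]
    [Algebra ℂ L] [Algebra K L] (hL : IsCx k K L) (x y : K)
    (h : AlgebraicIndependent k ![x, y]) :
    AlgebraicIndependent ℂ ![algebraMap K L x, algebraMap K L y] := by
  classical
  have h1 : LinearIndependent k fun m : Fin 2 →₀ ℕ => ∏ i ∈ m.support, ![x, y] i ^ m i := by
    have h2 := (MvPolynomial.basisMonomials (Fin 2) k).linearIndependent.map'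
      (MvPolynomial.aeval ![x, y] : MvPolynomial (Fin 2) k →ₐ[k] K).toLinearMap
      (LinearMap.ker_eq_bot.2 h)
    have h2' : (fun m : Fin 2 →₀ ℕ => ∏ i ∈ m.support, ![x, y] i ^ m i) =
        ⇑(MvPolynomial.aeval ![x, y] : MvPolynomial (Fin 2) k →ₐ[k] K).toLinearMap ∘
          ⇑(MvPolynomial.basisMonomials (Fin 2) k) := by
      funext m
      rw [Function.comp_apply, MvPolynomial.coe_basisMonomials, AlgHom.toLinearMap_apply,
        MvPolynomial.aeval_monomial, map_one, one_mul]
      rfl
    rw [h2']
    exact h2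
  have h3 : LinearIndependent ℂ fun m : Fin 2 →₀ ℕ =>
      algebraMap K L (∏ i ∈ m.support, ![x, y] i ^ m i) := by
    rw [linearIndependent_iff_finset_linearIndependent]
    intro s
    have h4 := hL.indep _ _ ((h1.comp _ Subtype.val_injective).comp s.equivFin.symm
      s.equivFin.symm.injective)
    exact (linearIndependent_equiv s.equivFin.symm).1 h4
  rw [AlgebraicIndependent, injective_iff_map_eq_zero]
  intro p hp
  rw [MvPolynomial.aeval_def, MvPolynomial.eval₂_eq] at hp
  have h5 := linearIndependent_iff'.1 h3 p.support (fun m => p.coeff m) (by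
    rw [← hp]
    refine Finset.sum_congr rfl fun m _ => ?_
    rw [Algebra.smul_def, map_prod]
    congr 1
    refine Finset.prod_congr rfl fun i _ => ?_
    rw [map_pow]
    fin_cases i <;> rfl)
  ext m
  rw [MvPolynomial.coeff_zero]
  by_cases hm : m ∈ p.support
  · exact h5 m hm
  · exact MvPolynomial.notMem_support_iff.1 hm

end Pool.Agent.LibK3
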