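import Pool.Agent.LibK3M.F3
import Pool.Agent.LibK3M.F4
import Pool.Agent.LibK3M.R2
import Pool.Agent.LibK3P.E5

/-! CORE: a rational curve with exponentially growing orbit does not lift to finitely many
extensions of the function field, if there is no periodic curve in the simply connected open
set `U`. -/

set_option autoImplicit false
open AlgebraicGeometry CategoryTheory Polynomial Filter
open Pool.Agent.LibGMM Pool.Agent.LibK
open Pool.Agent.LibK3 Pool.Agent.LibK3P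

namespace Pool.Agent.LibHP.K3

open Pool.Agent.LibHP

theorem core0 {k : Type} [Field k] [CharZero k] [Algebra k ℂ] {X : Scheme}
    (f : X ⟶ Spec (CommRingCat.of k)) [IsIntegral X] [Smooth f] [IsSeparated f] [QuasiCompact f]
    [Algebra k X.functionField]
    (hk : ∀ a : k, algebraMap k X.functionField a = toStalk f (genericPoint X) a)
    {ι : Type} [Finite ι] {c : ι → X.functionField} (hc : IsProjEmb f c)
    (hdim : Algebra.trdeg k X.functionField = 2) (hm : KModel k c)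
    (g : X ≅ X) (γ : X.functionField ≃ₐ[k] X.functionField) (hγ0 : ∀ z, γ z = kap g.hom z)
    (hγ : ∀ x : X, γ '' stk X (g.hom x) = stk X x)
    (v₀ : KVal k X.functionField) (hOn : ∃ i, v₀.On (kchart k c i)) (hcl : v₀.ResClosed)
    (r₀ : v₀.ring →ₐ[k] RatFunc k)
    (hr : ∀ z, r₀ z = 0 ↔ ((z : X.functionField) = 0 ∨ 0 < v₀.ord (z : X.functionField)))
    {L : Type} [Field L] [Algebra ℂ L] [Algebra X.functionField L]
    (hL : IsCx k X.functionField L) (Γ : L ≃ₐ[ℂ] L)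
    (hΓ : ∀ z : X.functionField, Γ (algebraMap X.functionField L z) =
      algebraMap X.functionField L (γ z)) (C₀ : RC L) (hC : CxOver v₀ C₀.ν)
    (hψ : ∀ z : v₀.ring, C₀.ψ (algebraMap X.functionField L z) = rmap (algebraMap k ℂ) (r₀ z))
    (hDyn : Dyn0 (cxModel hm hL) Γ) (hC₀ : C₀.ν ∈ primes (cxModel hm hL))
    (hG : Grow (cxModel hm hL) Γ C₀)
    (U : X.Opens) [Nonempty U] (hU : GeomSimplyConnected (U.ι ≫ f))
    (hper : ∀ x ∈ U, ringKrullDim (X.presheaf.stalk x) = 1 → ∀ n : ℕ, 0 < n →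
      (fun z : X => g.hom z)^[n] x ≠ x)
    {n : ℕ} (M : Fin n → Type) [∀ i, Field (M i)] (j : ∀ i, X.functionField →+* M i)
    (hj : ∀ i, (j i).Finite ∧ ¬ Function.Surjective (j i))
    (hres : ∃ m0 : ℕ, ∀ m ≥ m0, ∃ i, ResLift (j i) (v₀.mv (γ ^ m))) : False := by
  classical
  obtain ⟨x, y, hind, hxy⟩ := exists_xy hdim
  have hindL := alg_indep_cx hL x y hind
  have hfin : ∀ z : L, z ≠ 0 → ∃ m₀ : ℕ, ∀ m : ℕ, m₀ ≤ m →
      (LibK3.mv (Γ ^ m) C₀.ν).ord z = 0 := fun z hz => statementFin L _ Γ hDyn C₀ hC₀ hG z hz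
  have hnc : ∀ z : L, z ∉ Set.range (algebraMap ℂ L) → ∃ m₀ : ℕ, ∀ m : ℕ, m₀ ≤ m →
      z ∈ (LibK3.mv (Γ ^ m) C₀.ν).ring ∧ ∀ c, (C₀.mv (Γ ^ m)).ψ z ≠ RatFunc.C c :=
    fun z hz => statementNC L _ Γ hDyn C₀ hC₀ hG z hz
  have hQ := orbR C₀ Γ hfin
  choose F hF m₁ h1 using fun i => web_of_ext f hk hc hm hγ hOn hcl hL Γ hΓ hC hDyn hC₀ hG U hU
    hper x y hindL (M i) (j i) (hj i).1 (hj i).2
  obtain ⟨m0, h2⟩ := hres
  have hweb : ∀ᶠ m in atTop, SlopeRoot (C₀.mv (Γ ^ m))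
      (algebraMap X.functionField L x) (algebraMap X.functionField L y) (∏ i, F i) := by
    have hreg : ∀ᶠ m in atTop, ∀ i, ∃ F', (plcR (C₀.mv (Γ ^ m))).PAt (F i) F' :=
      eventually_all.2 fun i => hQ.preg (F i)
    have hge : ∀ᶠ m in atTop, ∀ i, m₁ i ≤ m := eventually_all.2 fun i => eventually_ge_atTop _
    filter_upwards [hreg, hge, eventually_ge_atTop m0] with m h3 h4 h5
    obtain ⟨i, hi⟩ := h2 m h5
    exact slopeRoot_prod F h3 i (h1 i m (h4 i) hi)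
  obtain ⟨T, hT, δ, hδ, h6⟩ := finite_slopes_cx f U hU g.symm hper hk (γ := γ) hγ0 hL Γ hΓ hr hC hψ
    hfin hnc x y hind hxy hindL (∏ i, F i) (Finset.prod_ne_zero_iff.2 fun i _ => hF i) hweb
  exact statementB0 L _ Γ hDyn C₀ hC₀ hG _ _ hindL T hT δ hδ h6

end Pool.Agent.LibHP.K3

namespace Pool.Agent.LibK3P

open Pool.Agent.LibHP Pool.Agent.LibHP.K3

/-- **CORE.** -/
theorem core {k : Type} [Field k] [CharZero k] [Algebra k ℂ] {X : Scheme} [IsIntegral X]
    (f : X ⟶ Spec (CommRingCat.of k)) [Smooth f] [IsSeparated f] [QuasiCompact f]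
    [Algebra k X.functionField]
    (hk : ∀ a : k, algebraMap k X.functionField a = toStalk f (genericPoint X) a)
    {ι : Type} [Finite ι] {c : ι → X.functionField} (hm : KModel k c) (hc : IsProjEmb f c)
    (hdim : Algebra.trdeg k X.functionField = 2) (g : X ≅ X) (hg : g.hom ≫ f = f)
    (γ : X.functionField ≃ₐ[k] X.functionField) (hγ : ∀ z, γ z = kap g.hom z)
    (v₀ : KVal k X.functionField) (hOn : ∃ i, v₀.On (kchart k c i))
    (r₀ : v₀.ring →ₐ[k] RatFunc k) (_hsurj : Function.Surjective r₀)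
    (hker : ∀ z, r₀ z = 0 ↔ ((z : X.functionField) = 0 ∨ 0 < v₀.ord (z : X.functionField)))
    {L : Type} [Field L] [Algebra ℂ L] [Algebra X.functionField L]
    (hL : IsCx k X.functionField L) (Γ : L ≃ₐ[ℂ] L)
    (hΓ : ∀ z : X.functionField, Γ (algebraMap X.functionField L z) =
      algebraMap X.functionField L (γ z)) (C₀ : RC L) (hC : CxOver v₀ C₀.ν)
    (hψ : ∀ z : v₀.ring, C₀.ψ (algebraMap X.functionField L z) = rmap (algebraMap k ℂ) (r₀ z))
    (hDyn : Dyn0 (cxModel hm hL) Γ) (hC₀ : C₀.ν ∈ primes (cxModel hm hL))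
    (hG : Grow (cxModel hm hL) Γ C₀)
    (U : X.Opens) [Nonempty U] (hU : GeomSimplyConnected (U.ι ≫ f))
    (hper : ∀ x ∈ U, ringKrullDim (X.presheaf.stalk x) = 1 → ∀ n, 0 < n →
      (fun z : X => g.hom z)^[n] x ≠ x)
    {n : ℕ} (M : Fin n → Type) [∀ i, Field (M i)] (j : ∀ i, X.functionField →+* M i)
    (hj : ∀ i, (j i).Finite ∧ ¬ Function.Surjective (j i))
    (hres : ∃ m0 : ℕ, ∀ m ≥ m0, ∃ i, ResLift (j i) (v₀.mv (γ ^ m))) : False := by
  obtain ⟨γ', h1, -, h2⟩ := exists_gam f hk g hg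
  have h3 : γ' = γ := AlgEquiv.ext fun z => (h1 z).trans (hγ z).symm
  subst h3
  exact core0 f hk hc hdim hm g _ h1 h2 v₀ hOn (resClosed_of_res v₀ r₀ hker) r₀ hker hL Γ hΓ C₀ hC
    hψ hDyn hC₀ hG U hU hper M j hj hres

end Pool.Agent.LibK3P
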