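import Pool.Agent.LibK3M.Defs
import Pool.Agent.LibHPF.Q2

/-! Row M1. Partial derivatives on `K`.
Existence: `exists_derivation_of_rel k K (Fin 2) ![x, y] c` (LibHPF/Q2) with `c = ![1, 0]` and `c = ![0, 1]`; its hypothesis is trivial since
`aeval ![x, y] G = 0` forces `G = 0` (`hind`). Uniqueness: put `E := D - (D x) • dx - (D y) • dy` (a derivation with `E x = E y = 0`); the elements killed by `E`
contain `Algebra.adjoin k {x, y}` (`Algebra.adjoin_induction`, Leibniz), and if `a` is algebraic over this ring `R` take `p : R[X]`, `p ≠ 0`, `p(a) = 0` of minimal degree;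
then `p'(a) ≠ 0` (`p' ≠ 0` by characteristic zero since `p` is not constant, and its degree is smaller), and `0 = E (p(a)) = p'(a) E a` (coefficients are killed). Search Mathlib for
`Derivation.eqOn_adjoin`, `Polynomial.aeval`, `Derivation.leibniz`; private theorems `E10_der`, `E10_const`, `E10_alg` in LibHPC/E10.lean do the same (copy the proofs if useful). -/

set_option autoImplicit false
open Polynomial Filter

namespace Pool.Agent.LibHP.K3

/-- The constants of a derivation. -/
private theorem M1_const {k Ω : Type} [Field k] [Field Ω] [Algebra k Ω] (δ : Derivation k Ω Ω) :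
    ∃ C : Subfield Ω, ∀ x, x ∈ C ↔ δ x = 0 := by
  refine ⟨{ carrier := {x | δ x = 0}
            mul_mem' := fun {a b} ha hb => ?_
            one_mem' := ?_
            add_mem' := fun {a b} ha hb => ?_
            zero_mem' := ?_
            neg_mem' := fun {a} ha => ?_
            inv_mem' := fun a ha => ?_ }, fun x => Iff.rfl⟩
  · show δ (a * b) = 0
    have ha' : δ a = 0 := ha
    have hb' : δ b = 0 := hb
    rw [δ.leibniz, ha', hb', smul_zero, smul_zero, add_zero]
  · exact δ.map_one_eq_zero
  · show δ (a + b) = 0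
    have ha' : δ a = 0 := ha
    have hb' : δ b = 0 := hb
    rw [map_add, ha', hb', add_zero]
  · exact map_zero δ
  · show δ (-a) = 0
    have ha' : δ a = 0 := ha
    rw [map_neg, ha', neg_zero]
  · show δ a⁻¹ = 0
    have ha' : δ a = 0 := ha
    rw [δ.leibniz_inv, ha', smul_zero]

private theorem M1_der {k Ω : Type} [Field k] [CharZero k] [Field Ω] [Algebra k Ω]
    (δ : Derivation k Ω Ω) (C : Subfield Ω)
    (hC : ∀ x, x ∈ C ↔ δ x = 0) (x : Ω) (hx : IsIntegral C x) : δ x = 0 := by
  let δ' : Derivation C Ω Ω := Derivation.mk'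
    { toFun := δ
      map_add' := map_add δ
      map_smul' := fun c z => by
        show δ ((c : Ω) * z) = (c : Ω) * δ z
        rw [Derivation.leibniz, (hC c).1 c.2, smul_zero, add_zero, smul_eq_mul] }
    (fun a b => by
      show δ (a * b) = a • δ b + b • δ a
      exact δ.leibniz a b)
  have : CharZero Ω := charZero_of_injective_algebraMap (algebraMap k Ω).injective
  have h1 : δ' (Polynomial.aeval x (minpoly C x)) =
      Polynomial.aeval x (Polynomial.derivative (minpoly C x)) • δ' x := δ'.map_aeval _ _
  rw [minpoly.aeval, map_zero, smul_eq_mul] at h1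
  have hsep : (minpoly C x).Separable := (minpoly.irreducible hx).separable
  have h2 := hsep.aeval_derivative_ne_zero (minpoly.aeval C x)
  rcases mul_eq_zero.1 h1.symm with h | h
  · exact absurd h h2
  · exact h

/-- A derivation killing `s` kills the elements algebraic over the algebra generated by `s`. -/
private theorem M1_alg {k Ω : Type} [Field k] [CharZero k] [Field Ω] [Algebra k Ω]
    (δ : Derivation k Ω Ω) (s : Set Ω) (hs : ∀ y ∈ s, δ y = 0) (x : Ω)
    (hx : IsAlgebraic (Algebra.adjoin k s) x) : δ x = 0 := by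
  obtain ⟨C, hC⟩ := M1_const δ
  have hA : ∀ a ∈ Algebra.adjoin k s, a ∈ C := by
    intro a ha
    induction ha using Algebra.adjoin_induction with
    | mem y hy => exact (hC _).2 (hs y hy)
    | algebraMap r => exact (hC _).2 (δ.map_algebraMap r)
    | add a b _ _ ha hb => exact C.add_mem ha hb
    | mul a b _ _ ha hb => exact C.mul_mem ha hb
  let g : Algebra.adjoin k s →+* C :=
    { toFun := fun a => ⟨(a : Ω), hA _ a.2⟩
      map_one' := rfl
      map_mul' := fun a b => rfl
      map_zero' := rfl
      map_add' := fun a b => rfl }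
  obtain ⟨p, hp0, hp⟩ := hx
  have hg : Function.Injective g := by
    intro a b hab
    have h1 : (a : Ω) = (b : Ω) := congrArg (fun z : C => (z : Ω)) hab
    exact Subtype.ext h1
  have h1 : IsAlgebraic C x := by
    refine ⟨p.map g, ?_, ?_⟩
    · rwa [Ne, Polynomial.map_eq_zero_iff hg]
    · rw [Polynomial.aeval_def, Polynomial.eval₂_map, ← hp, Polynomial.aeval_def]
      rfl
  exact M1_der δ C hC _ h1.isIntegral

theorem exists_partial {k K : Type} [Field k] [CharZero k] [Field K] [Algebra k K] (x y : K)
    (hind : AlgebraicIndependent k ![x, y])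
    (halg : ∀ a : K, IsAlgebraic (Algebra.adjoin k {x, y}) a) :
    ∃ dx dy : Derivation k K K, IsPartial dx dy x y := by
  have hrel : ∀ c : Fin 2 → K, ∀ G : MvPolynomial (Fin 2) k, MvPolynomial.aeval ![x, y] G = 0 →
      ∑ i, c i * MvPolynomial.aeval ![x, y] (MvPolynomial.pderiv i G) = 0 := by
    intro c G hG
    have h0 : G = 0 := hind.eq_zero_of_aeval_eq_zero G hG
    simp [h0]
  obtain ⟨dx, hdx⟩ := exists_derivation_of_rel k K (Fin 2) ![x, y] ![1, 0] (hrel _)
  obtain ⟨dy, hdy⟩ := exists_derivation_of_rel k K (Fin 2) ![x, y] ![0, 1] (hrel _)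
  have hxx : dx x = 1 := hdx 0
  have hxy : dx y = 0 := hdx 1
  have hyx : dy x = 0 := hdy 0
  have hyy : dy y = 1 := hdy 1
  refine ⟨dx, dy, hxx, hxy, hyx, hyy, fun D a => ?_, halg⟩
  obtain ⟨E, hE⟩ : ∃ E : Derivation k K K, E = D - (D x) • dx - (D y) • dy := ⟨_, rfl⟩
  have hE1 : ∀ b, E b = D b - D x * dx b - D y * dy b := by
    intro b
    rw [hE]
    rfl
  have h1 : E a = 0 := by
    refine M1_alg E {x, y} ?_ a (halg a)
    intro z hz
    rcases hz with rfl | hz
    · rw [hE1, hxx, hyx, mul_one, mul_zero, sub_self, sub_zero]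
    · rw [Set.mem_singleton_iff.1 hz, hE1, hxy, hyy, mul_one, mul_zero, sub_zero, sub_self]
  rw [hE1] at h1
  linear_combination h1

end Pool.Agent.LibHP.K3
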