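import Pool.Agent.LibK3M.Defs
import Pool.Agent.LibK3.BDefs

/-! Row M11. Descent of a web from `L = Frac (ℂ ⊗ K)` to `K`. All coefficients of `F` are quotients of elements of the algebra `E := cadj L Set.univ` (`h.frac`); multiply `F` by the product `v ≠ 0` of the denominators:
`G := C v * F`, coefficients in `E`. Every element of `E` (in particular `v` and the coefficients of `G`) is a finite sum `∑ algebraMap ℂ L (c) * algebraMap K L (b)` (`Algebra.adjoin_eq_span`); taking a basis of `ℂ` over `k`, there are `c : Fin N → ℂ` linearly independent over `k` and `b : ℕ → Fin N → K` with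
`G.coeff i = ∑ j, algebraMap ℂ L (c j) * algebraMap K L (b i j)` for all `i`. Put `F_j := ∑_{i ≤ deg G} C (b i j) X^i`; some `F_j ≠ 0` since `G ≠ 0`. Claim `Web P s F_j` for ALL `j`: for large `m`
the `F_j` are regular at `P m` (`hP.preg`) with value `F_j'`, `v` is regular at `Q m` (it is a sum of products of constants and of elements of `K` regular at `P m`: `hPQ`, `hQ`), so `G` has at `Q m` the value
`∑ j C (algebraMap ℂ κ' (c j)) * F_j'.map ι` and also the value `C v' * F'` (`Plc.PAt.unique`); evaluating at `ι (s m)`: `∑ j algebraMap ℂ κ' (c j) * ι (F_j'.eval (s m)) = 0`, so `F_j'.eval (s m) = 0` for all `j` by `hind`. -/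

set_option autoImplicit false
open Polynomial Filter
open Pool.Agent.LibK3

namespace Pool.Agent.LibHP.K3

private theorem M11_span {K L : Type} [Field K] [Field L] [Algebra ℂ L] [Algebra K L] {z : L}
    (hz : z ∈ cadj L (Set.univ : Set K)) :
    ∃ c : K →₀ ℂ, z = c.sum fun x a => algebraMap ℂ L a * algebraMap K L x := by
  unfold cadj at hz
  rw [← Subalgebra.mem_toSubmodule, Algebra.adjoin_eq_span] at hz
  have h1 : (Submonoid.closure (algebraMap K L '' (Set.univ : Set K)) : Set L) =
      Set.range (algebraMap K L) := by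
    rw [Set.image_univ]
    have h2 : Set.range (algebraMap K L) = ((MonoidHom.mrange (algebraMap K L : K →* L)) : Set L) := rfl
    rw [h2, Submonoid.closure_eq]
  rw [h1, Finsupp.mem_span_range_iff_exists_finsupp] at hz
  obtain ⟨c, hc⟩ := hz
  refine ⟨c, ?_⟩
  rw [← hc]
  refine Finsupp.sum_congr fun x _ => ?_
  rw [Algebra.smul_def]

/-- Expansion with respect to a basis of the constants. -/
private def M11_R {K L I : Type} [Field K] [Field L] [Algebra ℂ L] [Algebra K L] (B : I → ℂ)
    (z : L) : Prop := ∃ β : I →₀ K, z = β.sum fun j b => algebraMap ℂ L (B j) * algebraMap K L b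

private theorem M11_R_add {K L I : Type} [Field K] [Field L] [Algebra ℂ L] [Algebra K L]
    {B : I → ℂ} {z w : L} (hz : M11_R (K := K) B z) (hw : M11_R (K := K) B w) :
    M11_R (K := K) B (z + w) := by
  classical
  obtain ⟨β, hβ⟩ := hz
  obtain ⟨γ, hγ⟩ := hw
  refine ⟨β + γ, ?_⟩
  rw [Finsupp.sum_add_index', ← hβ, ← hγ]
  · intro j
    rw [map_zero, mul_zero]
  · intro j a b
    rw [map_add, mul_add]

private theorem M11_R_sum {K L I α : Type} [Field K] [Field L] [Algebra ℂ L] [Algebra K L]
    {B : I → ℂ} (s : Finset α) (z : α → L) (hz : ∀ i ∈ s, M11_R (K := K) B (z i)) :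
    M11_R (K := K) B (∑ i ∈ s, z i) := by
  classical
  induction s using Finset.induction_on with
  | empty => exact ⟨0, by simp⟩
  | insert i s hi ih =>
    rw [Finset.sum_insert hi]
    exact M11_R_add (hz i (Finset.mem_insert_self _ _))
      (ih fun j hj => hz j (Finset.mem_insert_of_mem hj))

private theorem M11_R_one {k K L I : Type} [Field k] [Field K] [Field L] [Algebra k ℂ]
    [Algebra k K] [Algebra ℂ L] [Algebra K L] (h : IsCx k K L) (B : Module.Basis I k ℂ) (c : ℂ)
    (x : K) : M11_R (K := K) B (algebraMap ℂ L c * algebraMap K L x) := by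
  classical
  have h1 : c = (B.repr c).sum fun j a => a • B j := (B.linearCombination_repr c).symm
  have h2 : algebraMap ℂ L c * algebraMap K L x = ∑ j ∈ (B.repr c).support,
      algebraMap ℂ L (B j) * algebraMap K L (algebraMap k K (B.repr c j) * x) := by
    conv_lhs => rw [h1]
    unfold Finsupp.sum
    rw [map_sum, Finset.sum_mul]
    refine Finset.sum_congr rfl fun j _ => ?_
    show algebraMap ℂ L (B.repr c j • B j) * algebraMap K L x = _
    rw [Algebra.smul_def, map_mul, map_mul, h.compat]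
    ring
  rw [h2]
  refine M11_R_sum _ _ fun j _ => ⟨Finsupp.single j (algebraMap k K (B.repr c j) * x), ?_⟩
  rw [Finsupp.sum_single_index]
  rw [map_zero, mul_zero]

private theorem M11_R_mem {k K L I : Type} [Field k] [Field K] [Field L] [Algebra k ℂ]
    [Algebra k K] [Algebra ℂ L] [Algebra K L] (h : IsCx k K L) (B : Module.Basis I k ℂ) {z : L}
    (hz : z ∈ cadj L (Set.univ : Set K)) : M11_R (K := K) B z := by
  obtain ⟨c, hc⟩ := M11_span hz
  rw [hc]
  exact M11_R_sum _ _ fun x _ => M11_R_one h B (c x) x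

private theorem M11_den {k K L : Type} [Field k] [Field K] [Field L] [Algebra k ℂ]
    [Algebra k K] [Algebra ℂ L] [Algebra K L] (h : IsCx k K L) (F : Polynomial L) :
    ∃ v ∈ cadj L (Set.univ : Set K), v ≠ 0 ∧ ∀ i, (C v * F).coeff i ∈ cadj L (Set.univ : Set K) := by
  classical
  have h1 : ∀ s : Finset ℕ, ∃ v ∈ cadj L (Set.univ : Set K), v ≠ 0 ∧
      ∀ i ∈ s, v * F.coeff i ∈ cadj L (Set.univ : Set K) := by
    intro s
    induction s using Finset.induction_on with
    | empty => exact ⟨1, one_mem _, one_ne_zero, by simp⟩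
    | insert j s hj ih =>
      obtain ⟨v, hv, hv0, hvs⟩ := ih
      obtain ⟨u, hu, w, hw, hw0, huw⟩ := h.frac (F.coeff j)
      refine ⟨v * w, mul_mem hv hw, mul_ne_zero hv0 hw0, fun i hi => ?_⟩
      rw [Finset.mem_insert] at hi
      rcases hi with rfl | hi
      · rw [huw]
        have : v * w * (u / w) = v * u := by field_simp
        rw [this]
        exact mul_mem hv hu
      · have : v * w * F.coeff i = (v * F.coeff i) * w := by ring
        rw [this]
        exact mul_mem (hvs i hi) hw
  obtain ⟨v, hv, hv0, hvs⟩ := h1 F.support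
  refine ⟨v, hv, hv0, fun i => ?_⟩
  rw [coeff_C_mul]
  by_cases hi : i ∈ F.support
  · exact hvs i hi
  · rw [notMem_support_iff.1 hi, mul_zero]
    exact zero_mem _

private theorem M11_rep {k K L : Type} [Field k] [Field K] [Field L] [Algebra k ℂ]
    [Algebra k K] [Algebra ℂ L] [Algebra K L] (h : IsCx k K L) (G : Polynomial L)
    (hG : ∀ i, G.coeff i ∈ cadj L (Set.univ : Set K)) :
    ∃ (N : ℕ) (c : Fin N → ℂ) (b : ℕ → Fin N → K), LinearIndependent k c ∧
      (∀ i, G.coeff i = ∑ t, algebraMap ℂ L (c t) * algebraMap K L (b i t)) ∧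
      ∀ i, G.natDegree < i → ∀ t, b i t = 0 := by
  classical
  let B := Module.Basis.ofVectorSpace k ℂ
  have h1 : ∀ i, M11_R (K := K) B (G.coeff i) := fun i => M11_R_mem h B (hG i)
  choose β hβ using h1
  let J := (Finset.range (G.natDegree + 1)).biUnion fun i => (β i).support
  let e := J.equivFin.symm
  have hJ : ∀ i, i ≤ G.natDegree → (β i).support ⊆ J := by
    intro i hi
    exact Finset.subset_biUnion_of_mem (fun i => (β i).support)
      (Finset.mem_range.2 (Nat.lt_succ_of_le hi))
  refine ⟨J.card, fun t => B (e t : _), fun i t => if i ≤ G.natDegree then β i (e t : _) else 0,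
    ?_, ?_, ?_⟩
  · exact B.linearIndependent.comp (fun t => ((e t : J) : _))
      (Subtype.val_injective.comp e.injective)
  · intro i
    by_cases hi : i ≤ G.natDegree
    · simp only [if_pos hi]
      rw [hβ i]
      unfold Finsupp.sum
      rw [Finset.sum_subset (hJ i hi)]
      · rw [← Finset.sum_coe_sort J, ← e.sum_comp]
      · intro j _ hj
        show algebraMap ℂ L (B j) * algebraMap K L (β i j) = 0
        rw [Finsupp.notMem_support_iff.1 hj, map_zero, mul_zero]
    · simp only [if_neg hi, map_zero, mul_zero, Finset.sum_const_zero]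
      exact coeff_eq_zero_of_natDegree_lt (not_le.1 hi)
  · intro i hi t
    exact if_neg (not_le.2 hi)

theorem web_descent {k K L κ κ' : Type} [Field k] [Field K] [Field L] [Field κ] [Field κ']
    [Algebra k ℂ] [Algebra k K] [Algebra ℂ L] [Algebra K L] [Algebra k κ] [Algebra ℂ κ']
    (h : IsCx k K L) {P : ℕ → Plc K κ} {γ : K ≃ₐ[k] K} (hP : Orb P γ) (Q : ℕ → Plc L κ')
    (ι : κ →+* κ') (hPQ : ∀ m a b, (P m).At a b → (Q m).At (algebraMap K L a) (ι b))
    (hQ : ∀ m (c : ℂ), (Q m).At (algebraMap ℂ L c) (algebraMap ℂ κ' c))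
    (hind : ∀ (n : ℕ) (c : Fin n → ℂ), LinearIndependent k c → ∀ z : Fin n → κ,
      ∑ i, algebraMap ℂ κ' (c i) * ι (z i) = 0 → z = 0)
    (s : ℕ → κ) (F : Polynomial L) (hF : F ≠ 0)
    (hweb : ∀ᶠ m in atTop, ∃ F' : Polynomial κ', (Q m).PAt F F' ∧ F'.eval (ι (s m)) = 0) :
    ∃ F0 : Polynomial K, F0 ≠ 0 ∧ Web P s F0 := by
  classical
  obtain ⟨v, hv, hv0, hvF⟩ := M11_den h F
  obtain ⟨N, c, b, hc, hb, hb0⟩ := M11_rep h (C v * F) hvF
  obtain ⟨a, ha⟩ := M11_span hv
  have hG0 : C v * F ≠ 0 := mul_ne_zero (C_ne_zero.2 hv0) hF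
  let Fj : Fin N → Polynomial K := fun t =>
    ∑ i ∈ Finset.range ((C v * F).natDegree + 1), monomial i (b i t)
  have hFj : ∀ t i, (Fj t).coeff i = b i t := by
    intro t i
    simp only [Fj, finsetSum_coeff, coeff_monomial]
    rw [Finset.sum_ite_eq' (Finset.range ((C v * F).natDegree + 1)) i]
    split_ifs with hi
    · rfl
    · rw [Finset.mem_range, not_lt] at hi
      exact (hb0 i (by omega) t).symm
  have hex : ∃ t, Fj t ≠ 0 := by
    by_contra hcon
    push Not at hcon
    apply hG0
    ext i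
    rw [hb i, coeff_zero]
    refine Finset.sum_eq_zero fun t _ => ?_
    rw [← hFj t i, hcon t, coeff_zero, map_zero, mul_zero]
  obtain ⟨t₀, ht₀⟩ := hex
  refine ⟨Fj t₀, ht₀, ?_⟩
  have hreg : ∀ᶠ m in atTop, ∀ t, ∃ F' : Polynomial κ, (P m).PAt (Fj t) F' := by
    rw [eventually_all]
    exact fun t => hP.preg (Fj t)
  have hregv : ∀ᶠ m in atTop, ∀ x ∈ a.support, ∃ y, (P m).At x y := by
    rw [Finset.eventually_all]
    exact fun x _ => hP.reg x
  unfold Web
  filter_upwards [hreg, hregv, hweb] with m h1 h2 h3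
  choose F' hF' using h1
  refine ⟨F' t₀, hF' t₀, ?_⟩
  obtain ⟨Fw, hFw, hFw0⟩ := h3
  have hvAt : ∃ v', (Q m).At v v' := by
    have h4 : ∀ x : K, ∃ y, x ∈ a.support → (P m).At x y := by
      intro x
      by_cases hx : x ∈ a.support
      · obtain ⟨y, hy⟩ := h2 x hx
        exact ⟨y, fun _ => hy⟩
      · exact ⟨0, fun h => absurd h hx⟩
    choose y hy using h4
    refine ⟨∑ x ∈ a.support, algebraMap ℂ κ' (a x) * ι (y x), ?_⟩
    rw [ha]
    exact Plc.At.sum _ fun x hx => (hQ m (a x)).mul (hPQ m _ _ (hy x hx))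
  obtain ⟨v', hv'⟩ := hvAt
  have hA : (Q m).PAt (C v * F) (C v' * Fw) := (Plc.PAt.C hv').mul hFw
  have hB : (Q m).PAt (C v * F) (∑ t, C (algebraMap ℂ κ' (c t)) * (F' t).map ι) := by
    intro i
    rw [hb i, finsetSum_coeff]
    refine Plc.At.sum _ fun t _ => ?_
    rw [coeff_C_mul, coeff_map]
    have h5 := hF' t i
    rw [hFj] at h5
    exact (hQ m (c t)).mul (hPQ m _ _ h5)
  have hAB := hA.unique hB
  have h6 := congrArg (fun p => p.eval (ι (s m))) hAB
  simp only [eval_mul, eval_C, hFw0, mul_zero, eval_finsetSum] at h6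
  have h7 : ∑ t, algebraMap ℂ κ' (c t) * ι ((F' t).eval (s m)) = 0 := by
    rw [h6]
    refine Finset.sum_congr rfl fun t _ => ?_
    rw [eval_map, eval₂_at_apply]
  have h8 := hind N c hc (fun t => (F' t).eval (s m)) h7
  exact congrFun h8 t₀

end Pool.Agent.LibHP.K3
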