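import Pool.Agent.LibK3M.Defs
import Pool.Agent.LibK3.BZ0
import Pool.Agent.LibK3.Defs

/-! F1. Places from discrete valuations; the orbits of a curve under an automorphism. -/

set_option autoImplicit false
open Polynomial Filter
open Pool.Agent.LibGMM
open Pool.Agent.LibK3 (KVal RC IsCx CxOver)

namespace Pool.Agent.LibHP.K3

section
variable {k K κ : Type} [Field k] [Field K] [Field κ] [Algebra k K] [Algebra k κ]

/-- The valuation ring of a discrete valuation. -/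
def vring (v : KVal k K) : ValuationSubring K where
  toSubring := v.ring.toSubring
  mem_or_inv_mem' x := by
    rcases le_total 0 (v.ord x) with h | h
    · exact Or.inl h
    · right
      change 0 ≤ v.ord x⁻¹
      rw [v.ord_inv]
      omega

theorem mem_vring {v : KVal k K} {z : K} : z ∈ vring v ↔ 0 ≤ v.ord z := Iff.rfl

/-- The place given by a discrete valuation and its residue map. -/
noncomputable def plcK (v : KVal k K) (r : v.ring →ₐ[k] κ)
    (hr : ∀ z, r z = 0 ↔ ((z : K) = 0 ∨ 0 < v.ord (z : K))) : Plc K κ where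
  V := vring v
  ψ :=
    { toFun := fun z => r ⟨z, z.2⟩
      map_one' := r.map_one
      map_mul' := fun z w => r.map_mul ⟨z, z.2⟩ ⟨w, w.2⟩
      map_zero' := r.map_zero
      map_add' := fun z w => r.map_add ⟨z, z.2⟩ ⟨w, w.2⟩ }
  loc := by
    intro a ha
    have h1 : ¬ ((a : K) = 0 ∨ 0 < v.ord (a : K)) := fun h => ha ((hr ⟨a, a.2⟩).2 h)
    push Not at h1
    have h2 : (a : K)⁻¹ ∈ vring v := by
      rw [mem_vring, v.ord_inv]
      omega
    refine IsUnit.of_mul_eq_one ⟨(a : K)⁻¹, h2⟩ ?_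
    exact Subtype.ext (mul_inv_cancel₀ h1.1)

theorem plcK_at {v : KVal k K} {r : v.ring →ₐ[k] κ}
    {hr : ∀ z, r z = 0 ↔ ((z : K) = 0 ∨ 0 < v.ord (z : K))} {a : K} {b : κ} :
    (plcK v r hr).At a b ↔ ∃ h : a ∈ v.ring, r ⟨a, h⟩ = b := Iff.rfl

/-- Transport of a place. -/
noncomputable def Plc.comap (P : Plc K κ) (e : K ≃+* K) : Plc K κ where
  V := P.V.comap (e : K →+* K)
  ψ :=
    { toFun := fun z => P.ψ ⟨e z, z.2⟩
      map_one' := by
        have : (⟨e (((1 : P.V.comap (e : K →+* K))) : K), (1 : P.V.comap (e : K →+* K)).2⟩ : P.V) = 1 :=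
          Subtype.ext (map_one e)
        rw [this, map_one]
      map_mul' := fun z w => by
        rw [← map_mul]
        congr 1
        exact Subtype.ext (map_mul e _ _)
      map_zero' := by
        have : (⟨e (((0 : P.V.comap (e : K →+* K))) : K), (0 : P.V.comap (e : K →+* K)).2⟩ : P.V) = 0 :=
          Subtype.ext (map_zero e)
        rw [this, map_zero]
      map_add' := fun z w => by
        rw [← map_add]
        congr 1
        exact Subtype.ext (map_add e _ _) }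
  loc := by
    intro a ha
    obtain ⟨u, hu⟩ := P.loc ⟨e a, a.2⟩ ha
    have h3 : ((u⁻¹ : P.Vˣ) : P.V) * ⟨e a, a.2⟩ = 1 := by rw [← hu, Units.inv_mul]
    have h2 : (((u⁻¹ : P.Vˣ) : P.V) : K) = (e a)⁻¹ := by
      refine eq_inv_of_mul_eq_one_left ?_
      exact congrArg (fun z : P.V => (z : K)) h3
    have h4 : (a : K)⁻¹ ∈ P.V.comap (e : K →+* K) := by
      rw [ValuationSubring.mem_comap]
      change e (a : K)⁻¹ ∈ P.V
      rw [map_inv₀, ← h2]
      exact ((u⁻¹ : P.Vˣ) : P.V).2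
    have h5 : (a : K) ≠ 0 := by
      intro h0
      have h6 : (⟨e a, a.2⟩ : P.V) = 0 := Subtype.ext (by
        change e (a : K) = 0
        rw [h0, map_zero])
      apply ha
      change P.ψ ⟨e a, a.2⟩ = 0
      rw [h6, map_zero]
    refine IsUnit.of_mul_eq_one ⟨(a : K)⁻¹, h4⟩ ?_
    exact Subtype.ext (mul_inv_cancel₀ h5)

theorem Plc.comap_at {P : Plc K κ} {e : K ≃+* K} {a : K} {b : κ} :
    (P.comap e).At a b ↔ P.At (e a) b := Iff.rfl

/-- The places of the curves `γ ^ m C`. -/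
noncomputable def orb (P : Plc K κ) (γ : K ≃ₐ[k] K) (m : ℕ) : Plc K κ :=
  P.comap ((γ ^ m).symm : K ≃ₐ[k] K).toRingEquiv

theorem orb_at {P : Plc K κ} {γ : K ≃ₐ[k] K} {m : ℕ} {a : K} {b : κ} :
    (orb P γ m).At a b ↔ P.At ((γ ^ m).symm a) b := Iff.rfl

theorem orb_orb (P : Plc K κ) (γ : K ≃ₐ[k] K) (hc : ∀ c : k, P.At (algebraMap k K c) (algebraMap k κ c))
    (hfin : ∀ a : K, a ≠ 0 → ∀ᶠ m in atTop, ∃ b, b ≠ 0 ∧ P.At (((γ ^ m : K ≃ₐ[k] K)).symm a) b) :
    Orb (orb P γ) γ where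
  const m c := by
    rw [orb_at, AlgEquiv.commutes]
    exact hc c
  step m a b := by
    rw [orb_at, orb_at]
    have h : (γ ^ (m + 1) : K ≃ₐ[k] K).symm (γ a) = (γ ^ m : K ≃ₐ[k] K).symm a := by
      rw [AlgEquiv.symm_apply_eq, pow_succ', AlgEquiv.mul_apply, AlgEquiv.apply_symm_apply]
    rw [h]
  fin a ha := hfin a ha

theorem plcK_ne {v : KVal k K} {r : v.ring →ₐ[k] κ}
    {hr : ∀ z, r z = 0 ↔ ((z : K) = 0 ∨ 0 < v.ord (z : K))} {a : K} (ha : a ≠ 0) (h : v.ord a = 0) :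
    ∃ b, b ≠ 0 ∧ (plcK v r hr).At a b := by
  have h1 : a ∈ v.ring := by
    rw [KVal.mem_ring, h]
  refine ⟨r ⟨a, h1⟩, ?_, h1, rfl⟩
  rw [Ne, hr]
  rintro (h2 | h2)
  · exact ha h2
  · change 0 < v.ord a at h2
    omega

end

section
variable {L : Type} [Field L] [Algebra ℂ L]

theorem dval_ord_one (ν : DVal L) : ν.ord 1 = 0 := by
  have := ν.ord_const 1
  rwa [map_one] at this

theorem dval_ord_inv (ν : DVal L) (x : L) : ν.ord x⁻¹ = - ν.ord x := by
  by_cases hx : x = 0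
  · simp [hx, ν.ord_zero]
  have h := ν.ord_mul x x⁻¹ hx (inv_ne_zero hx)
  rw [mul_inv_cancel₀ hx, dval_ord_one] at h
  omega

/-- The valuation ring of a prime divisor. -/
def dring (ν : DVal L) : ValuationSubring L where
  toSubring := ν.ring.toSubring
  mem_or_inv_mem' x := by
    rcases le_total 0 (ν.ord x) with h | h
    · exact Or.inl h
    · right
      change 0 ≤ ν.ord x⁻¹
      rw [dval_ord_inv]
      omega

/-- The place of a rational curve. -/
noncomputable def plcR (C : RC L) : Plc L (RatFunc ℂ) where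
  V := dring C.ν
  ψ :=
    { toFun := fun z => C.ψ z
      map_one' := by
        have h := C.const 1
        rw [map_one, map_one] at h
        exact h
      map_mul' := fun z w => C.mul z z.2 w w.2
      map_zero' := by
        have h := C.const 0
        rw [map_zero, map_zero] at h
        exact h
      map_add' := fun z w => C.add z z.2 w w.2 }
  loc := by
    intro a ha
    have h1 : ¬ ((a : L) = 0 ∨ 0 < C.ν.ord (a : L)) := fun h => ha ((C.zero_iff _ a.2).2 h)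
    push Not at h1
    have h0 : 0 ≤ C.ν.ord (a : L) := a.2
    have h2 : (a : L)⁻¹ ∈ dring C.ν := by
      change 0 ≤ C.ν.ord (a : L)⁻¹
      rw [dval_ord_inv]
      omega
    refine IsUnit.of_mul_eq_one ⟨(a : L)⁻¹, h2⟩ ?_
    exact Subtype.ext (mul_inv_cancel₀ h1.1)

theorem plcR_at {C : RC L} {a : L} {b : RatFunc ℂ} :
    (plcR C).At a b ↔ a ∈ C.ν.ring ∧ C.ψ a = b := by
  constructor
  · rintro ⟨h1, h2⟩
    exact ⟨h1, h2⟩
  · rintro ⟨h1, h2⟩
    exact ⟨h1, h2⟩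

theorem plcR_const (C : RC L) (c : ℂ) :
    (plcR C).At (algebraMap ℂ L c) (algebraMap ℂ (RatFunc ℂ) c) := by
  rw [plcR_at]
  exact ⟨Subalgebra.algebraMap_mem _ c, C.const c⟩

/-- The orbit of a rational curve. -/
theorem orbR (C : RC L) (Γ : L ≃ₐ[ℂ] L)
    (hfin : ∀ z : L, z ≠ 0 → ∃ m₀ : ℕ, ∀ m : ℕ, m₀ ≤ m → (LibK3.mv (Γ ^ m) C.ν).ord z = 0) :
    Orb (fun m => plcR (C.mv (Γ ^ m))) Γ where
  const m c := plcR_const _ c
  step m a b := by
    rw [plcR_at, plcR_at]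
    have h : (Γ ^ (m + 1) : L ≃ₐ[ℂ] L).symm (Γ a) = (Γ ^ m : L ≃ₐ[ℂ] L).symm a := by
      rw [AlgEquiv.symm_apply_eq, pow_succ', AlgEquiv.mul_apply, AlgEquiv.apply_symm_apply]
    change ((Γ ^ m : L ≃ₐ[ℂ] L).symm a ∈ C.ν.ring ∧ C.ψ ((Γ ^ m : L ≃ₐ[ℂ] L).symm a) = b) ↔
      ((Γ ^ (m + 1) : L ≃ₐ[ℂ] L).symm (Γ a) ∈ C.ν.ring ∧
        C.ψ ((Γ ^ (m + 1) : L ≃ₐ[ℂ] L).symm (Γ a)) = b)
    rw [h]
  fin a ha := by
    obtain ⟨m₀, hm₀⟩ := hfin a ha
    filter_upwards [eventually_ge_atTop m₀] with m hm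
    have h0 := hm₀ m hm
    have h1 : a ∈ (C.mv (Γ ^ m)).ν.ring := by
      change 0 ≤ (LibK3.mv (Γ ^ m) C.ν).ord a
      rw [h0]
    refine ⟨(C.mv (Γ ^ m)).ψ a, ?_, plcR_at.2 ⟨h1, rfl⟩⟩
    rw [Ne, (C.mv (Γ ^ m)).zero_iff a h1]
    rintro (h2 | h2)
    · exact ha h2
    · change 0 < (LibK3.mv (Γ ^ m) C.ν).ord a at h2
      omega

end

end Pool.Agent.LibHP.K3
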