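import Pool.Agent.LibK3M.Defs

/-! Row M10. If the minimal web `F0` splits over `K`, the directions are values of finitely many rational functions. `T := F0.roots.toFinset`. `F0 = ∏ (X - C t)` over the multiset `F0.roots`
(`Polynomial.Splits`-lemmas; monic). For large `m` all `t ∈ T` are regular at `P m` with values `t'`, so `F0` has the value `∏ (X - C t')` (`Plc.PAt.unique`, a lemma `PAt.multiset_prod` by induction) and
`F0'.eval (s m) = 0` gives `s m = t'` for some `t`. Alternatively by strong induction on the degree: a root `t ∈ K` of `F0` gives `F0 = (X - C t) * G`. (The hypothesis `hsplit` says that all roots in the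
algebraic closure lie in `K`; so every irreducible factor of `F0` has degree one.) -/

set_option autoImplicit false
open Polynomial Filter

namespace Pool.Agent.LibHP.K3

/-- Induction on the degree. -/
private theorem M10_ind {k K κ : Type} [Field k] [Field K] [Field κ] [Algebra k K] [Algebra k κ]
    {P : ℕ → Plc K κ} {γ : K ≃ₐ[k] K} (hP : Orb P γ) (s : ℕ → κ) (n : ℕ) :
    ∀ F0 : Polynomial K, F0.Monic → F0.natDegree = n →
    (∀ r : AlgebraicClosure K, aeval r F0 = 0 → ∃ a : K, algebraMap K _ a = r) →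
    ∃ T : Finset K, ∀ᶠ m in atTop, ∀ F' : Polynomial κ, (P m).PAt F0 F' → F'.eval (s m) = 0 →
      ∃ t ∈ T, (P m).At t (s m) := by
  classical
  induction n with
  | zero =>
    intro F0 hm hn _
    refine ⟨∅, Eventually.of_forall fun m F' hF' he => ?_⟩
    exfalso
    have h1 : F0 = 1 := eq_one_of_monic_natDegree_zero hm hn
    rw [h1] at hF'
    have h2 : F' = 1 := hF'.unique Plc.PAt.one
    rw [h2, eval_one] at he
    exact one_ne_zero he
  | succ n ih =>
    intro F0 hm hn hsp
    have hdeg : F0.degree ≠ 0 := by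
      rw [degree_eq_natDegree hm.ne_zero, hn]
      exact_mod_cast Nat.succ_ne_zero n
    obtain ⟨r, hr⟩ := IsAlgClosed.exists_aeval_eq_zero (AlgebraicClosure K) F0 hdeg
    obtain ⟨a, rfl⟩ := hsp r hr
    have hroot : F0.IsRoot a := by
      rw [aeval_algebraMap_apply] at hr
      have h1 := (map_eq_zero_iff _ (algebraMap K (AlgebraicClosure K)).injective).1 hr
      rw [coe_aeval_eq_eval] at h1
      exact h1
    obtain ⟨G, hG⟩ := dvd_iff_isRoot.2 hroot
    have hGm : G.Monic := by
      have h1 := hm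
      rw [hG] at h1
      exact (monic_X_sub_C a).of_mul_monic_left h1
    have hGn : G.natDegree = n := by
      have h1 := congrArg natDegree hG
      rw [(monic_X_sub_C a).natDegree_mul hGm, natDegree_X_sub_C, hn] at h1
      omega
    obtain ⟨T, hT⟩ := ih G hGm hGn fun r hr => hsp r (by rw [hG, map_mul, hr, mul_zero])
    refine ⟨insert a T, ?_⟩
    filter_upwards [hT, hP.reg a, hP.preg G] with m h1 ⟨b, hb⟩ ⟨G', hG'⟩ F' hF' he
    have h2 : (P m).PAt (X - C a) (X - C b) := by
      rw [sub_eq_add_neg, sub_eq_add_neg, ← C_neg, ← C_neg]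
      exact Plc.PAt.X.add (Plc.PAt.C hb.neg)
    have h3 := h2.mul hG'
    rw [← hG] at h3
    have h4 : F' = (X - C b) * G' := hF'.unique h3
    rw [h4, eval_mul, eval_sub, eval_X, eval_C] at he
    rcases mul_eq_zero.1 he with h5 | h5
    · refine ⟨a, Finset.mem_insert_self _ _, ?_⟩
      rw [sub_eq_zero.1 h5]
      exact hb
    · obtain ⟨t, ht, ht'⟩ := h1 G' hG' h5
      exact ⟨t, Finset.mem_insert_of_mem ht, ht'⟩

theorem slopes_of_split {k K κ : Type} [Field k] [Field K] [Field κ] [Algebra k K] [Algebra k κ]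
    {P : ℕ → Plc K κ} {γ : K ≃ₐ[k] K} (hP : Orb P γ) (s : ℕ → κ) (F0 : Polynomial K)
    (hm : F0.Monic) (hW : Web P s F0)
    (hsplit : ∀ r : AlgebraicClosure K, aeval r F0 = 0 → ∃ a : K, algebraMap K _ a = r) :
    ∃ T : Finset K, ∀ᶠ m in atTop, ∃ t ∈ T, (P m).At t (s m) := by
  obtain ⟨T, hT⟩ := M10_ind hP s F0.natDegree F0 hm rfl hsplit
  refine ⟨T, ?_⟩
  filter_upwards [hT, hW] with m h1 ⟨F', h2, h3⟩
  exact h1 F' h2 h3

end Pool.Agent.LibHP.K3
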