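import Pool.Agent.LibK3M.Defs

/-! Row M3. The minimal web. The polynomials `G` with `Web P s G` form an ideal of `K[X]`: sums (`Plc.PAt.add`), products with any `H` (`hP.preg H`, `Plc.PAt.mul`, `eval_mul`), `0`. It is principal
(`IsPrincipalIdealRing`), nonzero (`F`), take the generator made monic (multiply by the constant `C (leadingCoeff)⁻¹`). Last clause: let `G` be irreducible, `F0 = G * H`. If not frequently
then for all large `m` no `G'` with `(P m).PAt G G'` has `G'.eval (s m) = 0` (`Filter.not_frequently`); with `hP.preg G`, `hP.preg H` and `Plc.PAt.unique`: `F0' = G' H'`, so `H'.eval (s m) = 0`: `Web P s H`, so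
`F0 ∣ H`, `H ≠ 0`, and `natDegree H < natDegree F0` (`G` has positive degree), a contradiction. -/

set_option autoImplicit false
open Polynomial Filter

namespace Pool.Agent.LibHP.K3

theorem web_min {k K κ : Type} [Field k] [Field K] [Field κ] [Algebra k K] [Algebra k κ]
    {P : ℕ → Plc K κ} {γ : K ≃ₐ[k] K} (hP : Orb P γ) (s : ℕ → κ) (F : Polynomial K) (hF : F ≠ 0)
    (h : Web P s F) :
    ∃ F0 : Polynomial K, F0.Monic ∧ Web P s F0 ∧ (∀ G, Web P s G → F0 ∣ G) ∧
      ∀ G : Polynomial K, Irreducible G → G ∣ F0 →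
        ∃ᶠ m in atTop, ∃ G' : Polynomial κ, (P m).PAt G G' ∧ G'.eval (s m) = 0 := by
  have hadd : ∀ {G H : Polynomial K}, Web P s G → Web P s H → Web P s (G + H) := by
    intro G H hG hH
    filter_upwards [hG, hH] with m ⟨G', h1, h2⟩ ⟨H', h3, h4⟩
    exact ⟨G' + H', h1.add h3, by rw [eval_add, h2, h4, add_zero]⟩
  have hzero : Web P s (0 : Polynomial K) := by
    refine Eventually.of_forall fun m => ⟨0, ?_, eval_zero⟩
    intro i
    rw [coeff_zero, coeff_zero]
    exact Plc.At.zero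
  have hmul : ∀ (H : Polynomial K) {G : Polynomial K}, Web P s G → Web P s (H * G) := by
    intro H G hG
    filter_upwards [hG, hP.preg H] with m ⟨G', h1, h2⟩ ⟨H', h3⟩
    exact ⟨H' * G', h3.mul h1, by rw [eval_mul, h2, mul_zero]⟩
  obtain ⟨I, hI⟩ : ∃ I : Ideal (Polynomial K), ∀ G, G ∈ I ↔ Web P s G :=
    ⟨{ carrier := {G | Web P s G}
       add_mem' := fun ha hb => hadd ha hb
       zero_mem' := hzero
       smul_mem' := fun c _ hx => hmul c hx }, fun G => Iff.rfl⟩
  obtain ⟨g, hg⟩ := (IsPrincipalIdealRing.principal I).principal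
  have hgI : ∀ G, Web P s G ↔ g ∣ G := by
    intro G
    rw [← hI G, hg]
    exact Ideal.mem_span_singleton
  have hg0 : g ≠ 0 := by
    intro h0
    have h1 := (hgI F).1 h
    rw [h0, zero_dvd_iff] at h1
    exact hF h1
  have hlc : g.leadingCoeff⁻¹ ≠ 0 := inv_ne_zero (leadingCoeff_ne_zero.2 hg0)
  have hmon : (g * C g.leadingCoeff⁻¹).Monic := monic_mul_leadingCoeff_inv hg0
  have hunit : IsUnit (C g.leadingCoeff⁻¹ : Polynomial K) := isUnit_C.2 hlc.isUnit
  have hweb : ∀ G, Web P s G ↔ g * C g.leadingCoeff⁻¹ ∣ G := fun G =>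
    (hgI G).trans (hunit.mul_right_dvd).symm
  refine ⟨g * C g.leadingCoeff⁻¹, hmon, (hweb _).2 dvd_rfl, fun G hG => (hweb G).1 hG, ?_⟩
  intro G hG hGd
  obtain ⟨H, hH⟩ := hGd
  by_contra hcon
  rw [Filter.not_frequently] at hcon
  have hF0 : Web P s (g * C g.leadingCoeff⁻¹) := (hweb _).2 dvd_rfl
  have hWH : Web P s H := by
    filter_upwards [hcon, hF0, hP.preg G, hP.preg H] with m h1 ⟨F', h2, h3⟩ ⟨G', h4⟩ ⟨H', h5⟩
    refine ⟨H', h5, ?_⟩
    rw [hH] at h2
    have h6 : F' = G' * H' := h2.unique (h4.mul h5)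
    rw [h6, eval_mul] at h3
    rcases mul_eq_zero.1 h3 with h7 | h7
    · exact absurd ⟨G', h4, h7⟩ h1
    · exact h7
  have hd : G * H ∣ H := by
    rw [← hH]
    exact (hweb H).1 hWH
  have hH0 : H ≠ 0 := by
    intro h0
    rw [h0, mul_zero] at hH
    exact hmon.ne_zero hH
  obtain ⟨r, hr⟩ := hd
  have h1 : H * 1 = H * (G * r) := by
    rw [mul_one]
    calc H = G * H * r := hr
      _ = H * (G * r) := by ring
  exact hG.not_isUnit (IsUnit.of_mul_eq_one r (mul_left_cancel₀ hH0 h1).symm)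

end Pool.Agent.LibHP.K3
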