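import Pool.Agent.LibK3M.M2

/-! Row M4. The transform of a web by `γ` is a web. By `chain hP hd δ (γ x)` and `chain hP hd δ (γ y)` (applied at `m + 1`: `Filter.tendsto_add_atTop_nat 1` / `eventually_atTop` with a bound)
and `hs` at `m` and at `m + 1`: `Dir (P m) δ x y (s m)` gives values `u, v` of `x, y` at `P m`, `δ u ≠ 0`, `δ v = s m δ u`; by `hP.step` these are the values of `γ x`, `γ y` at `P (m+1)`. With
`A, B, A', B'` the values at `P (m+1)` of `dx (γ x)`, `dy (γ x)`, `dx (γ y)`, `dy (γ y)` and `t := s (m+1)`, `x'` the value of `x` at `P (m+1)`: `δ u = (A + B t) δ x'`, `δ v = (A' + B' t) δ x'`.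
So `s m * (A + B t) = A' + B' t` (cancel `δ x' ≠ 0`, which follows from `δ u ≠ 0`). The value of `TT … F` at `P (m+1)` is `∑ a_i (A + B X)^(n-i) (A' + B' X)^i`, `a_i` = value of `γ (F.coeff i)` at `P (m+1)` = value of
`F.coeff i` at `P m` (`hP.step`) (`Plc.PAt.mul`, `PAt.pow`, a lemma `PAt.sum`); evaluated at `t`: `∑ a_i (A + B t)^(n-i) (s m (A + B t))^i = (A + B t)^n ∑ a_i (s m)^i = (A + B t)^n F'(s m) = 0`
(`i ≤ n`; `F'.eval = ∑_{i < n+1} F'.coeff i (s m)^i`: the coefficients of `F` beyond `n` vanish, hence those of `F'`). The conclusion is about all large indices `m + 1`. -/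

set_option autoImplicit false
open Polynomial Filter

namespace Pool.Agent.LibHP.K3

private theorem M4_sum {K κ : Type} [Field K] [Field κ] {P : Plc K κ} (s : Finset ℕ)
    {f : ℕ → Polynomial K} {f' : ℕ → Polynomial κ} (h : ∀ i ∈ s, P.PAt (f i) (f' i)) :
    P.PAt (∑ i ∈ s, f i) (∑ i ∈ s, f' i) := by
  intro j
  rw [finsetSum_coeff, finsetSum_coeff]
  exact Plc.At.sum _ fun i hi => h i hi j

theorem web_TT {k K κ : Type} [Field k] [CharZero k] [Field K] [Field κ] [Algebra k K] [Algebra k κ]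
    {P : ℕ → Plc K κ} {γ : K ≃ₐ[k] K} (hP : Orb P γ) {dx dy : Derivation k K K} {x y : K}
    (hd : IsPartial dx dy x y) (δ : Derivation k κ κ) (s : ℕ → κ)
    (hs : ∀ᶠ m in atTop, Dir (P m) δ x y (s m)) (F : Polynomial K) (n : ℕ)
    (hn : F.natDegree ≤ n) (hF : Web P s F) : Web P s (TT γ dx dy x y n F) := by
  unfold Web
  rw [← Filter.map_add_atTop_eq_nat 1, eventually_map]
  have hshift : Tendsto (fun m : ℕ => m + 1) atTop atTop := tendsto_add_atTop_nat 1
  filter_upwards [hs, hshift.eventually hs, hshift.eventually (chain hP hd δ (γ x)),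
    hshift.eventually (chain hP hd δ (γ y)), hF] with m hm hm1 hcx hcy hFm
  obtain ⟨u, v, hu, hv, hδu, hδv⟩ := hm
  obtain ⟨w1, A, B, x1, hw1, hA, hB, hx1, e1⟩ := hcx _ hm1
  obtain ⟨w2, A', B', x2, hw2, hA', hB', hx2, e2⟩ := hcy _ hm1
  obtain ⟨F', hF', hF0⟩ := hFm
  have hxx : x2 = x1 := Plc.At.unique hx2 hx1
  have hu1 : w1 = u := Plc.At.unique hw1 ((hP.step m x u).1 hu)
  have hv1 : w2 = v := Plc.At.unique hw2 ((hP.step m y v).1 hv)
  subst hxx hu1 hv1
  have hx0 : δ x2 ≠ 0 := by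
    intro h0
    rw [h0, mul_zero] at e1
    exact hδu e1
  have key : A' + B' * s (m + 1) = s m * (A + B * s (m + 1)) := by
    have h1 : (A' + B' * s (m + 1)) * δ x2 = (s m * (A + B * s (m + 1))) * δ x2 := by
      rw [← e2, hδv, e1]
      ring
    exact mul_right_cancel₀ hx0 h1
  refine ⟨∑ i ∈ Finset.range (n + 1), C (F'.coeff i) *
    (C A + C B * X) ^ (n - i) * (C A' + C B' * X) ^ i, ?_, ?_⟩
  · unfold TT
    refine M4_sum _ fun i _ => ?_
    have h1 : (P (m + 1)).At (γ (F.coeff i)) (F'.coeff i) := (hP.step m _ _).1 (hF' i)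
    exact ((Plc.PAt.C h1).mul ((Plc.PAt.C hA).add ((Plc.PAt.C hB).mul Plc.PAt.X) |>.pow _)).mul
      (((Plc.PAt.C hA').add ((Plc.PAt.C hB').mul Plc.PAt.X)).pow _)
  · have hdeg : F'.natDegree < n + 1 := by
      rw [Nat.lt_succ_iff, natDegree_le_iff_coeff_eq_zero]
      intro N hN
      have h1 := hF' N
      rw [coeff_eq_zero_of_natDegree_lt (lt_of_le_of_lt hn hN)] at h1
      exact Plc.At.unique h1 Plc.At.zero
    rw [eval_eq_sum_range' hdeg] at hF0
    rw [eval_finsetSum]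
    have h2 : ∀ i ∈ Finset.range (n + 1), eval (s (m + 1)) (C (F'.coeff i) *
        (C A + C B * X) ^ (n - i) * (C A' + C B' * X) ^ i) =
        (A + B * s (m + 1)) ^ n * (F'.coeff i * s m ^ i) := by
      intro i hi
      have hi' : i ≤ n := Nat.lt_succ_iff.1 (Finset.mem_range.1 hi)
      simp only [eval_mul, eval_pow, eval_add, eval_C, eval_X]
      rw [key, mul_pow]
      have h3 : (A + B * s (m + 1)) ^ n =
          (A + B * s (m + 1)) ^ (n - i) * (A + B * s (m + 1)) ^ i := by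
        rw [← pow_add, Nat.sub_add_cancel hi']
      rw [h3]
      ring
    rw [Finset.sum_congr rfl h2, ← Finset.mul_sum, hF0, mul_zero]

end Pool.Agent.LibHP.K3
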