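import Pool.Agent.LibK3M.Defs

/-! Row M5. The fields generated by the roots of the minimal web are permuted by `γ`. -/

set_option autoImplicit false
open Polynomial Filter IntermediateField

namespace Pool.Agent.LibHP.K3

private theorem M5_map {K : Type} [Field K] (σ : AlgebraicClosure K ≃+* AlgebraicClosure K)
    (γ : K ≃+* K) (hσ : ∀ a, σ (algebraMap K _ a) = algebraMap K _ (γ a))
    {r1 t : AlgebraicClosure K} (h : σ r1 = t) {z : AlgebraicClosure K} (hz : z ∈ K⟮r1⟯) :
    σ z ∈ K⟮t⟯ := by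
  induction hz using IntermediateField.adjoin_induction with
  | mem x hx =>
    rw [Set.mem_singleton_iff] at hx
    rw [hx, h]
    exact IntermediateField.mem_adjoin_simple_self K t
  | algebraMap x =>
    rw [hσ]
    exact K⟮t⟯.algebraMap_mem _
  | add x y hx hy h1 h2 =>
    rw [map_add]
    exact add_mem h1 h2
  | inv x hx h1 =>
    rw [map_inv₀]
    exact inv_mem h1
  | mul x y hx hy h1 h2 =>
    rw [map_mul]
    exact mul_mem h1 h2

theorem roots_TT {k K : Type} [Field k] [Field K] [Algebra k K] (γ : K ≃ₐ[k] K) (A B A' B' : K)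
    (hJ : A * B' - B * A' ≠ 0) (F0 : Polynomial K) (hm : F0.Monic)
    (hdiv : F0 ∣ ∑ i ∈ Finset.range (F0.natDegree + 1), C (γ (F0.coeff i)) *
      (C A + C B * X) ^ (F0.natDegree - i) * (C A' + C B' * X) ^ i)
    (r : AlgebraicClosure K) (hr : aeval r F0 = 0) :
    ∃ r1 : AlgebraicClosure K, aeval r1 F0 = 0 ∧
      ∃ e : K⟮r1⟯ ≃+* K⟮r⟯, ∀ a : K, e (algebraMap K K⟮r1⟯ a) = algebraMap K K⟮r⟯ (γ a) := by
  let σ : (AlgebraicClosure K) ≃+* (AlgebraicClosure K) := IsAlgClosure.equivOfEquiv (AlgebraicClosure K) (AlgebraicClosure K) (γ : K ≃+* K)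
  have hσ : ∀ a : K, σ (algebraMap K (AlgebraicClosure K) a) = algebraMap K (AlgebraicClosure K) (γ a) := fun a =>
    IsAlgClosure.equivOfEquiv_algebraMap (AlgebraicClosure K) (AlgebraicClosure K) (γ : K ≃+* K) a
  have hσ' : ∀ a : K, σ.symm (algebraMap K (AlgebraicClosure K) a) = algebraMap K (AlgebraicClosure K) (γ.symm a) := by
    intro a
    rw [RingEquiv.symm_apply_eq, hσ, AlgEquiv.apply_symm_apply]
  set ι := algebraMap K (AlgebraicClosure K) with hι
  have hsum : ∑ i ∈ Finset.range (F0.natDegree + 1), ι (γ (F0.coeff i)) *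
      (ι A + ι B * r) ^ (F0.natDegree - i) * (ι A' + ι B' * r) ^ i = 0 := by
    obtain ⟨Q, hQ⟩ := hdiv
    have h1 := congrArg (aeval r) hQ
    rw [map_mul, hr, zero_mul, map_sum] at h1
    rw [← h1]
    refine Finset.sum_congr rfl fun i _ => ?_
    simp only [map_mul, map_pow, map_add, aeval_C, aeval_X]
    rfl
  have hlc : γ (F0.coeff F0.natDegree) = 1 := by
    rw [hm.coeff_natDegree, map_one]
  have hdeg : F0.natDegree ≠ 0 := by
    intro h0
    have h1 : F0 = 1 := by
      rw [Polynomial.eq_C_of_natDegree_eq_zero h0]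
      have h2 := hm.coeff_natDegree
      rw [h0] at h2
      rw [h2, map_one]
    rw [h1, map_one] at hr
    exact one_ne_zero hr
  have hJ' : ι A * ι B' - ι B * ι A' ≠ 0 := by
    rw [← map_mul, ← map_mul, ← map_sub]
    exact fun h => hJ ((map_eq_zero ι).1 h)
  have hne : ι A + ι B * r ≠ 0 := by
    intro h0
    rw [h0, Finset.sum_eq_single F0.natDegree] at hsum
    · rw [Nat.sub_self, pow_zero, hlc, map_one, one_mul, one_mul] at hsum
      have h1 := pow_eq_zero_iff hdeg |>.1 hsum
      apply hJ'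
      linear_combination ι B' * h0 - ι B * h1
    · intro i hi hi'
      rw [Finset.mem_range] at hi
      rw [zero_pow (by omega), mul_zero, zero_mul]
    · intro h1
      exact absurd (Finset.mem_range.2 (Nat.lt_succ_self _)) h1
  obtain ⟨t, ht⟩ : ∃ t : AlgebraicClosure K, t = (ι A' + ι B' * r) / (ι A + ι B * r) := ⟨_, rfl⟩
  have ht1 : t * (ι A + ι B * r) = ι A' + ι B' * r := by
    rw [ht, div_mul_cancel₀ _ hne]
  have htsum : ∑ i ∈ Finset.range (F0.natDegree + 1), ι (γ (F0.coeff i)) * t ^ i = 0 := by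
    have h1 : (∑ i ∈ Finset.range (F0.natDegree + 1), ι (γ (F0.coeff i)) * t ^ i) *
        (ι A + ι B * r) ^ F0.natDegree = 0 := by
      rw [← hsum, Finset.sum_mul]
      refine Finset.sum_congr rfl fun i hi => ?_
      have hi' : i ≤ F0.natDegree := Nat.lt_succ_iff.1 (Finset.mem_range.1 hi)
      rw [← ht1, mul_pow]
      have h2 : (ι A + ι B * r) ^ F0.natDegree =
          (ι A + ι B * r) ^ (F0.natDegree - i) * (ι A + ι B * r) ^ i := by
        rw [← pow_add, Nat.sub_add_cancel hi']
      rw [h2]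
      ring
    exact (mul_eq_zero.1 h1).resolve_right (pow_ne_zero _ hne)
  obtain ⟨r1, hr1⟩ : ∃ r1 : AlgebraicClosure K, r1 = σ.symm t := ⟨_, rfl⟩
  have hσr1 : σ r1 = t := by rw [hr1, RingEquiv.apply_symm_apply]
  refine ⟨r1, ?_, ?_⟩
  · have h1 : σ (aeval r1 F0) = 0 := by
      rw [aeval_eq_sum_range, map_sum, ← htsum]
      refine Finset.sum_congr rfl fun i _ => ?_
      rw [Algebra.smul_def, map_mul, map_pow, hσr1, hσ]
    exact (map_eq_zero_iff σ σ.injective).1 h1
  · -- the two fields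
    have hden : ι B' - t * ι B ≠ 0 := by
      intro h0
      apply hJ'
      have h1 : t * ι A = ι A' := by linear_combination ht1 + r * h0
      linear_combination ι A * h0 + ι B * h1
    have hrt : r = (t * ι A - ι A') / (ι B' - t * ι B) := by
      rw [eq_div_iff hden]
      linear_combination (-1 : (AlgebraicClosure K)) * ht1
    have hA : ∀ (E : IntermediateField K (AlgebraicClosure K)) (a : K), ι a ∈ E := fun E a => E.algebraMap_mem a
    have htr : t ∈ K⟮r⟯ := by
      have h1 : r ∈ K⟮r⟯ := IntermediateField.mem_adjoin_simple_self K r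
      rw [ht]
      exact div_mem (add_mem (hA _ _) (mul_mem (hA _ _) h1)) (add_mem (hA _ _) (mul_mem (hA _ _) h1))
    have hrt' : r ∈ K⟮t⟯ := by
      have h1 : t ∈ K⟮t⟯ := IntermediateField.mem_adjoin_simple_self K t
      rw [hrt]
      exact div_mem (sub_mem (mul_mem h1 (hA _ _)) (hA _ _)) (sub_mem (hA _ _) (mul_mem h1 (hA _ _)))
    have heq : K⟮t⟯ = K⟮r⟯ := by
      refine le_antisymm ?_ ?_
      · rw [IntermediateField.adjoin_simple_le_iff]
        exact htr
      · rw [IntermediateField.adjoin_simple_le_iff]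
        exact hrt'
    have m1 : ∀ z ∈ K⟮r1⟯, σ z ∈ K⟮r⟯ := by
      intro z hz
      rw [← heq]
      exact M5_map σ (γ : K ≃+* K) hσ hσr1 hz
    have m2 : ∀ z ∈ K⟮r⟯, σ.symm z ∈ K⟮r1⟯ := by
      intro z hz
      rw [← heq] at hz
      exact M5_map σ.symm (γ.symm : K ≃+* K) hσ' hr1.symm hz
    refine ⟨{ toFun := fun z => ⟨σ z, m1 _ z.2⟩
              invFun := fun z => ⟨σ.symm z, m2 _ z.2⟩
              left_inv := fun z => Subtype.ext (σ.symm_apply_apply _)
              right_inv := fun z => Subtype.ext (σ.apply_symm_apply _)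
              map_mul' := fun a b => Subtype.ext (map_mul σ _ _)
              map_add' := fun a b => Subtype.ext (map_add σ _ _) }, fun a => ?_⟩
    exact Subtype.ext (hσ a)

end Pool.Agent.LibHP.K3
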