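import Pool.Agent.LibK3M.M6
import Pool.Agent.LibHPF.P10

/-! Row M7. No ramification at codimension one points. Say `x` (of codimension one) is bad if for some root `r` (in `AlgebraicClosure K`) of `F0` the extension `K⟮r⟯` is not `PresAt` at `x`. The set of bad points is
finite: finite union (`F0 ≠ 0` has finitely many roots: `F0.aroots`, `Polynomial.rootSet_finite`) of `finite_not_presAt f K⟮r⟯` (LibHPF/P10; `FiniteDimensional K K⟮r⟯`:
`IntermediateField.adjoin.finiteDimensional`). If `x` is bad then `g.inv x` is bad: suppose not; for a root `r` choose `r1`, `e` by `hperm`; `K⟮r1⟯` is `PresAt` at `g.inv x` (codimension one too: the stalks at `x` and `g.inv x`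
are isomorphic), and `presAt_transport g.inv` gives `PresAt` of `K⟮r⟯` at `x`. So if there is a bad `x` all `g.inv ^ n x` are bad (`Nat.iterate`), by pigeonhole (`Set.Finite`, not injective on `ℕ`)
`g.inv^[i] x = g.inv^[j] x`, `i < j`; `g.inv` is injective, so `g.inv^[j-i] x = x`: contradiction to `hper`. -/

set_option autoImplicit false
open AlgebraicGeometry CategoryTheory Polynomial IntermediateField

namespace Pool.Agent.LibHP.K3

open Pool.Agent.LibHP

private theorem M7_dim {X : Scheme} (h : X ⟶ X) [IsIso h] (x : X)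
    (hx : ringKrullDim (X.presheaf.stalk x) = 1) :
    ringKrullDim (X.presheaf.stalk (h x)) = 1 := by
  rw [← hx]
  exact ringKrullDim_eq_of_ringEquiv (asIso (h.stalkMap x)).commRingCatIsoToRingEquiv

private theorem M7_periodic {Y : Type} (φ : Y → Y) (hφ : Function.Injective φ) (B : Set Y)
    (hB : B.Finite) (hst : ∀ x ∈ B, φ x ∈ B) (x : Y) (hx : x ∈ B) :
    ∃ n : ℕ, 0 < n ∧ φ^[n] x = x := by
  have h1 : ∀ n : ℕ, φ^[n] x ∈ B := by
    intro n
    induction n with
    | zero => exact hx
    | succ n ih =>
      rw [Function.iterate_succ_apply']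
      exact hst _ ih
  have hfin : Finite B := hB
  obtain ⟨i, j, hij, he⟩ := Finite.exists_ne_map_eq_of_infinite
    (fun n : ℕ => (⟨φ^[n] x, h1 n⟩ : B))
  have he1 : φ^[i] x = φ^[j] x := congrArg Subtype.val he
  rcases Nat.lt_or_gt_of_ne hij with h | h
  · exact ⟨j - i, Nat.sub_pos_of_lt h, Function.iterate_cancel hφ he1.symm⟩
  · exact ⟨i - j, Nat.sub_pos_of_lt h, Function.iterate_cancel hφ he1⟩

theorem presAt_of_not_per {k : Type} [Field k] [CharZero k] {X : Scheme}
    (f : X ⟶ Spec (CommRingCat.of k)) [IsIntegral X] [Smooth f] [QuasiCompact f] (g : X ≅ X)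
    (F0 : Polynomial X.functionField) (hF0 : F0 ≠ 0)
    (hperm : ∀ r : AlgebraicClosure X.functionField, aeval r F0 = 0 →
      ∃ r1 : AlgebraicClosure X.functionField, aeval r1 F0 = 0 ∧
        ∃ e : X.functionField⟮r1⟯ ≃+* X.functionField⟮r⟯, ∀ a : X.functionField,
          e (algebraMap X.functionField X.functionField⟮r1⟯ a) =
            algebraMap X.functionField X.functionField⟮r⟯ (kap g.inv a))
    (r : AlgebraicClosure X.functionField) (hr : aeval r F0 = 0) (x : X)
    (hx : ringKrullDim (X.presheaf.stalk x) = 1)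
    (hper : ∀ n : ℕ, 0 < n → (fun z : X => g.inv z)^[n] x ≠ x) :
    PresAt (algebraMap X.functionField X.functionField⟮r⟯) x := by
  by_contra hcon
  have hfin : {y : X | ringKrullDim (X.presheaf.stalk y) = 1 ∧
      ∃ s : AlgebraicClosure X.functionField, aeval s F0 = 0 ∧
        ¬ PresAt (algebraMap X.functionField X.functionField⟮s⟯) y}.Finite := by
    refine (Set.Finite.biUnion (Polynomial.rootSet_finite F0 (AlgebraicClosure X.functionField))
      (t := fun s => {y : X | ringKrullDim (X.presheaf.stalk y) = 1 ∧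
        ¬ PresAt (algebraMap X.functionField X.functionField⟮s⟯) y}) fun s _ => ?_).subset ?_
    · have hs : IsIntegral X.functionField s := Algebra.IsIntegral.isIntegral s
      have : FiniteDimensional X.functionField X.functionField⟮s⟯ :=
        IntermediateField.adjoin.finiteDimensional hs
      exact finite_not_presAt f X.functionField⟮s⟯
    · rintro y ⟨hy, s, hs, hp⟩
      exact Set.mem_biUnion ((Polynomial.mem_rootSet).2 ⟨hF0, hs⟩) ⟨hy, hp⟩
  obtain ⟨n, hn, he⟩ : ∃ n : ℕ, 0 < n ∧ (fun z : X => g.inv z)^[n] x = x := by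
    refine M7_periodic (fun z : X => g.inv z) g.inv.isOpenEmbedding.injective _ hfin ?_ x
      ⟨hx, r, hr, hcon⟩
    rintro y ⟨hy, s, hs, hp⟩
    obtain ⟨s1, hs1, e, he⟩ := hperm s hs
    exact ⟨M7_dim g.inv y hy, s1, hs1, fun hpr => hp (presAt_transport g.inv _ _ e he y hpr)⟩
  exact hper n hn he

end Pool.Agent.LibHP.K3
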