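import Pool.Agent.LibK3M.Defs

/-! Row M8. The field `k` is algebraically closed in the field generated by a root `r` of a polynomial `G` which has, at infinitely many of the places, a root in `κ`. Let `α : L` be algebraic over `k`,
`h0 := minpoly k α` (irreducible), `α = aeval r A`. `aeval r ((h0.map (algebraMap k K)).comp A) = 0` (it is `h0(α)`), so it is `G * Q`. Take `m` in the frequent set for which also `A`, `Q` are regular
(`hP.preg`, `Filter.Frequently.and_eventually`): `G'(s m) = 0` so `(h0.map (algebraMap k κ)).eval (A'.eval (s m)) = 0` (value of the composition: `h0.map` is regular with value `h0.map (algebraMap k κ)` by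
`hP.const`; a lemma `PAt.comp`, or write the composition as a sum of `C (h0.coeff i) * A^i`). So `b := A'.eval (s m)` is algebraic over `k`, `b = algebraMap k κ c` (`hκ`), so `h0.eval c = 0`
(injectivity), `h0` is irreducible and monic with a root: `h0 = X - C c` (`Polynomial.degree_eq_one_of_irreducible_of_root`), so `α = algebraMap c`. -/

set_option autoImplicit false
open Polynomial Filter

namespace Pool.Agent.LibHP.K3

private theorem m8_comp {k K κ : Type} [Field k] [Field K] [Field κ] [Algebra k K] [Algebra k κ]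
    {P : Plc K κ} (hc : ∀ c : k, P.At (algebraMap k K c) (algebraMap k κ c))
    {A : Polynomial K} {A' : Polynomial κ} (hA : P.PAt A A') (p : Polynomial k) :
    P.PAt ((p.map (algebraMap k K)).comp A) ((p.map (algebraMap k κ)).comp A') := by
  induction p using Polynomial.induction_on' with
  | add p q hp hq =>
    rw [Polynomial.map_add, Polynomial.map_add, add_comp, add_comp]
    exact hp.add hq
  | monomial n a =>
    rw [map_monomial, map_monomial, monomial_comp, monomial_comp]
    exact (Plc.PAt.C (hc a)).mul (hA.pow n)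

theorem const_of_place {k K κ : Type} [Field k] [Field K] [Field κ] [Algebra k K] [Algebra k κ]
    (hκ : ∀ b : κ, IsAlgebraic k b → ∃ c : k, algebraMap k κ c = b)
    {P : ℕ → Plc K κ} {γ : K ≃ₐ[k] K} (hP : Orb P γ) (s : ℕ → κ) (G : Polynomial K)
    (hfr : ∃ᶠ m in atTop, ∃ G' : Polynomial κ, (P m).PAt G G' ∧ G'.eval (s m) = 0)
    (L : Type) [Field L] [Algebra k L] [Algebra K L] [IsScalarTower k K L] (r : L)
    (hr : ∀ A : Polynomial K, aeval r A = 0 ↔ G ∣ A)
    (hgen : ∀ α : L, ∃ A : Polynomial K, aeval r A = α) (α : L) (hα : IsAlgebraic k α) :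
    ∃ c : k, algebraMap k L c = α := by
  have hint : IsIntegral k α := hα.isIntegral
  have hirr : Irreducible (minpoly k α) := minpoly.irreducible hint
  obtain ⟨A, hA⟩ := hgen α
  have h1 : aeval r (((minpoly k α).map (algebraMap k K)).comp A) = 0 := by
    rw [aeval_comp, hA, aeval_map_algebraMap, minpoly.aeval]
  obtain ⟨Q, hQ⟩ := (hr _).1 h1
  obtain ⟨m, ⟨G', hG', hG0⟩, ⟨A', hA'⟩, ⟨Q', hQ'⟩⟩ :=
    (hfr.and_eventually ((hP.preg A).and (hP.preg Q))).exists
  have h2 := m8_comp (hP.const m) hA' (minpoly k α)
  rw [hQ] at h2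
  have h3 := (hG'.mul hQ').unique h2
  have h4 : ((minpoly k α).map (algebraMap k κ)).eval (A'.eval (s m)) = 0 := by
    rw [← eval_comp, ← h3, eval_mul, hG0, zero_mul]
  rw [eval_map_algebraMap] at h4
  obtain ⟨c, hc⟩ := hκ (A'.eval (s m)) ⟨minpoly k α, hirr.ne_zero, h4⟩
  rw [← hc, aeval_algebraMap_apply] at h4
  have h5 : aeval c (minpoly k α) = 0 := by
    apply (algebraMap k κ).injective
    rw [h4, map_zero]
  have h6 : (minpoly k α).IsRoot c := by
    rw [IsRoot, ← coe_aeval_eq_eval]
    exact h5
  have h7 := degree_eq_one_of_irreducible_of_root hirr h6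
  exact minpoly.mem_range_of_degree_eq_one k α h7

end Pool.Agent.LibHP.K3
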