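import Pool.Agent.LibK3M.M1b
import Pool.Agent.LibK3M.M3
import Pool.Agent.LibK3M.M4
import Pool.Agent.LibK3M.M5
import Pool.Agent.LibK3M.M7
import Pool.Agent.LibK3M.M8
import Pool.Agent.LibK3M.M10
import Pool.Agent.LibK3M.R1

/-! Row M9. If the curves `C_m` satisfy a web over `k(X)`, their directions are values of finitely many
rational functions. The roots of the minimal web `F0` generate extensions of `K` which are permuted by the
automorphism, so they are unramified at codimension one points, hence constant extensions; a root of `F0`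
in `κ` at infinitely many places excludes new constants. So `F0` splits over `K`. -/

set_option autoImplicit false
open AlgebraicGeometry CategoryTheory Polynomial Filter IntermediateField

namespace Pool.Agent.LibHP.K3

open Pool.Agent.LibHP

theorem root_mem {k : Type} [Field k] [CharZero k] {X : Scheme}
    (f : X ⟶ Spec (CommRingCat.of k)) [IsIntegral X] [Smooth f] [IsSeparated f] [QuasiCompact f]
    (U : X.Opens) [Nonempty U] (hU : GeomSimplyConnected (U.ι ≫ f)) [Algebra k X.functionField]
    (halg : ∀ c : k, algebraMap k X.functionField c = toStalk f (genericPoint X) c)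
    {κ : Type} [Field κ] [Algebra k κ]
    (hκ : ∀ b : κ, IsAlgebraic k b → ∃ c : k, algebraMap k κ c = b)
    {P : ℕ → Plc X.functionField κ} {γ : X.functionField ≃ₐ[k] X.functionField} (hP : Orb P γ)
    (s : ℕ → κ) (F0 : Polynomial X.functionField)
    (hfr : ∀ G : Polynomial X.functionField, Irreducible G → G ∣ F0 →
        ∃ᶠ m in atTop, ∃ G' : Polynomial κ, (P m).PAt G G' ∧ G'.eval (s m) = 0)
    (r : AlgebraicClosure X.functionField) (hr : aeval r F0 = 0)
    (hpres : ∀ x ∈ U, ringKrullDim (X.presheaf.stalk x) = 1 →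
      PresAt (algebraMap X.functionField X.functionField⟮r⟯) x) :
    ∃ a : X.functionField, algebraMap X.functionField _ a = r := by
  by_contra hcon
  have hint : IsIntegral X.functionField r := Algebra.IsIntegral.isIntegral r
  haveI : FiniteDimensional X.functionField X.functionField⟮r⟯ := adjoin.finiteDimensional hint
  have h2 : 2 ≤ Module.finrank X.functionField X.functionField⟮r⟯ := by
    have h1 : 0 < Module.finrank X.functionField X.functionField⟮r⟯ := Module.finrank_pos
    have h3 : Module.finrank X.functionField X.functionField⟮r⟯ ≠ 1 := by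
      intro h
      rw [IntermediateField.finrank_eq_one_iff, adjoin_simple_eq_bot_iff,
        IntermediateField.mem_bot] at h
      exact hcon h
    omega
  obtain ⟨α, ⟨h, hh, hev⟩, hα⟩ := exists_const_open f U hU X.functionField⟮r⟯ h2 hpres
  have hG : Irreducible (minpoly X.functionField r) := minpoly.irreducible hint
  have hGdvd : minpoly X.functionField r ∣ F0 := minpoly.dvd _ _ hr
  have htower : ∀ c : k, algebraMap k X.functionField⟮r⟯ c =
      algebraMap X.functionField X.functionField⟮r⟯ (toStalk f (genericPoint X) c) := by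
    intro c
    rw [← halg, ← IsScalarTower.algebraMap_apply]
  have hαalg : IsAlgebraic k α := by
    refine ⟨h, hh, ?_⟩
    rw [aeval_def, ← hev]
    congr 1
    ext c
    rw [htower]
    rfl
  obtain ⟨c, hc⟩ := const_of_place hκ hP s (minpoly X.functionField r) (hfr _ hG hGdvd)
    X.functionField⟮r⟯ (AdjoinSimple.gen X.functionField r)
    (fun A => by
      rw [← minpoly_gen X.functionField r]
      exact minpoly.dvd_iff.symm)
    (fun β => by
      obtain ⟨A, hA⟩ := (adjoin.powerBasis hint).exists_eq_aeval' β
      exact ⟨A, by rw [hA]; rfl⟩) α hαalg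
  exact hα c (by rw [← htower, hc])

theorem slopes_finite {k : Type} [Field k] [CharZero k] {X : Scheme}
    (f : X ⟶ Spec (CommRingCat.of k)) [IsIntegral X] [Smooth f] [IsSeparated f] [QuasiCompact f]
    (U : X.Opens) [Nonempty U] (hU : GeomSimplyConnected (U.ι ≫ f)) (g : X ≅ X)
    (hper : ∀ x ∈ U, ringKrullDim (X.presheaf.stalk x) = 1 → ∀ n : ℕ, 0 < n →
      (fun z : X => g.inv z)^[n] x ≠ x) [Algebra k X.functionField]
    (halg : ∀ c : k, algebraMap k X.functionField c = toStalk f (genericPoint X) c)
    {κ : Type} [Field κ] [Algebra k κ]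
    (hκ : ∀ b : κ, IsAlgebraic k b → ∃ c : k, algebraMap k κ c = b)
    {P : ℕ → Plc X.functionField κ} {γ : X.functionField ≃ₐ[k] X.functionField}
    (hγ : ∀ a, γ a = kap g.inv a) (hP : Orb P γ)
    {dx dy : Derivation k X.functionField X.functionField} {x y : X.functionField}
    (hd : IsPartial dx dy x y) (δ : Derivation k κ κ) (s : ℕ → κ)
    (hs : ∀ᶠ m in atTop, Dir (P m) δ x y (s m)) (F : Polynomial X.functionField) (hF : F ≠ 0)
    (hW : Web P s F) :
    ∃ T : Finset X.functionField, ∀ᶠ m in atTop, ∃ t ∈ T, (P m).At t (s m) := by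
  obtain ⟨F0, hm, hW0, hmin, hfr⟩ := web_min hP s F hF hW
  have hdiv := hmin _ (web_TT hP hd δ s hs F0 F0.natDegree le_rfl hW0)
  have hJ := jac_ne hd γ
  have hperm : ∀ r : AlgebraicClosure X.functionField, aeval r F0 = 0 →
      ∃ r1 : AlgebraicClosure X.functionField, aeval r1 F0 = 0 ∧
        ∃ e : X.functionField⟮r1⟯ ≃+* X.functionField⟮r⟯, ∀ a : X.functionField,
          e (algebraMap X.functionField X.functionField⟮r1⟯ a) =
            algebraMap X.functionField X.functionField⟮r⟯ (kap g.inv a) := by
    intro r hr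
    obtain ⟨r1, hr1, e, he⟩ := roots_TT γ (dx (γ x)) (dy (γ x)) (dx (γ y)) (dy (γ y)) hJ F0 hm
      hdiv r hr
    exact ⟨r1, hr1, e, fun a => by rw [he, hγ]⟩
  refine slopes_of_split hP s F0 hm hW0 fun r hr => ?_
  exact root_mem f U hU halg hκ hP s F0 hfr r hr fun z hzU hz =>
    presAt_of_not_per f g F0 hm.ne_zero hperm r hr z hz (hper z hzU hz)

end Pool.Agent.LibHP.K3
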