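import Pool.Agent.LibK3M.S3
import Pool.Agent.LibK3M.R1
import Pool.Agent.LibK3M.R3
import Pool.Agent.LibK3M.M6
import Pool.Agent.LibK3.BC16
import Pool.Agent.LibK3.BZ0

/-!
Block S2: the hypothesis `Rig` on extensions of the function field, from the simple connectivity of `U`
or from `CurveGenerates U x₀`.
-/

set_option autoImplicit false

open AlgebraicGeometry CategoryTheory Filter
open Pool.Agent.LibHP Pool.Agent.LibK3 Pool.Agent.LibK3F Pool.Agent.LibHP.K3

namespace Pool.Agent.LibK3M

/-- A finite extension of the function field which is unramified over the codimension one points which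
are not periodic, and which has a place with the same residue field over infinitely many of the curves
`γ ^ m v₀`, is trivial. -/
def Rig {k : Type} [Field k] {X : Scheme} [IsIntegral X] [Algebra k X.functionField] (g : X ≅ X)
    (γ : X.functionField ≃ₐ[k] X.functionField) (v₀ : KVal k X.functionField) : Prop :=
  ∀ (L : Type) [Field L] (j : X.functionField →+* L), j.Finite →
    (∀ x : X, ringKrullDim (X.presheaf.stalk x) = 1 →
      (∀ n : ℕ, 0 < n → (fun z : X => g.hom z)^[n] x ≠ x) → PresAt j x) →
    (∃ᶠ m in atTop, ResLift j (v₀.mv (γ ^ m))) → Function.Surjective j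

theorem resLift_mv {k K M : Type} [Field k] [Field K] [Field M] [Algebra k K] (j : K →+* M)
    (v : KVal k K) (σ : K ≃ₐ[k] K) (h : ResLift j (v.mv σ)) :
    ResLift (j.comp (σ : K →+* K)) v := by
  have hcomp : (j.comp (σ : K →+* K)).comp (algebraMap k K) = j.comp (algebraMap k K) :=
    RingHom.ext fun c => by
      show j (σ (algebraMap k K c)) = _
      rw [σ.commutes]
      rfl
  unfold ResLift at h ⊢
  rw [hcomp]
  let _ : Algebra k M := (j.comp (algebraMap k K)).toAlgebra
  obtain ⟨w, e, he, hw, hres⟩ := h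
  refine ⟨w, e, he, fun z => ?_, fun z hz => ?_⟩
  · show w.ord (j (σ z)) = _
    rw [hw, KVal.mv_ord, AlgEquiv.symm_apply_apply]
  · obtain ⟨a, ha, h⟩ := hres z hz
    refine ⟨σ.symm a, ha, ?_⟩
    show z = j (σ (σ.symm a)) ∨ 0 < w.ord (z - j (σ (σ.symm a)))
    rw [AlgEquiv.apply_symm_apply]
    exact h

section

variable {k : Type} [Field k] [CharZero k] {X : Scheme} [IsIntegral X]
  (f : X ⟶ Spec (CommRingCat.of k)) [Smooth f] [IsSeparated f] [QuasiCompact f]
  [Algebra k X.functionField]

omit [CharZero k] in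
theorem presAt_pow (g : X ≅ X) (γ : X.functionField ≃ₐ[k] X.functionField)
    (hγ' : ∀ z, γ.symm z = kap g.inv z) {L : Type} [Field L] (m : ℕ)
    (j : X.functionField →+* L) (hj : ∀ x : X, ringKrullDim (X.presheaf.stalk x) = 1 →
      (∀ n : ℕ, 0 < n → (fun z : X => g.hom z)^[n] x ≠ x) → PresAt j x) :
    ∀ x : X, ringKrullDim (X.presheaf.stalk x) = 1 →
      (∀ n : ℕ, 0 < n → (fun z : X => g.hom z)^[n] x ≠ x) →
      PresAt (j.comp ((γ ^ m : X.functionField ≃ₐ[k] X.functionField) :
        X.functionField →+* X.functionField)) x := by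
  induction m with
  | zero =>
    intro x hx hn
    have : j.comp ((γ ^ 0 : X.functionField ≃ₐ[k] X.functionField) :
        X.functionField →+* X.functionField) = j := RingHom.ext fun z => rfl
    rw [this]
    exact hj x hx hn
  | succ m ih =>
    intro x hx hn
    refine presAt_transport g.inv (j.comp ((γ ^ m : X.functionField ≃ₐ[k] X.functionField) :
        X.functionField →+* X.functionField)) _ (RingEquiv.refl L) ?_ x (ih (g.inv x) ?_ ?_)
    · intro a
      show j ((γ ^ m) a) = j ((γ ^ (m + 1)) (kap g.inv a))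
      rw [← hγ', pow_succ, AlgEquiv.mul_apply, AlgEquiv.apply_symm_apply]
    · rw [← hx]
      exact ringKrullDim_eq_of_ringEquiv (asIso (g.inv.stalkMap x)).commRingCatIsoToRingEquiv
    · intro n hn0 h
      apply hn n hn0
      have h1 : g.hom (g.inv x) = x := by
        rw [← Scheme.Hom.comp_apply, g.inv_hom_id]
        rfl
      have h2 := congrArg (fun z : X => g.hom z) h
      simp only [h1] at h2
      rw [← Function.iterate_succ_apply' (fun z : X => g.hom z) n (g.inv x),
        Function.iterate_succ_apply, h1] at h2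
      exact h2

include f

/-- `Rig` from a curve which generates the fundamental group of `U`. -/
theorem rig_of_curve (U : X.Opens) (x₀ : X) (hx₀ : x₀ ∈ U) (hS : CurveGenerates U x₀) (g : X ≅ X)
    (γ : X.functionField ≃ₐ[k] X.functionField) (hγ' : ∀ z, γ.symm z = kap g.inv z)
    (hper : ∀ x ∈ U, ringKrullDim (X.presheaf.stalk x) = 1 → ∀ n : ℕ, 0 < n →
      (fun z : X => g.hom z)^[n] x ≠ x)
    (v₀ : KVal k X.functionField) (hv₀ : ∀ z, 0 ≤ v₀.ord z ↔ z ∈ stk X x₀) : Rig g γ v₀ := by
  intro L _ j hj hP hfr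
  obtain ⟨m, hm⟩ := hfr.exists
  have h1 := resLift_mv j v₀ (γ ^ m) hm
  have h2 := presAt_pow g γ hγ' m j hP
  have hs := surjective_of_curve f U x₀ hx₀ hS L (j.comp ((γ ^ m : X.functionField ≃ₐ[k]
    X.functionField) : X.functionField →+* X.functionField))
    (hj.comp (RingHom.Finite.of_surjective _ (γ ^ m : X.functionField ≃ₐ[k]
      X.functionField).surjective)) (fun x hx hx1 => h2 x hx1 (hper x hx hx1)) v₀ hv₀ h1
  intro z
  obtain ⟨w, hw⟩ := hs z
  exact ⟨_, hw⟩

/-- `Rig` from the simple connectivity of `U`. -/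
theorem rig_of_simplyConnected (hk : ∀ a : k, algebraMap k X.functionField a =
      toStalk f (genericPoint X) a) (U : X.Opens) [Nonempty U]
    (hU : GeomSimplyConnected (U.ι ≫ f)) (g : X ≅ X)
    (γ : X.functionField ≃ₐ[k] X.functionField)
    (hper : ∀ x ∈ U, ringKrullDim (X.presheaf.stalk x) = 1 → ∀ n : ℕ, 0 < n →
      (fun z : X => g.hom z)^[n] x ≠ x)
    (v₀ : KVal k X.functionField) (hcl : v₀.ResClosed) : Rig g γ v₀ := by
  intro L _ j hj hP hfr
  by_contra hns
  let _ : Algebra X.functionField L := j.toAlgebra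
  have hfd : FiniteDimensional X.functionField L := hj
  have h2 : 2 ≤ Module.finrank X.functionField L := by
    have h1 : 0 < Module.finrank X.functionField L := Module.finrank_pos
    have h3 : Module.finrank X.functionField L ≠ 1 := by
      intro h
      apply hns
      intro z
      obtain ⟨w, hw, hw'⟩ := finrank_eq_one_iff'.1 h
      obtain ⟨a, ha⟩ := hw' 1
      obtain ⟨b, hb⟩ := hw' z
      have ha' : j a * w = 1 := by rw [← ha]; exact (Algebra.smul_def a w).symm
      have hb' : j b * w = z := by rw [← hb]; exact (Algebra.smul_def b w).symm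
      have ha0 : j a ≠ 0 := fun h0 => by rw [h0, zero_mul] at ha'; exact zero_ne_one ha'
      refine ⟨b * a⁻¹, ?_⟩
      rw [map_mul, map_inv₀, ← hb', eq_inv_of_mul_eq_one_right ha']
    omega
  obtain ⟨α, ⟨h, hh, hev⟩, hα⟩ := exists_const_open f U hU L h2
    fun x hx hx1 => hP x hx1 (hper x hx hx1)
  obtain ⟨m, hm⟩ := hfr.exists
  refine not_resLift_of_new_const _ (hcl.mv (γ ^ m)) j α h hh ?_ ?_ hm
  · rw [← hev]
    congr 1
    ext a
    show j (algebraMap k X.functionField a) = _
    rw [hk]
    rfl
  · intro c hc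
    apply hα c
    rw [← hc, hk]
    rfl

end

end Pool.Agent.LibK3M
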