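import Pool.Agent.LibK3M.S1
import Pool.Agent.LibK3M.S2
import Pool.Agent.LibK3M.M9
import Pool.Agent.LibK3M.F1

/-!
Block S4: the slopes are rational functions (from `Rig`).
-/

set_option autoImplicit false

open AlgebraicGeometry CategoryTheory Polynomial Filter IntermediateField
open Pool.Agent.LibHP Pool.Agent.LibK3 Pool.Agent.LibK3F Pool.Agent.LibHP.K3

namespace Pool.Agent.LibK3M

theorem pAt_derivative {K κ : Type} [Field K] [Field κ] {P : Plc K κ} {F : Polynomial K}
    {F' : Polynomial κ} (h : P.PAt F F') : P.PAt (derivative F) (derivative F') := by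
  intro i
  rw [coeff_derivative, coeff_derivative]
  have hn : ∀ n : ℕ, P.At (n : K) (n : κ) := by
    intro n
    induction n with
    | zero => rw [Nat.cast_zero, Nat.cast_zero]; exact Plc.At.zero
    | succ n ih => rw [Nat.cast_succ, Nat.cast_succ]; exact ih.add Plc.At.one
  have h1 := (hn i).add Plc.At.one
  exact (h (i + 1)).mul h1

/-- The root of a polynomial with a root in the residue field at infinitely many of the places gives an
extension which lifts infinitely many of the curves. -/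
theorem frequently_resLift {k K κ : Type} [Field k] [Field K] [Field κ] [CharZero K]
    [Algebra k K] [Algebra k κ] {v₀ : KVal k K} {r₀ : v₀.ring →ₐ[k] κ}
    (hr : ∀ z, r₀ z = 0 ↔ ((z : K) = 0 ∨ 0 < v₀.ord (z : K))) (hrs : Function.Surjective r₀)
    {γ : K ≃ₐ[k] K} (hP : Orb (orb (plcK v₀ r₀ hr) γ) γ) (s : ℕ → κ) (G : Polynomial K)
    (hGm : G.Monic) (hG : Irreducible G)
    (hfr : ∃ᶠ m in atTop, ∃ G' : Polynomial κ, (orb (plcK v₀ r₀ hr) γ m).PAt G G' ∧
      G'.eval (s m) = 0)
    (M : Type) [Field M] [Algebra K M] (r : M) (hrG : aeval r G = 0)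
    (hgen : ∀ z : M, ∃ A : Polynomial K, aeval r A = z) :
    ∃ᶠ m in atTop, ResLift (algebraMap K M) (v₀.mv (γ ^ m)) := by
  -- `A G + B G' = 1`
  obtain ⟨A, B, hAB⟩ := hG.separable
  refine (hfr.and_eventually ((hP.preg A).and (hP.preg B))).mono ?_
  rintro m ⟨⟨G', hG', hG0⟩, ⟨A', hA'⟩, ⟨B', hB'⟩⟩
  have hd := pAt_derivative hG'
  have h1 : A' * G' + B' * derivative G' = 1 := by
    have h2 := (hA'.mul hG').add (hB'.mul hd)
    rw [hAB] at h2
    exact h2.unique Plc.PAt.one
  have hder : (derivative G').eval (s m) ≠ 0 := by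
    intro h0
    have h2 := congrArg (Polynomial.eval (s m)) h1
    rw [eval_add, eval_mul, eval_mul, hG0, h0, mul_zero, mul_zero, add_zero, eval_one] at h2
    exact zero_ne_one h2
  -- the residue map of `γ ^ m v₀`
  set v : KVal k K := v₀.mv (γ ^ m) with hv
  let ψ : v.ring →+* κ :=
    (r₀ : v₀.ring →+* κ).comp ((((γ ^ m : K ≃ₐ[k] K).symm : K →+* K).comp
      (v.ring.val : v.ring →+* K)).codRestrict v₀.ring fun z => z.2)
  have hψ : ∀ z : v.ring, ψ z = r₀ ⟨(γ ^ m : K ≃ₐ[k] K).symm z, z.2⟩ := fun z => rfl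
  have hψs : Function.Surjective ψ := by
    intro q
    obtain ⟨z, rfl⟩ := hrs q
    refine ⟨⟨(γ ^ m : K ≃ₐ[k] K) z, ?_⟩, ?_⟩
    · show 0 ≤ v₀.ord ((γ ^ m : K ≃ₐ[k] K).symm ((γ ^ m : K ≃ₐ[k] K) z))
      rw [AlgEquiv.symm_apply_apply]
      exact z.2
    · rw [hψ]
      congr 1
      exact Subtype.ext (AlgEquiv.symm_apply_apply _ _)
  have hψk : ∀ z : v.ring, ψ z = 0 ↔ ((z : K) = 0 ∨ 0 < v.ord (z : K)) := by
    intro z
    rw [hψ, hr]
    show (γ ^ m : K ≃ₐ[k] K).symm (z : K) = 0 ∨ 0 < v₀.ord ((γ ^ m : K ≃ₐ[k] K).symm z) ↔ _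
    rw [map_eq_zero_iff _ (AlgEquiv.injective _)]
    exact Iff.rfl
  have hAt : ∀ {a : K} {b : κ}, (orb (plcK v₀ r₀ hr) γ m).At a b →
      ∃ h : a ∈ v.ring, ψ ⟨a, h⟩ = b := by
    intro a b h
    rw [orb_at, plcK_at] at h
    exact h
  -- the polynomial over `v.ring`
  obtain ⟨G₀, hG₀, -, hG₀m⟩ := Polynomial.lifts_and_natDegree_eq_and_monic
    (f := algebraMap v.ring K) (p := G) (by
      rw [Polynomial.lifts_iff_coeff_lifts]
      intro i
      obtain ⟨h, -⟩ := hAt (hG' i)
      exact ⟨⟨G.coeff i, h⟩, rfl⟩) hGm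
  have hG₀ψ : G₀.map ψ = G' := by
    ext i
    rw [coeff_map]
    obtain ⟨h, h2⟩ := hAt (hG' i)
    rw [← h2]
    congr 1
    apply Subtype.ext
    show ((G₀.coeff i : v.ring) : K) = G.coeff i
    rw [← hG₀, coeff_map]
    rfl
  refine resLift_of_root v ψ hψs hψk G₀ hG₀m (by rw [hG₀]; exact hG) (s m)
    (by rw [hG₀ψ]; exact hG0) (by rw [hG₀ψ]; exact hder) r (by rw [hG₀]; exact hrG) hgen

section

variable {k : Type} [Field k] [CharZero k] {X : Scheme} [IsIntegral X]
  (f : X ⟶ Spec (CommRingCat.of k)) [Smooth f] [IsSeparated f] [QuasiCompact f]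
  [Algebra k X.functionField]

include f

/-- The slopes are given by finitely many rational functions. -/
theorem slopes_finite_rig (g : X ≅ X) {γ : X.functionField ≃ₐ[k] X.functionField}
    (hγ : ∀ a, γ a = kap g.hom a) {κ : Type} [Field κ] [Algebra k κ]
    {v₀ : KVal k X.functionField} {r₀ : v₀.ring →ₐ[k] κ}
    (hr : ∀ z, r₀ z = 0 ↔ ((z : X.functionField) = 0 ∨ 0 < v₀.ord (z : X.functionField)))
    (hrs : Function.Surjective r₀) (hrig : Rig g γ v₀)
    (hP : Orb (orb (plcK v₀ r₀ hr) γ) γ)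
    {dx dy : Derivation k X.functionField X.functionField} {x y : X.functionField}
    (hd : IsPartial dx dy x y) (δ : Derivation k κ κ) (s : ℕ → κ)
    (hs : ∀ᶠ m in atTop, Dir (orb (plcK v₀ r₀ hr) γ m) δ x y (s m))
    (F : Polynomial X.functionField) (hF : F ≠ 0) (hW : Web (orb (plcK v₀ r₀ hr) γ) s F) :
    ∃ T : Finset X.functionField, ∀ᶠ m in atTop, ∃ t ∈ T,
      (orb (plcK v₀ r₀ hr) γ m).At t (s m) := by
  have hchar : CharZero X.functionField := charZero_of_injective_algebraMap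
    (algebraMap k X.functionField).injective
  obtain ⟨F0, hm, hW0, hmin, hfr⟩ := web_min hP s F hF hW
  have hdiv := hmin _ (web_TT hP hd δ s hs F0 F0.natDegree le_rfl hW0)
  have hJ := jac_ne hd γ
  have hperm : ∀ r : AlgebraicClosure X.functionField, aeval r F0 = 0 →
      ∃ r1 : AlgebraicClosure X.functionField, aeval r1 F0 = 0 ∧
        ∃ e : X.functionField⟮r1⟯ ≃+* X.functionField⟮r⟯, ∀ a : X.functionField,
          e (algebraMap X.functionField X.functionField⟮r1⟯ a) =
            algebraMap X.functionField X.functionField⟮r⟯ (kap g.symm.inv a) := by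
    intro r hr
    obtain ⟨r1, hr1, e, he⟩ := roots_TT γ (dx (γ x)) (dy (γ x)) (dx (γ y)) (dy (γ y)) hJ F0 hm
      hdiv r hr
    exact ⟨r1, hr1, e, fun a => by rw [he, hγ]; rfl⟩
  refine slopes_of_split hP s F0 hm hW0 fun r hr1 => ?_
  have hint : IsIntegral X.functionField r := Algebra.IsIntegral.isIntegral r
  haveI : FiniteDimensional X.functionField X.functionField⟮r⟯ := adjoin.finiteDimensional hint
  have hG : Irreducible (minpoly X.functionField r) := minpoly.irreducible hint
  have hGdvd : minpoly X.functionField r ∣ F0 := minpoly.dvd _ _ hr1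
  have hsurj := hrig X.functionField⟮r⟯ (algebraMap X.functionField X.functionField⟮r⟯)
    (RingHom.finite_algebraMap.2 inferInstance)
    (fun z hz hn => presAt_of_not_per f g.symm F0 hm.ne_zero hperm r hr1 z hz hn)
    (frequently_resLift hr hrs hP s (minpoly X.functionField r) (minpoly.monic hint) hG
      (hfr _ hG hGdvd) X.functionField⟮r⟯ (AdjoinSimple.gen X.functionField r)
      (by rw [← minpoly_gen X.functionField r]; exact minpoly.aeval _ _)
      (fun β => by
        obtain ⟨A, hA⟩ := (adjoin.powerBasis hint).exists_eq_aeval' β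
        exact ⟨A, by rw [hA]; rfl⟩))
  obtain ⟨a, ha⟩ := hsurj (AdjoinSimple.gen X.functionField r)
  refine ⟨a, ?_⟩
  have h1 := congrArg (algebraMap X.functionField⟮r⟯ (AlgebraicClosure X.functionField)) ha
  rw [AdjoinSimple.algebraMap_gen] at h1
  exact h1

end

end Pool.Agent.LibK3M
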