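import Pool.Agent.LibK3M.F4
import Pool.Agent.LibK3M.M1
import Pool.Agent.LibK3M.M11
import Pool.Agent.LibK3M.R2
import Pool.Agent.LibK3M.S4
import Pool.Agent.LibK3P.E5

/-!
Block S5: the core from the hypothesis `Rig`.
-/

set_option autoImplicit false

open AlgebraicGeometry CategoryTheory Polynomial Filter
open Pool.Agent.LibGMM Pool.Agent.LibK
open Pool.Agent.LibHP Pool.Agent.LibK3 Pool.Agent.LibK3P Pool.Agent.LibHP.K3

namespace Pool.Agent.LibK3M

section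

variable {k : Type} [Field k] [CharZero k] [Algebra k ℂ] {X : Scheme} [IsIntegral X]
  (f : X ⟶ Spec (CommRingCat.of k)) [Smooth f] [IsSeparated f] [QuasiCompact f]
  [Algebra k X.functionField]

/-- One extension of the function field: the web over `ℂ`. -/
theorem web_of_ext_rig
    (hk : ∀ a : k, algebraMap k X.functionField a = toStalk f (genericPoint X) a)
    {ι : Type} [Finite ι] {c : ι → X.functionField} (hc : IsProjEmb f c) (hm : KModel k c)
    {g : X ≅ X} {γ : X.functionField ≃ₐ[k] X.functionField}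
    (hγ : ∀ x : X, γ '' stk X (g.hom x) = stk X x)
    {v₀ : KVal k X.functionField} (hOn : ∃ i, v₀.On (kchart k c i)) (hcl : v₀.ResClosed)
    {L : Type} [Field L] [Algebra ℂ L] [Algebra X.functionField L]
    (hL : IsCx k X.functionField L) (Γ : L ≃ₐ[ℂ] L)
    (hΓ : ∀ z : X.functionField, Γ (algebraMap X.functionField L z) =
      algebraMap X.functionField L (γ z)) {C₀ : RC L} (hC : CxOver v₀ C₀.ν)
    (hDyn : Dyn0 (cxModel hm hL) Γ) (hC₀ : C₀.ν ∈ primes (cxModel hm hL))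
    (hG : Grow (cxModel hm hL) Γ C₀) (hrig : Rig g γ v₀)
    (x y : X.functionField) (hindL : AlgebraicIndependent ℂ ![algebraMap X.functionField L x,
      algebraMap X.functionField L y])
    (M' : Type) [Field M'] (j : X.functionField →+* M') (hj : j.Finite)
    (hj2 : ¬ Function.Surjective j) :
    ∃ F : Polynomial L, F ≠ 0 ∧ ∃ m₀ : ℕ, ∀ m : ℕ, m₀ ≤ m → ResLift j (v₀.mv (γ ^ m)) →
      SlopeRoot (C₀.mv (Γ ^ m)) (algebraMap X.functionField L x) (algebraMap X.functionField L y)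
        F := by
  classical
  by_cases hfr : ∃ᶠ m in atTop, ResLift j (v₀.mv (γ ^ m))
  swap
  · rw [Filter.not_frequently] at hfr
    obtain ⟨m₀, hm₀⟩ := eventually_atTop.1 hfr
    exact ⟨1, one_ne_zero, m₀, fun m hm hres => absurd hres (hm₀ m hm)⟩
  letI : Algebra X.functionField M' := j.toAlgebra
  letI : Algebra k M' := (j.comp (algebraMap k X.functionField)).toAlgebra
  haveI : IsScalarTower k X.functionField M' := IsScalarTower.of_algebraMap_eq fun _ => rfl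
  haveI : FiniteDimensional X.functionField M' := hj
  have hcM : ∀ b : M', IsAlgebraic k b → ∃ c : k, algebraMap k M' c = b := by
    by_contra hcM
    push Not at hcM
    obtain ⟨α, ⟨h, hh, hα⟩, hne⟩ := hcM
    obtain ⟨m, hres⟩ := hfr.exists
    exact absurd hres (not_resLift_of_new_const _ (hcl.mv (γ ^ m)) j α h hh hα hne)
  obtain ⟨M, i1, i2, i3, i4, i5, i6, hM, hcc, -⟩ := exists_cx_tower hL M' hcM
  -- a ramified point
  obtain ⟨z, hz1, hper, hz2⟩ : ∃ z : X, ringKrullDim (X.presheaf.stalk z) = 1 ∧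
      (∀ n : ℕ, 0 < n → (fun z : X => g.hom z)^[n] z ≠ z) ∧
      ¬ PresAt (algebraMap X.functionField M') z := by
    by_contra hcon
    push Not at hcon
    exact hj2 (hrig M' j hj hcon hfr)
  obtain ⟨v, B, Q, e, hv, hvB, hB, hQB, he⟩ := bridge_ramified0 f hk hc hm hL hM hcc z hz1 hz2
  obtain ⟨w, hw, hwOn⟩ := exists_kval f hk hc z hz1
  have hvw : w = v := KVal.ext_ring fun a ha => (hv a).2 ((hw a).1 ha)
  subst hvw
  have hnper : ¬ PerV Γ B := by
    rw [perV_iff f hm hL hγ Γ hΓ z hv hwOn hvB]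
    rintro ⟨n, hn, h1⟩
    exact hper n hn (iterate_inv g z n h1)
  obtain ⟨F, hF, m₀, h3⟩ := statementA0 L (cxModel hm hL) Γ hDyn C₀ hC₀ hG _ _ hindL M
    ⟨B, Q, e, hB, hnper, hQB, he⟩
  refine ⟨F, hF, m₀, fun m hm0 hres => ?_⟩
  obtain ⟨v', e', he', hv', hres'⟩ := hres
  obtain ⟨i, hi⟩ := hOn
  obtain ⟨h4, -, -, h5⟩ := h3 m hm0
    (bridge_lift hL hM hcc γ Γ hΓ hi hcl hC m v' e' he' hv' hres')
  exact slopeRoot_of_hom F h4 h5

include f

/-- A web over `ℂ`: the slopes are values of finitely many rational functions. -/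
theorem finite_slopes_cx_rig (g : X ≅ X)
    {γ : X.functionField ≃ₐ[k] X.functionField} (hγ : ∀ a, γ a = kap g.hom a)
    {L : Type} [Field L] [Algebra ℂ L] [Algebra X.functionField L]
    (hL : IsCx k X.functionField L) (Γ : L ≃ₐ[ℂ] L)
    (hΓ : ∀ z : X.functionField, Γ (algebraMap X.functionField L z) =
      algebraMap X.functionField L (γ z)) {v₀ : KVal k X.functionField}
    {r₀ : v₀.ring →ₐ[k] RatFunc k} (hrs : Function.Surjective r₀)
    (hr : ∀ z, r₀ z = 0 ↔ ((z : X.functionField) = 0 ∨ 0 < v₀.ord (z : X.functionField)))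
    {C₀ : RC L} (hC : CxOver v₀ C₀.ν)
    (hψ : ∀ z : v₀.ring, C₀.ψ (algebraMap X.functionField L z) = rmap (algebraMap k ℂ) (r₀ z))
    (hfin : ∀ z : L, z ≠ 0 → ∃ m₀ : ℕ, ∀ m : ℕ, m₀ ≤ m → (LibK3.mv (Γ ^ m) C₀.ν).ord z = 0)
    (hnc : ∀ z : L, z ∉ Set.range (algebraMap ℂ L) → ∃ m₀ : ℕ, ∀ m : ℕ, m₀ ≤ m →
      z ∈ (LibK3.mv (Γ ^ m) C₀.ν).ring ∧ ∀ c, (C₀.mv (Γ ^ m)).ψ z ≠ RatFunc.C c)
    (hrig : Rig g γ v₀)
    (x y : X.functionField) (hind : AlgebraicIndependent k ![x, y])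
    (hxy : ∀ a : X.functionField, IsAlgebraic (Algebra.adjoin k {x, y}) a)
    (hindL : AlgebraicIndependent ℂ ![algebraMap X.functionField L x,
      algebraMap X.functionField L y])
    (F : Polynomial L) (hF : F ≠ 0) (hweb : ∀ᶠ m in atTop, SlopeRoot (C₀.mv (Γ ^ m))
      (algebraMap X.functionField L x) (algebraMap X.functionField L y) F) :
    ∃ T : Set L, T.Finite ∧ ∃ δ : Derivation ℂ (RatFunc ℂ) (RatFunc ℂ), LibK3.IsDt δ ∧
      ∃ m₀ : ℕ, ∀ m : ℕ, m₀ ≤ m →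
        algebraMap X.functionField L x ∈ (LibK3.mv (Γ ^ m) C₀.ν).ring ∧
        algebraMap X.functionField L y ∈ (LibK3.mv (Γ ^ m) C₀.ν).ring ∧
        ∃ s ∈ T, s ∈ (LibK3.mv (Γ ^ m) C₀.ν).ring ∧
          δ ((C₀.mv (Γ ^ m)).ψ (algebraMap X.functionField L y)) =
            (C₀.mv (Γ ^ m)).ψ s * δ ((C₀.mv (Γ ^ m)).ψ (algebraMap X.functionField L x)) := by
  classical
  obtain ⟨δ, δ', hdt, h1, h2, h3, h4, h5⟩ := exists_dt k
  obtain ⟨dx, dy, hd⟩ := exists_partial x y hind hxy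
  have hP := orb_curve hr γ Γ hΓ hC hfin
  have hPQ := lies_orb hr γ Γ hΓ hC hψ
  have hx : algebraMap X.functionField L x ∉ Set.range (algebraMap ℂ L) := by
    rintro ⟨c, hc⟩
    have h6 : Transcendental ℂ (algebraMap X.functionField L x) := hindL.transcendental 0
    exact h6 (by rw [← hc]; exact isAlgebraic_algebraMap c)
  obtain ⟨m₁, hm₁⟩ := hnc _ hx
  obtain ⟨s, hs⟩ := exists_dir hP hPQ δ h2 x y (by
    filter_upwards [eventually_ge_atTop m₁] with m hm b hb c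
    rw [← (plcR_at.1 hb).2, RatFunc.algebraMap_eq_C]
    exact (hm₁ m hm).2 c)
  have hwebL : ∀ᶠ m in atTop, ∃ F' : Polynomial (RatFunc ℂ),
      (plcR (C₀.mv (Γ ^ m))).PAt F F' ∧ F'.eval (rmap (algebraMap k ℂ) (s m)) = 0 := by
    filter_upwards [hs, hweb] with m hm hw
    exact eval_of_slopeRoot (hPQ m) δ δ' h1 hm hw
  obtain ⟨F0, hF0, hW0⟩ := web_descent hL hP (fun m => plcR (C₀.mv (Γ ^ m)))
    (rmap (algebraMap k ℂ)) hPQ (fun m c => plcR_const _ c) h4 s F hF hwebL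
  obtain ⟨T, hT⟩ := slopes_finite_rig f g hγ hr hrs hrig hP hd δ s hs F0 hF0 hW0
  refine ⟨(algebraMap X.functionField L) '' (T : Set X.functionField), T.finite_toSet.image _, δ',
    hdt, ?_⟩
  obtain ⟨m₀, hm₀⟩ := eventually_atTop.1 (hs.and hT)
  refine ⟨m₀, fun m hm => ?_⟩
  obtain ⟨h6, t, ht, h7⟩ := hm₀ m hm
  obtain ⟨h8, h9, h10, h11⟩ := slope_of_mem (hPQ m) δ δ' h1 h6 h7
  exact ⟨h8, h9, _, ⟨t, ht, rfl⟩, h10, h11⟩

/-- **CORE** from the hypothesis `Rig`. -/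
theorem core_rig (hk : ∀ a : k, algebraMap k X.functionField a = toStalk f (genericPoint X) a)
    {ι : Type} [Finite ι] {c : ι → X.functionField} (hm : KModel k c) (hc : IsProjEmb f c)
    (hdim : Algebra.trdeg k X.functionField = 2) (g : X ≅ X)
    (γ : X.functionField ≃ₐ[k] X.functionField) (hγ0 : ∀ z, γ z = kap g.hom z)
    (hγ : ∀ x : X, γ '' stk X (g.hom x) = stk X x)
    (v₀ : KVal k X.functionField) (hOn : ∃ i, v₀.On (kchart k c i)) (hcl : v₀.ResClosed)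
    (r₀ : v₀.ring →ₐ[k] RatFunc k) (hrs : Function.Surjective r₀)
    (hr : ∀ z, r₀ z = 0 ↔ ((z : X.functionField) = 0 ∨ 0 < v₀.ord (z : X.functionField)))
    {L : Type} [Field L] [Algebra ℂ L] [Algebra X.functionField L]
    (hL : IsCx k X.functionField L) (Γ : L ≃ₐ[ℂ] L)
    (hΓ : ∀ z : X.functionField, Γ (algebraMap X.functionField L z) =
      algebraMap X.functionField L (γ z)) (C₀ : RC L) (hC : CxOver v₀ C₀.ν)
    (hψ : ∀ z : v₀.ring, C₀.ψ (algebraMap X.functionField L z) = rmap (algebraMap k ℂ) (r₀ z))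
    (hDyn : Dyn0 (cxModel hm hL) Γ) (hC₀ : C₀.ν ∈ primes (cxModel hm hL))
    (hG : Grow (cxModel hm hL) Γ C₀) (hrig : Rig g γ v₀)
    {n : ℕ} (M : Fin n → Type) [∀ i, Field (M i)] (j : ∀ i, X.functionField →+* M i)
    (hj : ∀ i, (j i).Finite ∧ ¬ Function.Surjective (j i))
    (hres : ∃ m0 : ℕ, ∀ m ≥ m0, ∃ i, ResLift (j i) (v₀.mv (γ ^ m))) : False := by
  classical
  obtain ⟨x, y, hind, hxy⟩ := exists_xy hdim
  have hindL := alg_indep_cx hL x y hind
  have hfin : ∀ z : L, z ≠ 0 → ∃ m₀ : ℕ, ∀ m : ℕ, m₀ ≤ m →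
      (LibK3.mv (Γ ^ m) C₀.ν).ord z = 0 := fun z hz => statementFin L _ Γ hDyn C₀ hC₀ hG z hz
  have hnc : ∀ z : L, z ∉ Set.range (algebraMap ℂ L) → ∃ m₀ : ℕ, ∀ m : ℕ, m₀ ≤ m →
      z ∈ (LibK3.mv (Γ ^ m) C₀.ν).ring ∧ ∀ c, (C₀.mv (Γ ^ m)).ψ z ≠ RatFunc.C c :=
    fun z hz => statementNC L _ Γ hDyn C₀ hC₀ hG z hz
  have hQ := orbR C₀ Γ hfin
  choose F hF m₁ h1 using fun i => web_of_ext_rig f hk hc hm hγ hOn hcl hL Γ hΓ hC hDyn hC₀ hG
    hrig x y hindL (M i) (j i) (hj i).1 (hj i).2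
  obtain ⟨m0, h2⟩ := hres
  have hweb : ∀ᶠ m in atTop, SlopeRoot (C₀.mv (Γ ^ m))
      (algebraMap X.functionField L x) (algebraMap X.functionField L y) (∏ i, F i) := by
    have hreg : ∀ᶠ m in atTop, ∀ i, ∃ F', (plcR (C₀.mv (Γ ^ m))).PAt (F i) F' :=
      eventually_all.2 fun i => hQ.preg (F i)
    have hge : ∀ᶠ m in atTop, ∀ i, m₁ i ≤ m := eventually_all.2 fun i => eventually_ge_atTop _
    filter_upwards [hreg, hge, eventually_ge_atTop m0] with m h3 h4 h5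
    obtain ⟨i, hi⟩ := h2 m h5
    exact slopeRoot_prod F h3 i (h1 i m (h4 i) hi)
  obtain ⟨T, hT, δ, hδ, h6⟩ := finite_slopes_cx_rig f g hγ0 hL Γ hΓ hrs hr hC hψ
    hfin hnc hrig x y hind hxy hindL (∏ i, F i) (Finset.prod_ne_zero_iff.2 fun i _ => hF i) hweb
  exact statementB0 L _ Γ hDyn C₀ hC₀ hG _ _ hindL T hT δ hδ h6

end

end Pool.Agent.LibK3M
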