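import Pool.Agent.LibHP.S4

/-!
K3 theorem, block M (helper98): places and the web of the directions of the curves `C_m = g ^ m C`.
Abstract definitions. `K` is the function field of the surface over `k`, `κ` the residue field of the
curves (`k(t)`).
-/

set_option autoImplicit false
open Polynomial Filter

namespace Pool.Agent.LibHP.K3

/-- A place of the field `K` with values in `κ`: a valuation ring and a local homomorphism. -/
structure Plc (K κ : Type) [Field K] [Field κ] where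
  V : ValuationSubring K
  ψ : V →+* κ
  loc : ∀ a : V, ψ a ≠ 0 → IsUnit a

section
variable {K κ : Type} [Field K] [Field κ]

/-- `a` is regular at the place `P`, with value `b`. -/
def Plc.At (P : Plc K κ) (a : K) (b : κ) : Prop := ∃ h : a ∈ P.V, P.ψ ⟨a, h⟩ = b

variable {P : Plc K κ} {a a' : K} {b b' : κ}

theorem Plc.At.unique (h : P.At a b) (h' : P.At a b') : b = b' := by
  obtain ⟨h1, rfl⟩ := h
  obtain ⟨_, rfl⟩ := h'
  rfl

theorem Plc.At.add (h : P.At a b) (h' : P.At a' b') : P.At (a + a') (b + b') := by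
  obtain ⟨h1, rfl⟩ := h
  obtain ⟨h2, rfl⟩ := h'
  exact ⟨P.V.add_mem _ _ h1 h2, (P.ψ.map_add ⟨a, h1⟩ ⟨a', h2⟩)⟩

theorem Plc.At.mul (h : P.At a b) (h' : P.At a' b') : P.At (a * a') (b * b') := by
  obtain ⟨h1, rfl⟩ := h
  obtain ⟨h2, rfl⟩ := h'
  exact ⟨P.V.mul_mem _ _ h1 h2, (P.ψ.map_mul ⟨a, h1⟩ ⟨a', h2⟩)⟩

theorem Plc.At.neg (h : P.At a b) : P.At (-a) (-b) := by
  obtain ⟨h1, rfl⟩ := h
  exact ⟨P.V.neg_mem _ h1, (P.ψ.map_neg ⟨a, h1⟩)⟩

theorem Plc.At.sub (h : P.At a b) (h' : P.At a' b') : P.At (a - a') (b - b') := by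
  rw [sub_eq_add_neg, sub_eq_add_neg]
  exact h.add h'.neg

theorem Plc.At.zero : P.At 0 0 := ⟨P.V.zero_mem, P.ψ.map_zero⟩

theorem Plc.At.one : P.At 1 1 := ⟨P.V.one_mem, P.ψ.map_one⟩

theorem Plc.At.pow (h : P.At a b) (n : ℕ) : P.At (a ^ n) (b ^ n) := by
  induction n with
  | zero => rw [pow_zero, pow_zero]; exact Plc.At.one
  | succ n ih => rw [pow_succ, pow_succ]; exact ih.mul h

theorem Plc.At.inv (h : P.At a b) (hb : b ≠ 0) : P.At a⁻¹ b⁻¹ := by
  obtain ⟨h1, rfl⟩ := h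
  obtain ⟨u, hu⟩ := P.loc ⟨a, h1⟩ hb
  have h3 : ((u⁻¹ : P.Vˣ) : P.V) * ⟨a, h1⟩ = 1 := by rw [← hu, Units.inv_mul]
  have h2 : (((u⁻¹ : P.Vˣ) : P.V) : K) = a⁻¹ := by
    refine eq_inv_of_mul_eq_one_left ?_
    exact congrArg (fun z : P.V => (z : K)) h3
  refine ⟨by rw [← h2]; exact ((u⁻¹ : P.Vˣ) : P.V).2, ?_⟩
  refine eq_inv_of_mul_eq_one_left ?_
  have h4 := congrArg P.ψ h3
  rw [map_mul, map_one] at h4
  rw [← h4]
  congr 2
  exact Subtype.ext h2.symm

theorem Plc.At.sum {ι : Type} (s : Finset ι) {a : ι → K} {b : ι → κ} (h : ∀ i ∈ s, P.At (a i) (b i)) :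
    P.At (∑ i ∈ s, a i) (∑ i ∈ s, b i) := by
  classical
  induction s using Finset.induction_on with
  | empty => simpa using Plc.At.zero
  | insert i s hi ih =>
    rw [Finset.sum_insert hi, Finset.sum_insert hi]
    exact (h i (Finset.mem_insert_self _ _)).add
      (ih fun j hj => h j (Finset.mem_insert_of_mem hj))

/-- The polynomial `F` is regular at the place, with value `F'`. -/
def Plc.PAt (P : Plc K κ) (F : Polynomial K) (F' : Polynomial κ) : Prop :=
  ∀ i, P.At (F.coeff i) (F'.coeff i)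

variable {F G : Polynomial K} {F' G' : Polynomial κ}

theorem Plc.PAt.add (h : P.PAt F F') (h' : P.PAt G G') : P.PAt (F + G) (F' + G') := by
  intro i
  rw [coeff_add, coeff_add]
  exact (h i).add (h' i)

theorem Plc.PAt.mul (h : P.PAt F F') (h' : P.PAt G G') : P.PAt (F * G) (F' * G') := by
  intro i
  rw [coeff_mul, coeff_mul]
  exact Plc.At.sum _ fun p _ => (h p.1).mul (h' p.2)

theorem Plc.PAt.C (h : P.At a b) : P.PAt (C a) (C b) := by
  intro i
  rw [coeff_C, coeff_C]
  split_ifs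
  · exact h
  · exact Plc.At.zero

theorem Plc.PAt.X : P.PAt X X := by
  intro i
  rw [coeff_X, coeff_X]
  split_ifs
  · exact Plc.At.one
  · exact Plc.At.zero

theorem Plc.PAt.one : P.PAt 1 1 := by
  have := Plc.PAt.C (P := P) Plc.At.one
  simpa using this

theorem Plc.PAt.pow (h : P.PAt F F') (n : ℕ) : P.PAt (F ^ n) (F' ^ n) := by
  induction n with
  | zero => rw [pow_zero, pow_zero]; exact Plc.PAt.one
  | succ n ih => rw [pow_succ, pow_succ]; exact ih.mul h

theorem Plc.PAt.unique {F'' : Polynomial κ} (h : P.PAt F F') (h' : P.PAt F F'') : F' = F'' :=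
  Polynomial.ext fun i => Plc.At.unique (h i) (h' i)

/-- Value of `F` at a regular element. -/
theorem Plc.PAt.eval (h : P.PAt F F') (ha : P.At a b) : P.At (F.eval a) (F'.eval b) := by
  rw [eval_eq_sum_range' (Nat.lt_succ_of_le (le_max_left F.natDegree F'.natDegree)),
    eval_eq_sum_range' (Nat.lt_succ_of_le (le_max_right F.natDegree F'.natDegree))]
  exact Plc.At.sum _ fun i _ => (h i).mul (ha.pow i)

end

section
variable {k K κ : Type} [Field k] [Field K] [Field κ] [Algebra k K] [Algebra k κ]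

/-- The sequence of places given by the curves `C_m = g ^ m C`, `γ` the automorphism of the function
field with `γ (𝒪 (C_m)) = 𝒪 (C_(m+1))`. -/
structure Orb (P : ℕ → Plc K κ) (γ : K ≃ₐ[k] K) : Prop where
  const : ∀ m (c : k), (P m).At (algebraMap k K c) (algebraMap k κ c)
  step : ∀ m a b, (P m).At a b ↔ (P (m + 1)).At (γ a) b
  fin : ∀ a : K, a ≠ 0 → ∀ᶠ m in atTop, ∃ b, b ≠ 0 ∧ (P m).At a b

/-- The curve has at its generic point the direction `dy = s dx`. -/
def Dir (P : Plc K κ) (δ : Derivation k κ κ) (x y : K) (s : κ) : Prop :=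
  ∃ u v, P.At x u ∧ P.At y v ∧ δ u ≠ 0 ∧ δ v = s * δ u

/-- The web `F (x, y, dy / dx) = 0` contains `C_m` for all large `m`; `s m` is the direction of `C_m`. -/
def Web (P : ℕ → Plc K κ) (s : ℕ → κ) (F : Polynomial K) : Prop :=
  ∀ᶠ m in atTop, ∃ F' : Polynomial κ, (P m).PAt F F' ∧ F'.eval (s m) = 0

/-- Partial derivatives with respect to `x`, `y`. -/
structure IsPartial (dx dy : Derivation k K K) (x y : K) : Prop where
  xx : dx x = 1
  xy : dx y = 0
  yx : dy x = 0
  yy : dy y = 1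
  uniq : ∀ D : Derivation k K K, ∀ a, D a = D x * dx a + D y * dy a
  alg : ∀ a : K, IsAlgebraic (Algebra.adjoin k {x, y}) a

/-- The transform of `F` (of degree at most `n`) by `γ`:
`∑ γ (a_i) (A + B p) ^ (n - i) (A' + B' p) ^ i`, where `A, B` (`A', B'`) are the partial derivatives of
`γ x` (`γ y`). -/
noncomputable def TT (γ : K ≃ₐ[k] K) (dx dy : Derivation k K K) (x y : K) (n : ℕ)
    (F : Polynomial K) : Polynomial K :=
  ∑ i ∈ Finset.range (n + 1), C (γ (F.coeff i)) *
    (C (dx (γ x)) + C (dy (γ x)) * X) ^ (n - i) * (C (dx (γ y)) + C (dy (γ y)) * X) ^ i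

variable {P : ℕ → Plc K κ} {γ : K ≃ₐ[k] K}

theorem Orb.reg (h : Orb P γ) (a : K) : ∀ᶠ m in atTop, ∃ b, (P m).At a b := by
  by_cases ha : a = 0
  · exact Eventually.of_forall fun m => ⟨0, by rw [ha]; exact Plc.At.zero⟩
  · exact (h.fin a ha).mono fun m ⟨b, _, hb⟩ => ⟨b, hb⟩

/-- A polynomial is regular at almost all places. -/
theorem Orb.preg (h : Orb P γ) (F : Polynomial K) :
    ∀ᶠ m in atTop, ∃ F' : Polynomial κ, (P m).PAt F F' := by
  induction F using Polynomial.induction_on' with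
  | add F G hF hG =>
    filter_upwards [hF, hG] with m ⟨F', h1⟩ ⟨G', h2⟩
    exact ⟨F' + G', h1.add h2⟩
  | monomial n a =>
    filter_upwards [h.reg a] with m ⟨b, hb⟩
    refine ⟨monomial n b, ?_⟩
    rw [← C_mul_X_pow_eq_monomial, ← C_mul_X_pow_eq_monomial]
    exact (Plc.PAt.C hb).mul (Plc.PAt.X.pow n)

end

end Pool.Agent.LibHP.K3
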