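import Pool.Agent.LibHPF.Q2

/-! Row M12. The rational function fields `k(t)` and `ℂ(t)`: the derivation `d/dt`, its kernel, linear disjointness of `ℂ` and
`k(t)` over `k`, algebraic elements are constants. -/

set_option autoImplicit false
open Polynomial
open scoped nonZeroDivisors

namespace Pool.Agent.LibHP.K3

/-- The derivation `d/dt` of the rational function field. -/
private theorem M12_der (F : Type) [Field F] [CharZero F] :
    ∃ δ : Derivation F (RatFunc F) (RatFunc F), δ RatFunc.X = 1 := by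
  obtain ⟨δ, hδ⟩ := exists_derivation_of_rel F (RatFunc F) (Fin 1) ![RatFunc.X] ![1] (by
    intro G hG
    have hind : AlgebraicIndependent F (![RatFunc.X] : Fin 1 → RatFunc F) := by
      rw [algebraicIndependent_unique_type_iff]
      exact RatFunc.transcendental_X
    have h0 : G = 0 := hind.eq_zero_of_aeval_eq_zero _ hG
    rw [h0]
    simp)
  exact ⟨δ, by simpa using hδ 0⟩

private theorem M12_poly {F : Type} [Field F] (δ : Derivation F (RatFunc F) (RatFunc F))
    (h : δ RatFunc.X = 1) (p : Polynomial F) :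
    δ (algebraMap F[X] (RatFunc F) p) = algebraMap F[X] (RatFunc F) p.derivative := by
  rw [← RatFunc.aeval_X_left_eq_algebraMap, ← RatFunc.aeval_X_left_eq_algebraMap,
    Derivation.map_aeval, h, smul_eq_mul, mul_one]

private theorem M12_ker {F : Type} [Field F] [CharZero F] (δ : Derivation F (RatFunc F) (RatFunc F))
    (h : δ RatFunc.X = 1) (z : RatFunc F) (hz : δ z = 0) :
    ∃ c : F, z = algebraMap F (RatFunc F) c := by
  have hq0 : algebraMap F[X] (RatFunc F) z.denom ≠ 0 := by
    rw [Ne, FaithfulSMul.algebraMap_eq_zero_iff]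
    exact RatFunc.denom_ne_zero z
  have h2 : z * algebraMap F[X] (RatFunc F) z.denom = algebraMap F[X] (RatFunc F) z.num := by
    nth_rewrite 1 [← RatFunc.num_div_denom z]
    rw [div_mul_cancel₀ _ hq0]
  have h1 : δ z * algebraMap F[X] (RatFunc F) z.denom +
      z * algebraMap F[X] (RatFunc F) z.denom.derivative =
      algebraMap F[X] (RatFunc F) z.num.derivative := by
    rw [← M12_poly δ h, ← M12_poly δ h, ← h2, Derivation.leibniz, smul_eq_mul, smul_eq_mul]
    ring
  rw [hz, zero_mul, zero_add] at h1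
  have h3 : z.num * z.denom.derivative = z.num.derivative * z.denom := by
    refine IsFractionRing.injective F[X] (RatFunc F) ?_
    rw [map_mul, map_mul, ← h1, ← h2]
    ring
  have hcop := RatFunc.isCoprime_num_denom z
  have hqd : z.denom ∣ z.denom.derivative :=
    hcop.symm.dvd_of_dvd_mul_left ⟨_, by rw [h3, mul_comm]⟩
  have hpd : z.num ∣ z.num.derivative :=
    hcop.dvd_of_dvd_mul_right ⟨_, h3.symm⟩
  have key : ∀ p : F[X], p ∣ p.derivative → ∃ c, p = C c := by
    intro p hp
    have hd0 : p.derivative = 0 := by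
      by_contra hne
      have hp0 : p ≠ 0 := by
        rintro rfl
        exact hne derivative_zero
      exact absurd (degree_le_of_dvd hp hne) (not_le.mpr (degree_derivative_lt hp0))
    exact ⟨_, eq_C_of_natDegree_eq_zero (Polynomial.derivative_eq_zero.mp hd0)⟩
  obtain ⟨a, ha⟩ := key _ hpd
  obtain ⟨b, hb⟩ := key _ hqd
  refine ⟨a / b, ?_⟩
  rw [← RatFunc.num_div_denom z, ha, hb, map_div₀, RatFunc.algebraMap_C, RatFunc.algebraMap_C,
    RatFunc.algebraMap_eq_C]

theorem ratFunc_facts (k : Type) [Field k] [CharZero k] [Algebra k ℂ] :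
    ∃ (ι : RatFunc k →+* RatFunc ℂ) (δ : Derivation k (RatFunc k) (RatFunc k))
      (δ' : Derivation ℂ (RatFunc ℂ) (RatFunc ℂ)),
      (∀ c : k, ι (algebraMap k (RatFunc k) c) = algebraMap ℂ (RatFunc ℂ) (algebraMap k ℂ c)) ∧
      ι RatFunc.X = RatFunc.X ∧
      (∀ z, δ' (ι z) = ι (δ z)) ∧ (∀ z, δ z = 0 ↔ ∃ c : k, z = algebraMap k (RatFunc k) c) ∧
      (∀ z, δ' z = 0 ↔ ∃ c : ℂ, z = algebraMap ℂ (RatFunc ℂ) c) ∧
      (∀ (n : ℕ) (c : Fin n → ℂ), LinearIndependent k c → ∀ z : Fin n → RatFunc k,
        ∑ i, algebraMap ℂ (RatFunc ℂ) (c i) * ι (z i) = 0 → z = 0) ∧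
      (∀ z : RatFunc k, IsAlgebraic k z → ∃ c : k, algebraMap k (RatFunc k) c = z) := by
  obtain ⟨δ, hδ⟩ := M12_der k
  obtain ⟨δ', hδ'⟩ := M12_der ℂ
  have hinj : Function.Injective (Polynomial.mapRingHom (algebraMap k ℂ)) :=
    Polynomial.map_injective _ (algebraMap k ℂ).injective
  have hle : (k[X])⁰ ≤ Submonoid.comap (Polynomial.mapRingHom (algebraMap k ℂ)) (ℂ[X])⁰ :=
    nonZeroDivisors_le_comap_nonZeroDivisors_of_injective _ hinj
  let ι : RatFunc k →+* RatFunc ℂ :=
    IsLocalization.map (RatFunc ℂ) (Polynomial.mapRingHom (algebraMap k ℂ)) hle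
  have hι : ∀ p : k[X], ι (algebraMap k[X] (RatFunc k) p) =
      algebraMap ℂ[X] (RatFunc ℂ) (p.map (algebraMap k ℂ)) := fun p => IsLocalization.map_eq hle p
  refine ⟨ι, δ, δ', ?_, ?_, ?_, ?_, ?_, ?_, ?_⟩
  · intro c
    rw [RatFunc.algebraMap_eq_C, ← RatFunc.algebraMap_C, hι, map_C, RatFunc.algebraMap_C,
      RatFunc.algebraMap_eq_C]
  · rw [← RatFunc.algebraMap_X, hι, map_X, RatFunc.algebraMap_X]
  · intro z
    have hP : ∀ p : k[X], δ' (ι (algebraMap k[X] (RatFunc k) p)) =
        ι (δ (algebraMap k[X] (RatFunc k) p)) := by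
      intro p
      rw [M12_poly δ hδ, hι, hι, M12_poly δ' hδ', derivative_map]
    rw [← RatFunc.num_div_denom z, map_div₀, Derivation.leibniz_div, Derivation.leibniz_div, hP, hP]
    simp only [smul_eq_mul, map_mul, map_sub, map_pow, map_inv₀]
  · intro z
    constructor
    · exact M12_ker δ hδ z
    · rintro ⟨c, rfl⟩
      exact Derivation.map_algebraMap δ c
  · intro z
    constructor
    · exact M12_ker δ' hδ' z
    · rintro ⟨c, rfl⟩
      exact Derivation.map_algebraMap δ' c
  · intro n c hc z hz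
    obtain ⟨b, hb⟩ := IsLocalization.exist_integer_multiples_of_finite (k[X])⁰ z
    choose p hp using hb
    have hb0 : algebraMap k[X] (RatFunc k) (b : k[X]) ≠ 0 := by
      rw [Ne, FaithfulSMul.algebraMap_eq_zero_iff]
      exact nonZeroDivisors.coe_ne_zero b
    have hp' : ∀ i, algebraMap k[X] (RatFunc k) (p i) =
        algebraMap k[X] (RatFunc k) (b : k[X]) * z i := by
      intro i
      rw [hp i, Algebra.smul_def]
    have hsum : ∑ i, C (c i) * (p i).map (algebraMap k ℂ) = 0 := by
      refine IsFractionRing.injective ℂ[X] (RatFunc ℂ) ?_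
      rw [map_sum, map_zero]
      calc ∑ i, algebraMap ℂ[X] (RatFunc ℂ) (C (c i) * (p i).map (algebraMap k ℂ))
          = ∑ i, ι (algebraMap k[X] (RatFunc k) (b : k[X])) *
              (algebraMap ℂ (RatFunc ℂ) (c i) * ι (z i)) := by
            refine Finset.sum_congr rfl fun i _ => ?_
            rw [map_mul, ← hι, hp', map_mul, RatFunc.algebraMap_C, RatFunc.algebraMap_eq_C]
            ring
        _ = 0 := by rw [← Finset.mul_sum, hz, mul_zero]
    have hpz : ∀ i, p i = 0 := by
      intro i
      ext j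
      have h1 := congrArg (fun q : ℂ[X] => q.coeff j) hsum
      simp only [finsetSum_coeff, coeff_C_mul, coeff_map, coeff_zero] at h1
      have h2 : ∑ i, (p i).coeff j • c i = 0 := by
        rw [← h1]
        refine Finset.sum_congr rfl fun i _ => ?_
        rw [Algebra.smul_def, mul_comm]
      rw [coeff_zero]
      exact (Fintype.linearIndependent_iff.mp hc) (fun i => (p i).coeff j) h2 i
    funext i
    have h3 := hp' i
    rw [hpz i, map_zero] at h3
    exact (mul_eq_zero.mp h3.symm).resolve_left hb0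
  · intro z hz
    have hint : IsIntegral k z := hz.isIntegral
    have hsep : (minpoly k z).Separable := (minpoly.irreducible hint).separable
    have h1 : aeval z (minpoly k z).derivative * δ z = 0 := by
      rw [← smul_eq_mul, ← Derivation.map_aeval, minpoly.aeval, map_zero]
    have h2 : δ z = 0 :=
      (mul_eq_zero.mp h1).resolve_left (hsep.aeval_derivative_ne_zero (minpoly.aeval k z))
    obtain ⟨c, hc⟩ := M12_ker δ hδ z h2
    exact ⟨c, hc.symm⟩

end Pool.Agent.LibHP.K3
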