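import Pool.Agent.LibHP.E2
import Pool.Agent.LibK3.BZ0
import Pool.Agent.LibK3M.F1
import Pool.Agent.LibK3M.M12

/-! F2. The directions of the curves, over `k` and over the complex numbers. -/

set_option autoImplicit false
open Polynomial Filter
open Pool.Agent.LibGMM
open Pool.Agent.LibK3 (KVal RC IsCx CxOver)

namespace Pool.Agent.LibHP.K3

theorem rmap_unique {k : Type} [Field k] [Algebra k ℂ] (ι : RatFunc k →+* RatFunc ℂ)
    (h1 : ∀ c : k, ι (algebraMap k (RatFunc k) c) = algebraMap ℂ (RatFunc ℂ) (algebraMap k ℂ c))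
    (h2 : ι RatFunc.X = RatFunc.X) : ι = rmap (algebraMap k ℂ) := by
  refine IsLocalization.ringHom_ext (nonZeroDivisors k[X]) ?_
  refine Polynomial.ringHom_ext ?_ ?_
  · intro c
    rw [RingHom.comp_apply, RingHom.comp_apply, rmap_algebraMap_c, Polynomial.map_C,
      RatFunc.algebraMap_C, RatFunc.algebraMap_C, ← RatFunc.algebraMap_eq_C, h1,
      RatFunc.algebraMap_eq_C]
  · rw [RingHom.comp_apply, RingHom.comp_apply, rmap_algebraMap_c, Polynomial.map_X,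
      RatFunc.algebraMap_X, RatFunc.algebraMap_X, h2]

/-- The derivations `d/dt`. -/
theorem exists_dt (k : Type) [Field k] [CharZero k] [Algebra k ℂ] :
    ∃ (δ : Derivation k (RatFunc k) (RatFunc k)) (δ' : Derivation ℂ (RatFunc ℂ) (RatFunc ℂ)),
      LibK3.IsDt δ' ∧
      (∀ z, δ' (rmap (algebraMap k ℂ) z) = rmap (algebraMap k ℂ) (δ z)) ∧
      (∀ z, δ z = 0 ↔ ∃ c : k, z = algebraMap k (RatFunc k) c) ∧
      (∀ z, δ' z = 0 ↔ ∃ c : ℂ, z = algebraMap ℂ (RatFunc ℂ) c) ∧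
      (∀ (n : ℕ) (c : Fin n → ℂ), LinearIndependent k c → ∀ z : Fin n → RatFunc k,
        ∑ i, algebraMap ℂ (RatFunc ℂ) (c i) * rmap (algebraMap k ℂ) (z i) = 0 → z = 0) ∧
      (∀ z : RatFunc k, IsAlgebraic k z → ∃ c : k, algebraMap k (RatFunc k) c = z) := by
  obtain ⟨ι, δ, δ', h1, h2, h3, h4, h5, h6, h7⟩ := ratFunc_facts k
  have hι := rmap_unique ι h1 h2
  subst hι
  have hX : δ' RatFunc.X ≠ 0 := by
    rw [Ne, h5]
    rintro ⟨c, hc⟩
    rw [RatFunc.algebraMap_eq_C, ← RatFunc.algebraMap_X, ← RatFunc.algebraMap_C] at hc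
    have h8 := RatFunc.algebraMap_injective ℂ hc
    have h9 := congrArg Polynomial.natDegree h8
    rw [Polynomial.natDegree_X, Polynomial.natDegree_C] at h9
    exact one_ne_zero h9
  have hX' : δ RatFunc.X ≠ 0 := by
    intro h
    apply hX
    rw [← h2, h3, h, map_zero]
  refine ⟨(δ RatFunc.X)⁻¹ • δ, (δ' RatFunc.X)⁻¹ • δ', ?_, ?_, ?_, ?_, h6, h7⟩
  · change (δ' RatFunc.X)⁻¹ * δ' RatFunc.X = 1
    exact inv_mul_cancel₀ hX
  · intro z
    have h8 : δ' RatFunc.X = rmap (algebraMap k ℂ) (δ RatFunc.X) := by rw [← h3, h2]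
    change (δ' RatFunc.X)⁻¹ * δ' (rmap (algebraMap k ℂ) z) =
      rmap (algebraMap k ℂ) ((δ RatFunc.X)⁻¹ * δ z)
    rw [h8, h3, map_mul, map_inv₀]
  · intro z
    rw [← h4]
    change (δ RatFunc.X)⁻¹ * δ z = 0 ↔ _
    rw [mul_eq_zero]
    exact ⟨fun h => h.resolve_left (inv_ne_zero hX'), Or.inr⟩
  · intro z
    rw [← h5]
    change (δ' RatFunc.X)⁻¹ * δ' z = 0 ↔ _
    rw [mul_eq_zero]
    exact ⟨fun h => h.resolve_left (inv_ne_zero hX), Or.inr⟩

section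
variable {k K L : Type} [Field k] [CharZero k] [Algebra k ℂ] [Field K] [Field L] [Algebra k K]
  [Algebra ℂ L] [Algebra K L]

/-- The place over `ℂ` lies over the place over `k`. -/
def Lies (P : Plc K (RatFunc k)) (Q : Plc L (RatFunc ℂ)) : Prop :=
  ∀ a b, P.At a b → Q.At (algebraMap K L a) (rmap (algebraMap k ℂ) b)

/-- The directions exist. -/
theorem exists_dir {P : ℕ → Plc K (RatFunc k)} {γ : K ≃ₐ[k] K} (hP : Orb P γ)
    {Q : ℕ → Plc L (RatFunc ℂ)} (hPQ : ∀ m, Lies (P m) (Q m))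
    (δ : Derivation k (RatFunc k) (RatFunc k))
    (hδ : ∀ z, δ z = 0 ↔ ∃ c : k, z = algebraMap k (RatFunc k) c) (x y : K)
    (hnc : ∀ᶠ m in atTop, ∀ b, (Q m).At (algebraMap K L x) b → ∀ c : ℂ,
      b ≠ algebraMap ℂ (RatFunc ℂ) c) :
    ∃ s : ℕ → RatFunc k, ∀ᶠ m in atTop, Dir (P m) δ x y (s m) := by
  classical
  have h : ∀ᶠ m in atTop, ∃ s, Dir (P m) δ x y s := by
    filter_upwards [hP.reg x, hP.reg y, hnc] with m ⟨u, hu⟩ ⟨v, hv⟩ hm
    have h0 : δ u ≠ 0 := by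
      rw [Ne, hδ]
      rintro ⟨c, rfl⟩
      refine hm _ (hPQ m _ _ hu) (algebraMap k ℂ c) ?_
      rw [RatFunc.algebraMap_eq_C, ← RatFunc.algebraMap_C, rmap_algebraMap_c, Polynomial.map_C,
        RatFunc.algebraMap_C, RatFunc.algebraMap_eq_C]
    exact ⟨δ v / δ u, u, v, hu, hv, h0, by rw [div_mul_cancel₀ _ h0]⟩
  refine ⟨fun m => if h : ∃ s, Dir (P m) δ x y s then h.choose else 0, ?_⟩
  filter_upwards [h] with m hm
  have h2 : (if h : ∃ s, Dir (P m) δ x y s then h.choose else 0) = hm.choose := dif_pos hm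
  rw [h2]
  exact hm.choose_spec

/-- The slope of the curve `C` is a root of the value of `F`. -/
def SlopeRoot (C : RC L) (x y : L) (F : Polynomial L) : Prop :=
  ∃ F' : Polynomial (RatFunc ℂ), (plcR C).PAt F F' ∧
    ∀ (δ' : Derivation ℂ (RatFunc ℂ) (RatFunc ℂ)) (S : RatFunc ℂ), δ' (C.ψ x) ≠ 0 →
      δ' (C.ψ y) = S * δ' (C.ψ x) → F'.eval S = 0

/-- From the homogeneous form of the relation to a root of the polynomial. -/
theorem slopeRoot_of_hom {C : RC L} {x y : L} (F : Polynomial L)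
    (hF : ∀ i, F.coeff i ∈ C.ν.ring)
    (h : ∀ δ' : Derivation ℂ (RatFunc ℂ) (RatFunc ℂ),
      ∑ i ∈ Finset.range (F.natDegree + 1), C.ψ (F.coeff i) *
          (δ' (C.ψ y)) ^ i * (δ' (C.ψ x)) ^ (F.natDegree - i) = 0) : SlopeRoot C x y F := by
  set G : Polynomial (RatFunc ℂ) :=
    ∑ i ∈ Finset.range (F.natDegree + 1), monomial i (C.ψ (F.coeff i)) with hG
  refine ⟨G, ?_, ?_⟩
  · intro i
    have hi : G.coeff i = if i < F.natDegree + 1 then C.ψ (F.coeff i) else 0 := by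
      rw [hG, Polynomial.finset_sum_coeff]
      simp only [Polynomial.coeff_monomial]
      rw [Finset.sum_ite_eq']
      simp only [Finset.mem_range]
    rw [hi]
    split_ifs with hlt
    · exact plcR_at.2 ⟨hF i, rfl⟩
    · rw [Polynomial.coeff_eq_zero_of_natDegree_lt (by omega)]
      exact Plc.At.zero
  · intro δ' S hU0 hV
    have h := h δ'
    rw [hV] at h
    set U := δ' (C.ψ x) with hU
    have h2 : U ^ F.natDegree * G.eval S = 0 := by
      rw [← h, hG, Polynomial.eval_finset_sum, Finset.mul_sum]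
      refine Finset.sum_congr rfl fun i hi => ?_
      have hi' : i ≤ F.natDegree := Nat.lt_succ_iff.1 (Finset.mem_range.1 hi)
      rw [Polynomial.eval_monomial, mul_pow]
      have h3 : U ^ F.natDegree = U ^ i * U ^ (F.natDegree - i) := by
        rw [← pow_add, Nat.add_sub_cancel' hi']
      rw [h3]
      ring
    exact (mul_eq_zero.1 h2).resolve_left (pow_ne_zero _ hU0)

/-- The direction over `k` is a root over `ℂ`. -/
theorem eval_of_slopeRoot {P : Plc K (RatFunc k)} {C : RC L} (hPQ : Lies P (plcR C))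
    (δ : Derivation k (RatFunc k) (RatFunc k)) (δ' : Derivation ℂ (RatFunc ℂ) (RatFunc ℂ))
    (hδ : ∀ z, δ' (rmap (algebraMap k ℂ) z) = rmap (algebraMap k ℂ) (δ z)) {x y : K}
    {s : RatFunc k} (hs : Dir P δ x y s) {F : Polynomial L}
    (h : SlopeRoot C (algebraMap K L x) (algebraMap K L y) F) :
    ∃ F' : Polynomial (RatFunc ℂ), (plcR C).PAt F F' ∧ F'.eval (rmap (algebraMap k ℂ) s) = 0 := by
  obtain ⟨u, v, hu, hv, h0, h1⟩ := hs
  have hu' := (plcR_at.1 (hPQ _ _ hu)).2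
  have hv' := (plcR_at.1 (hPQ _ _ hv)).2
  obtain ⟨F', hF', h2⟩ := h
  refine ⟨F', hF', h2 δ' _ ?_ ?_⟩
  · rw [hu', hδ, Ne, map_eq_zero]
    exact h0
  · rw [hv', hu', hδ, hδ, h1, map_mul]

/-- A product has the slope as a root if a factor has and the other factors are regular. -/
theorem slopeRoot_prod {C : RC L} {x y : L} {ι : Type} [Fintype ι] [DecidableEq ι]
    (F : ι → Polynomial L) (hreg : ∀ i, ∃ F', (plcR C).PAt (F i) F') (i : ι)
    (h : SlopeRoot C x y (F i)) : SlopeRoot C x y (∏ i, F i) := by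
  choose F' hF' using hreg
  have hprod : ∀ s : Finset ι, (plcR C).PAt (∏ i ∈ s, F i) (∏ i ∈ s, F' i) := by
    intro s
    induction s using Finset.induction_on with
    | empty =>
      rw [Finset.prod_empty, Finset.prod_empty]
      exact Plc.PAt.one
    | insert a s ha ih =>
      rw [Finset.prod_insert ha, Finset.prod_insert ha]
      exact (hF' a).mul ih
  refine ⟨∏ i, F' i, hprod _, fun δ' S h1 h2 => ?_⟩
  obtain ⟨G, hG, h3⟩ := h
  have h4 : G = F' i := hG.unique (hF' i)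
  rw [Polynomial.eval_prod]
  exact Finset.prod_eq_zero (Finset.mem_univ i) (by rw [← h4]; exact h3 δ' S h1 h2)

/-- The slopes over `ℂ`. -/
theorem slope_of_mem {P : Plc K (RatFunc k)} {C : RC L} (hPQ : Lies P (plcR C))
    (δ : Derivation k (RatFunc k) (RatFunc k)) (δ' : Derivation ℂ (RatFunc ℂ) (RatFunc ℂ))
    (hδ : ∀ z, δ' (rmap (algebraMap k ℂ) z) = rmap (algebraMap k ℂ) (δ z)) {x y : K}
    {s : RatFunc k} (hs : Dir P δ x y s) {t : K} (ht : P.At t s) :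
    algebraMap K L x ∈ C.ν.ring ∧ algebraMap K L y ∈ C.ν.ring ∧ algebraMap K L t ∈ C.ν.ring ∧
      δ' (C.ψ (algebraMap K L y)) = C.ψ (algebraMap K L t) * δ' (C.ψ (algebraMap K L x)) := by
  obtain ⟨u, v, hu, hv, h0, h1⟩ := hs
  have hu' := plcR_at.1 (hPQ _ _ hu)
  have hv' := plcR_at.1 (hPQ _ _ hv)
  have ht' := plcR_at.1 (hPQ _ _ ht)
  refine ⟨hu'.1, hv'.1, ht'.1, ?_⟩
  rw [hu'.2, hv'.2, ht'.2, hδ, hδ, h1, map_mul]

/-- The place of the curve over `ℂ` lies over the place of the curve over `k`. -/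
theorem lies_orb {v₀ : KVal k K} {r₀ : v₀.ring →ₐ[k] RatFunc k}
    (hr : ∀ z, r₀ z = 0 ↔ ((z : K) = 0 ∨ 0 < v₀.ord (z : K))) (γ : K ≃ₐ[k] K) (Γ : L ≃ₐ[ℂ] L)
    (hΓ : ∀ z : K, Γ (algebraMap K L z) = algebraMap K L (γ z)) {C₀ : RC L}
    (hC : CxOver v₀ C₀.ν)
    (hψ : ∀ z : v₀.ring, C₀.ψ (algebraMap K L z) = rmap (algebraMap k ℂ) (r₀ z)) (m : ℕ) :
    Lies (orb (plcK v₀ r₀ hr) γ m) (plcR (C₀.mv (Γ ^ m))) := by
  intro a b hab
  rw [orb_at, plcK_at] at hab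
  obtain ⟨h1, h2⟩ := hab
  have hpow := LibK3.pow_map γ Γ hΓ m
  have h3 : (Γ ^ m : L ≃ₐ[ℂ] L).symm (algebraMap K L a) =
      algebraMap K L ((γ ^ m : K ≃ₐ[k] K).symm a) := by
    rw [AlgEquiv.symm_apply_eq, hpow, AlgEquiv.apply_symm_apply]
  rw [plcR_at]
  constructor
  · change (Γ ^ m : L ≃ₐ[ℂ] L).symm (algebraMap K L a) ∈ C₀.ν.ring
    rw [h3]
    change 0 ≤ C₀.ν.ord _
    rw [hC.ord]
    exact h1
  · change C₀.ψ ((Γ ^ m : L ≃ₐ[ℂ] L).symm (algebraMap K L a)) = _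
    rw [h3, hψ ⟨_, h1⟩, h2]

/-- Nonzero functions are nonzero on almost all curves of the orbit. -/
theorem orb_curve {v₀ : KVal k K} {r₀ : v₀.ring →ₐ[k] RatFunc k}
    (hr : ∀ z, r₀ z = 0 ↔ ((z : K) = 0 ∨ 0 < v₀.ord (z : K))) (γ : K ≃ₐ[k] K) (Γ : L ≃ₐ[ℂ] L)
    (hΓ : ∀ z : K, Γ (algebraMap K L z) = algebraMap K L (γ z)) {C₀ : RC L}
    (hC : CxOver v₀ C₀.ν)
    (hfin : ∀ z : L, z ≠ 0 → ∃ m₀ : ℕ, ∀ m : ℕ, m₀ ≤ m → (LibK3.mv (Γ ^ m) C₀.ν).ord z = 0) :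
    Orb (orb (plcK v₀ r₀ hr) γ) γ := by
  refine orb_orb _ _ ?_ ?_
  · intro c
    rw [plcK_at]
    exact ⟨Subalgebra.algebraMap_mem _ c, r₀.commutes c⟩
  · intro a ha
    obtain ⟨m₀, hm₀⟩ := hfin (algebraMap K L a) (by rwa [Ne, map_eq_zero])
    filter_upwards [eventually_ge_atTop m₀] with m hm
    refine plcK_ne (by rwa [Ne, map_eq_zero_iff _ (AlgEquiv.injective _)]) ?_
    have hpow := LibK3.pow_map γ Γ hΓ m
    have h3 : (Γ ^ m : L ≃ₐ[ℂ] L).symm (algebraMap K L a) =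
        algebraMap K L ((γ ^ m : K ≃ₐ[k] K).symm a) := by
      rw [AlgEquiv.symm_apply_eq, hpow, AlgEquiv.apply_symm_apply]
    have h4 := hm₀ m hm
    rw [LibK3.mv_ord, h3, hC.ord] at h4
    exact h4

end

end Pool.Agent.LibHP.K3
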