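import Pool.Agent.LibK3M.M1
import Pool.Agent.LibK3M.M9
import Pool.Agent.LibK3M.M11
import Pool.Agent.LibK3M.F2

/-! F3. A web over the complex numbers: the slopes are values of finitely many rational functions. -/

set_option autoImplicit false
open AlgebraicGeometry CategoryTheory Polynomial Filter
open Pool.Agent.LibGMM
open Pool.Agent.LibK3 (KVal RC IsCx CxOver)

namespace Pool.Agent.LibHP.K3

open Pool.Agent.LibHP

theorem finite_slopes_cx {k : Type} [Field k] [CharZero k] [Algebra k ℂ] {X : Scheme}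
    (f : X ⟶ Spec (CommRingCat.of k)) [IsIntegral X] [Smooth f] [IsSeparated f] [QuasiCompact f]
    (U : X.Opens) [Nonempty U] (hU : GeomSimplyConnected (U.ι ≫ f)) (g : X ≅ X)
    (hper : ∀ x ∈ U, ringKrullDim (X.presheaf.stalk x) = 1 → ∀ n : ℕ, 0 < n →
      (fun z : X => g.inv z)^[n] x ≠ x) [Algebra k X.functionField]
    (halg : ∀ c : k, algebraMap k X.functionField c = toStalk f (genericPoint X) c)
    {γ : X.functionField ≃ₐ[k] X.functionField} (hγ : ∀ a, γ a = kap g.inv a)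
    {L : Type} [Field L] [Algebra ℂ L] [Algebra X.functionField L]
    (hL : IsCx k X.functionField L) (Γ : L ≃ₐ[ℂ] L)
    (hΓ : ∀ z : X.functionField, Γ (algebraMap X.functionField L z) =
      algebraMap X.functionField L (γ z)) {v₀ : KVal k X.functionField}
    {r₀ : v₀.ring →ₐ[k] RatFunc k}
    (hr : ∀ z, r₀ z = 0 ↔ ((z : X.functionField) = 0 ∨ 0 < v₀.ord (z : X.functionField)))
    {C₀ : RC L} (hC : CxOver v₀ C₀.ν)
    (hψ : ∀ z : v₀.ring, C₀.ψ (algebraMap X.functionField L z) = rmap (algebraMap k ℂ) (r₀ z))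
    (hfin : ∀ z : L, z ≠ 0 → ∃ m₀ : ℕ, ∀ m : ℕ, m₀ ≤ m → (LibK3.mv (Γ ^ m) C₀.ν).ord z = 0)
    (hnc : ∀ z : L, z ∉ Set.range (algebraMap ℂ L) → ∃ m₀ : ℕ, ∀ m : ℕ, m₀ ≤ m →
      z ∈ (LibK3.mv (Γ ^ m) C₀.ν).ring ∧ ∀ c, (C₀.mv (Γ ^ m)).ψ z ≠ RatFunc.C c)
    (x y : X.functionField) (hind : AlgebraicIndependent k ![x, y])
    (hxy : ∀ a : X.functionField, IsAlgebraic (Algebra.adjoin k {x, y}) a)
    (hindL : AlgebraicIndependent ℂ ![algebraMap X.functionField L x,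
      algebraMap X.functionField L y])
    (F : Polynomial L) (hF : F ≠ 0) (hweb : ∀ᶠ m in atTop, SlopeRoot (C₀.mv (Γ ^ m))
      (algebraMap X.functionField L x) (algebraMap X.functionField L y) F) :
    ∃ T : Set L, T.Finite ∧ ∃ δ : Derivation ℂ (RatFunc ℂ) (RatFunc ℂ), LibK3.IsDt δ ∧
      ∃ m₀ : ℕ, ∀ m : ℕ, m₀ ≤ m →
        algebraMap X.functionField L x ∈ (LibK3.mv (Γ ^ m) C₀.ν).ring ∧
        algebraMap X.functionField L y ∈ (LibK3.mv (Γ ^ m) C₀.ν).ring ∧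
        ∃ s ∈ T, s ∈ (LibK3.mv (Γ ^ m) C₀.ν).ring ∧
          δ ((C₀.mv (Γ ^ m)).ψ (algebraMap X.functionField L y)) =
            (C₀.mv (Γ ^ m)).ψ s * δ ((C₀.mv (Γ ^ m)).ψ (algebraMap X.functionField L x)) := by
  classical
  obtain ⟨δ, δ', hdt, h1, h2, h3, h4, h5⟩ := exists_dt k
  obtain ⟨dx, dy, hd⟩ := exists_partial x y hind hxy
  have hP := orb_curve hr γ Γ hΓ hC hfin
  have hPQ := lies_orb hr γ Γ hΓ hC hψ
  have hx : algebraMap X.functionField L x ∉ Set.range (algebraMap ℂ L) := by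
    rintro ⟨c, hc⟩
    have h6 : Transcendental ℂ (algebraMap X.functionField L x) := hindL.transcendental 0
    exact h6 (by rw [← hc]; exact isAlgebraic_algebraMap c)
  obtain ⟨m₁, hm₁⟩ := hnc _ hx
  obtain ⟨s, hs⟩ := exists_dir hP hPQ δ h2 x y (by
    filter_upwards [eventually_ge_atTop m₁] with m hm b hb c
    rw [← (plcR_at.1 hb).2, RatFunc.algebraMap_eq_C]
    exact (hm₁ m hm).2 c)
  have hwebL : ∀ᶠ m in atTop, ∃ F' : Polynomial (RatFunc ℂ),
      (plcR (C₀.mv (Γ ^ m))).PAt F F' ∧ F'.eval (rmap (algebraMap k ℂ) (s m)) = 0 := by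
    filter_upwards [hs, hweb] with m hm hw
    exact eval_of_slopeRoot (hPQ m) δ δ' h1 hm hw
  obtain ⟨F0, hF0, hW0⟩ := web_descent hL hP (fun m => plcR (C₀.mv (Γ ^ m)))
    (rmap (algebraMap k ℂ)) hPQ (fun m c => plcR_const _ c) h4 s F hF hwebL
  obtain ⟨T, hT⟩ := slopes_finite f U hU g hper halg h5 hγ hP hd δ s hs F0 hF0 hW0
  refine ⟨(algebraMap X.functionField L) '' (T : Set X.functionField), T.finite_toSet.image _, δ',
    hdt, ?_⟩
  obtain ⟨m₀, hm₀⟩ := eventually_atTop.1 (hs.and hT)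
  refine ⟨m₀, fun m hm => ?_⟩
  obtain ⟨h6, t, ht, h7⟩ := hm₀ m hm
  obtain ⟨h8, h9, h10, h11⟩ := slope_of_mem (hPQ m) δ δ' h1 h6 h7
  exact ⟨h8, h9, _, ⟨t, ht, rfl⟩, h10, h11⟩

end Pool.Agent.LibHP.K3
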