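import Pool.Agent.LibK3M.Defs

/-! Row M1b. The Jacobian of an automorphism is not zero. Suppose it is zero. Then the vectors `(dx (γ x), dx (γ y))`, `(dy (γ x), dy (γ y))` are linearly dependent: there are
`l, m : K`, not both zero, with `l dx (γ x) + m dy (γ x) = 0`, `l dx (γ y) + m dy (γ y) = 0` (e.g. `(l, m) = (dy (γ x), - dx (γ x))`, or `(dy (γ y), - dx (γ y))` if that is zero,
or `(1, 0)` if all four vanish). `D := l • dx + m • dy : Derivation k K K` kills `γ x`, `γ y`. The map `D' a := γ.symm (D (γ a))` is a derivation `Derivation k K K`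
(construct it with `Derivation.mk'` or as a structure) and kills `x` and `y`, so `D' = 0` by `hd.uniq`; hence `D (γ a) = 0` for all `a`, `D = 0`
(`γ` is surjective), so `D x = l = 0`, `D y = m = 0` by `hd.xx`, ..., a contradiction. -/

set_option autoImplicit false
open Polynomial Filter

namespace Pool.Agent.LibHP.K3

theorem jac_ne {k K : Type} [Field k] [Field K] [Algebra k K] {dx dy : Derivation k K K} {x y : K}
    (hd : IsPartial dx dy x y) (γ : K ≃ₐ[k] K) :
    dx (γ x) * dy (γ y) - dy (γ x) * dx (γ y) ≠ 0 := by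
  intro h0
  -- a combination killing `γ x`, `γ y` is zero
  have key : ∀ l m : K, l * dx (γ x) + m * dy (γ x) = 0 → l * dx (γ y) + m * dy (γ y) = 0 →
      l = 0 ∧ m = 0 := by
    intro l m h1 h2
    obtain ⟨D, hD⟩ : ∃ D : Derivation k K K, ∀ a, D a = l * dx a + m * dy a :=
      ⟨l • dx + m • dy, fun a => rfl⟩
    let L : K →ₗ[k] K := (γ.symm.toLinearMap.comp (D : K →ₗ[k] K)).comp γ.toLinearMap
    have hL : ∀ a, L a = γ.symm (D (γ a)) := fun a => rfl
    let D' : Derivation k K K := Derivation.mk' L (fun a b => by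
      rw [hL, hL, hL, map_mul, D.leibniz, map_add, smul_eq_mul, smul_eq_mul, map_mul, map_mul,
        AlgEquiv.symm_apply_apply, AlgEquiv.symm_apply_apply]
      rfl)
    have hD' : ∀ a, D' a = γ.symm (D (γ a)) := fun a => rfl
    have hx : D' x = 0 := by rw [hD', hD, h1, map_zero]
    have hy : D' y = 0 := by rw [hD', hD, h2, map_zero]
    have h3 : ∀ a, D (γ a) = 0 := by
      intro a
      have h4 := hd.uniq D' a
      rw [hx, hy, zero_mul, zero_mul, add_zero, hD'] at h4
      have h5 := congrArg γ h4
      rwa [AlgEquiv.apply_symm_apply, map_zero] at h5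
    have h4 : ∀ b, D b = 0 := by
      intro b
      have h5 := h3 (γ.symm b)
      rwa [AlgEquiv.apply_symm_apply] at h5
    constructor
    · have h5 := h4 x
      rwa [hD, hd.xx, hd.yx, mul_one, mul_zero, add_zero] at h5
    · have h5 := h4 y
      rwa [hD, hd.xy, hd.yy, mul_one, mul_zero, zero_add] at h5
  -- the two rows
  have e1 := key (dy (γ x)) (-dx (γ x)) (by ring) (by linear_combination -h0)
  have e2 := key (dy (γ y)) (-dx (γ y)) (by linear_combination h0) (by ring)
  have e3 := key 1 0 (by rw [neg_eq_zero.1 e1.2]; ring) (by rw [neg_eq_zero.1 e2.2]; ring)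
  exact one_ne_zero e3.1

end Pool.Agent.LibHP.K3
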