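import Pool.Agent.LibK3M.Defs

/-! Row M2. The chain rule on the curves `C_m`, `m` large.
The set of the elements which satisfy the chain rule at almost all places is a subfield which contains `k`, `x`, `y`, and it
is algebraically closed in `K` (differentiate the minimal polynomial). -/

set_option autoImplicit false
open Polynomial Filter

namespace Pool.Agent.LibHP.K3

private theorem M2_eval {k K : Type} [Field k] [Field K] [Algebra k K] (D : Derivation k K K)
    (p : Polynomial K) (a : K) (n : ℕ) (hn : p.natDegree < n) :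
    D (p.eval a) = ∑ i ∈ Finset.range n, D (p.coeff i) * a ^ i + p.derivative.eval a * D a := by
  rw [eval_eq_sum_range' hn, derivative_eval, sum_over_range' p _ n hn, map_sum,
    Finset.sum_mul, ← Finset.sum_add_distrib]
  · refine Finset.sum_congr rfl fun i _ => ?_
    rw [Derivation.leibniz, Derivation.leibniz_pow, smul_eq_mul, smul_eq_mul, smul_eq_mul,
      nsmul_eq_mul]
    ring
  · intro i
    ring

/-- `a` satisfies the chain rule at almost all places. -/
private def M2_Good {k K κ : Type} [Field k] [Field K] [Field κ] [Algebra k K] [Algebra k κ]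
    (P : ℕ → Plc K κ) (dx dy : Derivation k K K) (x y : K) (δ : Derivation k κ κ) (a : K) : Prop :=
  ∀ᶠ m in atTop, ∃ w u v x' y', (P m).At a w ∧ (P m).At (dx a) u ∧ (P m).At (dy a) v ∧
    (P m).At x x' ∧ (P m).At y y' ∧ δ w = u * δ x' + v * δ y'

section
variable {k K κ : Type} [Field k] [Field K] [Field κ] [Algebra k K] [Algebra k κ]
    {P : ℕ → Plc K κ} {γ : K ≃ₐ[k] K} {dx dy : Derivation k K K} {x y : K} {δ : Derivation k κ κ}

private theorem M2_const (hP : Orb P γ) (c : k) : M2_Good P dx dy x y δ (algebraMap k K c) := by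
  filter_upwards [hP.reg x, hP.reg y] with m ⟨x', hx⟩ ⟨y', hy⟩
  refine ⟨algebraMap k κ c, 0, 0, x', y', hP.const m c, ?_, ?_, hx, hy, ?_⟩
  · rw [Derivation.map_algebraMap]; exact Plc.At.zero
  · rw [Derivation.map_algebraMap]; exact Plc.At.zero
  · rw [Derivation.map_algebraMap]; ring

private theorem M2_x (hP : Orb P γ) (hd : IsPartial dx dy x y) : M2_Good P dx dy x y δ x := by
  filter_upwards [hP.reg x, hP.reg y] with m ⟨x', hx⟩ ⟨y', hy⟩
  refine ⟨x', 1, 0, x', y', hx, ?_, ?_, hx, hy, ?_⟩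
  · rw [hd.xx]; exact Plc.At.one
  · rw [hd.yx]; exact Plc.At.zero
  · ring

private theorem M2_y (hP : Orb P γ) (hd : IsPartial dx dy x y) : M2_Good P dx dy x y δ y := by
  filter_upwards [hP.reg x, hP.reg y] with m ⟨x', hx⟩ ⟨y', hy⟩
  refine ⟨y', 0, 1, x', y', hy, ?_, ?_, hx, hy, ?_⟩
  · rw [hd.xy]; exact Plc.At.zero
  · rw [hd.yy]; exact Plc.At.one
  · ring

private theorem M2_add {a b : K} (ha : M2_Good P dx dy x y δ a) (hb : M2_Good P dx dy x y δ b) :
    M2_Good P dx dy x y δ (a + b) := by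
  filter_upwards [ha, hb] with m ⟨w, u, v, x', y', h1, h2, h3, h4, h5, h6⟩
    ⟨w1, u1, v1, x1, y1, g1, g2, g3, g4, g5, g6⟩
  obtain rfl := h4.unique g4
  obtain rfl := h5.unique g5
  refine ⟨w + w1, u + u1, v + v1, x', y', h1.add g1, ?_, ?_, h4, h5, ?_⟩
  · rw [map_add]; exact h2.add g2
  · rw [map_add]; exact h3.add g3
  · rw [map_add, h6, g6]; ring

private theorem M2_mul {a b : K} (ha : M2_Good P dx dy x y δ a) (hb : M2_Good P dx dy x y δ b) :
    M2_Good P dx dy x y δ (a * b) := by
  filter_upwards [ha, hb] with m ⟨w, u, v, x', y', h1, h2, h3, h4, h5, h6⟩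
    ⟨w1, u1, v1, x1, y1, g1, g2, g3, g4, g5, g6⟩
  obtain rfl := h4.unique g4
  obtain rfl := h5.unique g5
  refine ⟨w * w1, w * u1 + w1 * u, w * v1 + w1 * v, x', y', h1.mul g1, ?_, ?_, h4, h5, ?_⟩
  · rw [Derivation.leibniz, smul_eq_mul, smul_eq_mul]; exact (h1.mul g2).add (g1.mul h2)
  · rw [Derivation.leibniz, smul_eq_mul, smul_eq_mul]; exact (h1.mul g3).add (g1.mul h3)
  · rw [Derivation.leibniz, smul_eq_mul, smul_eq_mul, h6, g6]; ring

private theorem M2_inv (hP : Orb P γ) {a : K} (ha : M2_Good P dx dy x y δ a) :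
    M2_Good P dx dy x y δ a⁻¹ := by
  rcases eq_or_ne a 0 with rfl | h0
  · rw [inv_zero]; exact ha
  filter_upwards [ha, hP.fin a h0] with m ⟨w, u, v, x', y', h1, h2, h3, h4, h5, h6⟩ ⟨b, hb0, hb⟩
  obtain rfl := h1.unique hb
  refine ⟨w⁻¹, -(w⁻¹ ^ 2) * u, -(w⁻¹ ^ 2) * v, x', y', h1.inv hb0, ?_, ?_, h4, h5, ?_⟩
  · rw [Derivation.leibniz_inv, smul_eq_mul]; exact (((h1.inv hb0).pow 2).neg).mul h2
  · rw [Derivation.leibniz_inv, smul_eq_mul]; exact (((h1.inv hb0).pow 2).neg).mul h3
  · rw [Derivation.leibniz_inv, smul_eq_mul, h6]; ring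

/-- The field of the good elements. -/
private def M2_F (hP : Orb P γ) (dx dy : Derivation k K K) (x y : K) (δ : Derivation k κ κ) :
    IntermediateField k K where
  carrier := {a | M2_Good P dx dy x y δ a}
  mul_mem' := fun ha hb => M2_mul ha hb
  add_mem' := fun ha hb => M2_add ha hb
  algebraMap_mem' := fun c => M2_const hP c
  inv_mem' := fun _ ha => M2_inv hP ha

private theorem M2_pder {P : Plc K κ} {F : Polynomial K} {F' : Polynomial κ} (h : P.PAt F F') :
    P.PAt F.derivative F'.derivative := by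
  intro i
  rw [coeff_derivative, coeff_derivative]
  refine (h (i + 1)).mul ?_
  have : ∀ n : ℕ, P.At (n : K) (n : κ) := by
    intro n
    induction n with
    | zero => rw [Nat.cast_zero, Nat.cast_zero]; exact Plc.At.zero
    | succ n ih => rw [Nat.cast_succ, Nat.cast_succ]; exact ih.add Plc.At.one
  have h1 := this (i + 1)
  rwa [Nat.cast_succ, Nat.cast_succ] at h1

private theorem M2_alg (hP : Orb P γ) (p : Polynomial K) (hp : ∀ i, M2_Good P dx dy x y δ (p.coeff i))
    (a : K) (h0 : p.eval a = 0) (h1 : p.derivative.eval a ≠ 0) : M2_Good P dx dy x y δ a := by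
  obtain ⟨n, hn⟩ : ∃ n, p.natDegree < n := ⟨_, Nat.lt_succ_self _⟩
  have hx := M2_eval dx p a n hn
  have hy := M2_eval dy p a n hn
  rw [h0, map_zero] at hx hy
  have hall : ∀ᶠ m in atTop, ∀ i ∈ Finset.range n, ∃ w u v x' y', (P m).At (p.coeff i) w ∧
      (P m).At (dx (p.coeff i)) u ∧ (P m).At (dy (p.coeff i)) v ∧
      (P m).At x x' ∧ (P m).At y y' ∧ δ w = u * δ x' + v * δ y' := by
    rw [Filter.eventually_all_finset]
    exact fun i _ => hp i
  filter_upwards [hall, hP.preg p, hP.reg a, hP.fin _ h1, hP.reg (dx a), hP.reg (dy a), hP.reg x,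
    hP.reg y] with m hc ⟨p', hp'⟩ ⟨w, hw⟩ ⟨q, hq0, hq⟩ ⟨u, hu⟩ ⟨v, hv⟩ ⟨x', hx'⟩ ⟨y', hy'⟩
  refine ⟨w, u, v, x', y', hw, hu, hv, hx', hy', ?_⟩
  choose! w1 u1 v1 x1 y1 g1 g2 g3 g4 g5 g6 using hc
  have hdeg : p'.natDegree < n ∨ ∀ i, n ≤ i → p'.coeff i = 0 := by
    right
    intro i hi
    have h2 := hp' i
    rw [coeff_eq_zero_of_natDegree_lt (lt_of_lt_of_le hn hi)] at h2
    exact h2.unique Plc.At.zero
  have hn' : p'.natDegree < n := by
    rcases hdeg with h | h
    · exact h
    · rcases eq_or_ne p' 0 with rfl | h3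
      · rw [natDegree_zero]; exact lt_of_le_of_lt (Nat.zero_le _) hn
      · by_contra h4
        have := h p'.natDegree (not_lt.mp h4)
        exact h3 (leadingCoeff_eq_zero.mp this)
  have hδ := M2_eval δ p' w n hn'
  have e0 : p'.eval w = 0 := by
    have h2 := hp'.eval hw
    rw [h0] at h2
    exact h2.unique Plc.At.zero
  have eq' : p'.derivative.eval w = q := ((M2_pder hp').eval hw).unique hq
  rw [e0, map_zero, eq'] at hδ
  have hX : (∑ i ∈ Finset.range n, u1 i * w ^ i) + q * u = 0 := by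
    have h2 : (P m).At 0 ((∑ i ∈ Finset.range n, u1 i * w ^ i) + q * u) := by
      rw [hx]
      exact (Plc.At.sum _ fun i hi => (g2 i hi).mul (hw.pow i)).add (hq.mul hu)
    exact h2.unique Plc.At.zero
  have hY : (∑ i ∈ Finset.range n, v1 i * w ^ i) + q * v = 0 := by
    have h2 : (P m).At 0 ((∑ i ∈ Finset.range n, v1 i * w ^ i) + q * v) := by
      rw [hy]
      exact (Plc.At.sum _ fun i hi => (g3 i hi).mul (hw.pow i)).add (hq.mul hv)
    exact h2.unique Plc.At.zero
  have hS : ∑ i ∈ Finset.range n, δ (p'.coeff i) * w ^ i =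
      (∑ i ∈ Finset.range n, u1 i * w ^ i) * δ x' + (∑ i ∈ Finset.range n, v1 i * w ^ i) * δ y' := by
    rw [Finset.sum_mul, Finset.sum_mul, ← Finset.sum_add_distrib]
    refine Finset.sum_congr rfl fun i hi => ?_
    rw [(hp' i).unique (g1 i hi), g6 i hi, (g4 i hi).unique hx', (g5 i hi).unique hy']
    ring
  rw [hS] at hδ
  refine mul_left_cancel₀ hq0 ?_
  linear_combination (-1 : κ) * hδ - δ x' * hX - δ y' * hY

end

theorem chain {k K κ : Type} [Field k] [CharZero k] [Field K] [Field κ] [Algebra k K] [Algebra k κ]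
    {P : ℕ → Plc K κ} {γ : K ≃ₐ[k] K} (hP : Orb P γ) {dx dy : Derivation k K K} {x y : K}
    (hd : IsPartial dx dy x y) (δ : Derivation k κ κ) (a : K) :
    ∀ᶠ m in atTop, ∀ s, Dir (P m) δ x y s → ∃ w u v x', (P m).At a w ∧ (P m).At (dx a) u ∧
      (P m).At (dy a) v ∧ (P m).At x x' ∧ δ w = (u + v * s) * δ x' := by
  have hgood : M2_Good P dx dy x y δ a := by
    let F := M2_F hP dx dy x y δ
    haveI : CharZero K := charZero_of_injective_algebraMap (algebraMap k K).injective
    haveI : CharZero F := charZero_of_injective_algebraMap (algebraMap k F).injective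
    have hle : Algebra.adjoin k {x, y} ≤ F.toSubalgebra := by
      refine Algebra.adjoin_le ?_
      intro z hz
      rcases hz with rfl | hz
      · exact M2_x hP hd
      · rw [Set.mem_singleton_iff] at hz
        rw [hz]
        exact M2_y hP hd
    have halg : IsAlgebraic F a := by
      obtain ⟨p, hp0, hp⟩ := hd.alg a
      refine ⟨p.map (Subalgebra.inclusion hle).toRingHom, ?_, ?_⟩
      · rw [Ne, Polynomial.map_eq_zero_iff]
        · exact hp0
        · exact Subalgebra.inclusion_injective hle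
      · rw [aeval_def, eval₂_map]
        rw [aeval_def] at hp
        exact hp
    have hint : IsIntegral F a := halg.isIntegral
    have hsep : (minpoly F a).Separable := (minpoly.irreducible hint).separable
    refine M2_alg hP ((minpoly F a).map (algebraMap F K)) ?_ a ?_ ?_
    · intro i
      rw [coeff_map]
      exact ((minpoly F a).coeff i).2
    · rw [eval_map, ← aeval_def, minpoly.aeval]
    · rw [derivative_map, eval_map, ← aeval_def]
      exact hsep.aeval_derivative_ne_zero (minpoly.aeval F a)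
  filter_upwards [hgood] with m ⟨w, u, v, x', y', h1, h2, h3, h4, h5, h6⟩
  rintro s ⟨u1, v1, g1, g2, _, g4⟩
  refine ⟨w, u, v, x', h1, h2, h3, h4, ?_⟩
  rw [h6, h4.unique g1, h5.unique g2, g4]
  ring

end Pool.Agent.LibHP.K3
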