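import Pool.Agent.LibK3.H5
import Pool.Agent.LibK3.BW1

/-!
Block S1: a simple root of the reduction of an irreducible monic polynomial gives a place with residue
degree one.
-/

set_option autoImplicit false

open Pool.Agent.LibGMM Pool.Agent.LibK3 Polynomial

namespace Pool.Agent.LibK3M

theorem resLift_of_root {k K κ M : Type} [Field k] [Field K] [Field κ] [Field M] [Algebra k K]
    [Algebra K M] (v : KVal k K) (ψ : v.ring →+* κ) (hψ : Function.Surjective ψ)
    (hker : ∀ z : v.ring, ψ z = 0 ↔ ((z : K) = 0 ∨ 0 < v.ord (z : K)))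
    (G₀ : Polynomial v.ring) (hG : G₀.Monic)
    (hirr : Irreducible (G₀.map (algebraMap v.ring K)))
    (s : κ) (hs : (G₀.map ψ).eval s = 0) (hs' : (derivative (G₀.map ψ)).eval s ≠ 0)
    (r : M) (hr : aeval r (G₀.map (algebraMap v.ring K)) = 0)
    (hgen : ∀ z : M, ∃ A : Polynomial K, aeval r A = z) : ResLift (algebraMap K M) v := by
  classical
  have hdvr := v.isDVR
  have hfrO := v.isFractionRing
  obtain ⟨t, ht⟩ := v.exists_ord_one
  have ht0 : t ≠ 0 := by
    rintro rfl
    rw [v.ord_zero] at ht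
    exact zero_ne_one ht
  let π : v.ring := ⟨t, by rw [v.mem_ring, ht]; exact zero_le_one⟩
  have hπ0 : π ≠ 0 := fun h => ht0 (congrArg Subtype.val h)
  have hψπ : ψ π = 0 := (hker π).2 (Or.inr (by show 0 < v.ord t; rw [ht]; exact one_pos))
  have hπψ : ∀ z : v.ring, ψ z = 0 → π ∣ z := by
    intro z hz
    by_cases h0 : (z : K) = 0
    · exact ⟨0, Subtype.ext (by rw [h0]; simp)⟩
    · have h1 : 0 < v.ord (z : K) := ((hker z).1 hz).resolve_left h0
      refine ⟨⟨(z : K) / t, by rw [v.mem_ring, v.ord_div h0 ht0, ht]; omega⟩, Subtype.ext ?_⟩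
      rw [MulMemClass.coe_mul]
      exact (mul_div_cancel₀ _ ht0).symm
  let A := AdjoinRoot G₀
  have hr1 : G₀.eval₂ ((algebraMap K M).comp (algebraMap v.ring K)) r = 0 := by
    rw [← Polynomial.eval₂_map]
    exact hr
  let ι : A →+* M := AdjoinRoot.lift ((algebraMap K M).comp (algebraMap v.ring K)) r hr1
  have hρ1 : G₀.eval₂ ψ s = 0 := by
    rw [← Polynomial.eval_map]
    exact hs
  let ρ : A →+* κ := AdjoinRoot.lift ψ s hρ1
  have hιof : ∀ a : v.ring, ι (AdjoinRoot.of G₀ a) = algebraMap K M (a : K) := fun a =>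
    AdjoinRoot.lift_of hr1
  have hιmk : ∀ P : Polynomial v.ring, ι (AdjoinRoot.mk G₀ P) =
      aeval r (P.map (algebraMap v.ring K)) := fun P => by
    rw [aeval_def, eval₂_map]
    exact AdjoinRoot.lift_mk hr1 P
  have hρof : ∀ a : v.ring, ρ (AdjoinRoot.of G₀ a) = ψ a := fun a => AdjoinRoot.lift_of hρ1
  have hρmk : ∀ P : Polynomial v.ring, ρ (AdjoinRoot.mk G₀ P) = (P.map ψ).eval s := fun P => by
    rw [eval_map]
    exact AdjoinRoot.lift_mk hρ1 P
  have hρs : Function.Surjective ρ := fun z => by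
    obtain ⟨a, ha⟩ := hψ z
    exact ⟨AdjoinRoot.of G₀ a, by rw [hρof, ha]⟩
  have hmin : G₀.map (algebraMap v.ring K) = minpoly K r :=
    minpoly.eq_of_irreducible_of_monic hirr hr (hG.map _)
  -- injectivity
  have hιi : Function.Injective ι := by
    rw [injective_iff_map_eq_zero]
    intro a
    obtain ⟨P, rfl⟩ := AdjoinRoot.mk_surjective a
    intro h
    rw [hιmk] at h
    rw [AdjoinRoot.mk_eq_zero, ← map_dvd_map _ (IsFractionRing.injective v.ring K) hG, hmin]
    exact minpoly.dvd K r h
  have hdomA : IsDomain A := hιi.isDomain ι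
  let _ : Algebra A M := ι.toAlgebra
  have hιalg : ∀ a : A, algebraMap A M a = ι a := fun a => rfl
  have hfaith : FaithfulSMul A M := (faithfulSMul_iff_algebraMap_injective A M).2 hιi
  have hfrA : IsFractionRing A M := by
    refine IsFractionRing.of_field A M fun z => ?_
    obtain ⟨P, rfl⟩ := hgen z
    obtain ⟨b, hb⟩ := IsLocalization.integerNormalization_map_to_map (nonZeroDivisors v.ring) P
    refine ⟨AdjoinRoot.mk G₀ (IsLocalization.integerNormalization (nonZeroDivisors v.ring) P),
      AdjoinRoot.of G₀ b, ?_⟩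
    rw [hιalg, hιalg, hιmk, hιof]
    have hb0 : algebraMap K M ((b : v.ring) : K) ≠ 0 := by
      rw [Ne, map_eq_zero]
      intro h
      exact nonZeroDivisors.ne_zero b.2 (Subtype.ext h)
    rw [eq_div_iff hb0]
    have h1 : (IsLocalization.integerNormalization (nonZeroDivisors v.ring) P).map
        (algebraMap v.ring K) = C ((b : v.ring) : K) * P := by
      rw [hb]
      ext i
      rw [coeff_C_mul, coeff_smul]
      rfl
    rw [h1, map_mul, aeval_C, mul_comm]
  -- the maximal ideal and the local ring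
  let 𝔪 : Ideal A := RingHom.ker ρ
  have hmax : 𝔪.IsMaximal := RingHom.ker_isMaximal_of_surjective ρ hρs
  have hunit : ∀ y : 𝔪.primeCompl, IsUnit (ι y) := by
    intro y
    rw [isUnit_iff_ne_zero, Ne, map_eq_zero_iff ι hιi]
    intro h
    exact y.2 (by rw [h]; exact 𝔪.zero_mem)
  let S := Localization.AtPrime 𝔪
  let _ : Algebra S M := (IsLocalization.lift (M := 𝔪.primeCompl) (S := S) hunit).toAlgebra
  have htower : IsScalarTower A S M := IsScalarTower.of_algebraMap_eq fun a =>
    (IsLocalization.lift_eq (M := 𝔪.primeCompl) (S := S) hunit a).symm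
  have hfrS : IsFractionRing S M :=
    IsFractionRing.isFractionRing_of_isDomain_of_isLocalization 𝔪.primeCompl S M
  have hdomS : IsDomain S := IsLocalization.isDomain_localization 𝔪.primeCompl_le_nonZeroDivisors
  have hNA : IsNoetherianRing A := inferInstance
  have hNS : IsNoetherianRing S := IsLocalization.isNoetherianRing 𝔪.primeCompl S hNA
  let p : S := algebraMap A S (AdjoinRoot.of G₀ π)
  have hp0 : p ≠ 0 := by
    intro h
    have h1 : algebraMap A S (AdjoinRoot.of G₀ π) = algebraMap A S 0 := by rw [map_zero]; exact h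
    have h2 := (IsLocalization.injective S 𝔪.primeCompl_le_nonZeroDivisors) h1
    have h3 := hιof π
    rw [h2, map_zero] at h3
    exact ht0 ((map_eq_zero (algebraMap K M)).1 h3.symm)
  have hmaxS : IsLocalRing.maximalIdeal S = Ideal.span {p} := by
    rw [← Localization.AtPrime.map_eq_maximalIdeal]
    apply le_antisymm
    · rw [Ideal.map_le_iff_le_comap]
      -- `root - s₀` is a multiple of `π` in `S`
      obtain ⟨s₀, hs₀⟩ := hψ s
      have hdvd : ∀ P : Polynomial v.ring, (P.map ψ).eval s = 0 → ∃ (a : v.ring) (Q : Polynomial v.ring),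
          P = C (π * a) + (X - C s₀) * Q := by
        intro P hP
        obtain ⟨Q, hQ⟩ := Polynomial.X_sub_C_dvd_sub_C_eval (a := s₀) (p := P)
        have h1 : ψ (P.eval s₀) = 0 := by
          rw [← hP, ← hs₀, eval_map, eval₂_at_apply]
        obtain ⟨a, ha⟩ := hπψ _ h1
        exact ⟨a, Q, by rw [← ha, ← hQ]; ring⟩
      have hroot : algebraMap A S (AdjoinRoot.mk G₀ (X - C s₀)) ∈ Ideal.span {p} := by
        obtain ⟨a, Q, hQ⟩ := hdvd G₀ hs
        have hQs : (Q.map ψ).eval s ≠ 0 := by
          intro h0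
          apply hs'
          rw [hQ]
          simp only [Polynomial.map_add, Polynomial.map_mul, map_C, Polynomial.map_sub, map_X,
            map_mul, derivative_add, derivative_mul, derivative_C, derivative_sub, derivative_X,
            hψπ, eval_add, eval_mul, eval_sub, eval_X, eval_C, hs₀, h0]
          simp
        have hQu : IsUnit (algebraMap A S (AdjoinRoot.mk G₀ Q)) :=
          IsLocalization.map_units S (⟨AdjoinRoot.mk G₀ Q, by
            intro h
            have h2 : ρ (AdjoinRoot.mk G₀ Q) = 0 := h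
            rw [hρmk] at h2
            exact hQs h2⟩ : 𝔪.primeCompl)
        have h3 : algebraMap A S (AdjoinRoot.mk G₀ (X - C s₀)) *
            algebraMap A S (AdjoinRoot.mk G₀ Q) = - (p * algebraMap A S (AdjoinRoot.of G₀ a)) := by
          have h4 : AdjoinRoot.mk G₀ (C (π * a) + (X - C s₀) * Q) = 0 := by
            rw [← hQ]
            exact AdjoinRoot.mk_self
          rw [map_add, AdjoinRoot.mk_C, map_mul, map_mul] at h4
          have h5 := congrArg (algebraMap A S) h4
          rw [map_add, map_mul, map_mul, map_zero] at h5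
          show _ = - (algebraMap A S (AdjoinRoot.of G₀ π) * _)
          linear_combination h5
        rw [Ideal.mem_span_singleton]
        obtain ⟨u, hu⟩ := hQu
        refine ⟨- (algebraMap A S (AdjoinRoot.of G₀ a)) * (u⁻¹ : Sˣ), ?_⟩
        rw [← hu] at h3
        have h6 := congrArg (· * ((u⁻¹ : Sˣ) : S)) h3
        simp only [mul_assoc, Units.mul_inv, mul_one] at h6
        rw [h6]
        ring
      intro a ha
      obtain ⟨P, rfl⟩ := AdjoinRoot.mk_surjective a
      have h1 : ρ (AdjoinRoot.mk G₀ P) = 0 := ha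
      rw [hρmk] at h1
      obtain ⟨a, Q, rfl⟩ := hdvd P h1
      rw [Ideal.mem_comap, map_add, map_add, AdjoinRoot.mk_C, map_mul, map_mul, map_mul, map_mul]
      exact Ideal.add_mem _ (Ideal.mul_mem_right _ _ (Ideal.mem_span_singleton_self _))
        (Ideal.mul_mem_right _ _ hroot)
    · rw [Ideal.span_singleton_le_iff_mem]
      apply Ideal.mem_map_of_mem
      show ρ _ = 0
      rw [hρof, hψπ]
  have hnf : ¬ IsField S := by
    intro hf
    have h1 := IsLocalRing.isField_iff_maximalIdeal_eq.1 hf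
    have h2 : p ∈ IsLocalRing.maximalIdeal S := by
      rw [hmaxS]
      exact Ideal.mem_span_singleton_self _
    rw [h1] at h2
    exact hp0 h2
  have hpr : (IsLocalRing.maximalIdeal S).IsPrincipal := ⟨⟨p, hmaxS⟩⟩
  have hdvrS : IsDiscreteValuationRing S :=
    ((IsDiscreteValuationRing.TFAE S hnf).out 0 4).2 hpr
  let _ : Algebra k M := ((algebraMap K M).comp (algebraMap k K)).toAlgebra
  obtain ⟨w, hw⟩ := exists_kval_of_dvr (k := k) (R := S) (F := M) (by
    intro c
    refine ⟨algebraMap A S (AdjoinRoot.of G₀ (algebraMap k v.ring c)), ?_⟩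
    rw [← IsScalarTower.algebraMap_apply, hιalg, hιof]
    rfl)
  have hSi : Function.Injective (algebraMap S M) := IsFractionRing.injective S M
  have hw0 : ∀ σ : S, 0 ≤ w.ord (algebraMap S M σ) := fun σ => (hw _).2 ⟨σ, rfl⟩
  have hwu : ∀ σ : S, IsUnit σ → w.ord (algebraMap S M σ) = 0 := by
    rintro σ ⟨u, rfl⟩
    have h1 := hw0 ((u⁻¹ : Sˣ) : S)
    have h2 : algebraMap S M (u : S) * algebraMap S M ((u⁻¹ : Sˣ) : S) = 1 := by
      rw [← map_mul, Units.mul_inv, map_one]
    have h3 : algebraMap S M ((u⁻¹ : Sˣ) : S) = (algebraMap S M (u : S))⁻¹ :=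
      eq_inv_of_mul_eq_one_right h2
    rw [h3, w.ord_inv] at h1
    have h4 := hw0 (u : S)
    omega
  have hwpos : ∀ σ : S, σ ∈ IsLocalRing.maximalIdeal S → σ ≠ 0 → 0 < w.ord (algebraMap S M σ) := by
    intro σ hσ hσ0
    rcases (hw0 σ).lt_or_eq with h | h
    · exact h
    · exfalso
      have h1 : 0 ≤ w.ord (algebraMap S M σ)⁻¹ := by rw [w.ord_inv]; omega
      obtain ⟨τ, hτ⟩ := (hw _).1 h1
      apply (IsLocalRing.mem_maximalIdeal σ).1 hσ
      refine IsUnit.of_mul_eq_one τ (hSi ?_)
      rw [map_mul, hτ, map_one]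
      exact mul_inv_cancel₀ (fun h2 => hσ0 (hSi (by rw [h2, map_zero])))
  have hpmax : p ∈ IsLocalRing.maximalIdeal S := by
    rw [hmaxS]
    exact Ideal.mem_span_singleton_self _
  have hpM : algebraMap S M p = algebraMap K M t := by
    rw [← IsScalarTower.algebraMap_apply, hιalg, hιof]
  have hwp : w.ord (algebraMap K M t) = 1 := by
    rw [← hpM]
    obtain ⟨y, hy⟩ := w.exists_ord_one
    obtain ⟨τ, rfl⟩ := (hw y).1 (by rw [hy]; exact zero_le_one)
    have hτ : τ ∈ IsLocalRing.maximalIdeal S := by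
      rw [IsLocalRing.mem_maximalIdeal, mem_nonunits_iff]
      intro h
      rw [hwu τ h] at hy
      exact zero_ne_one hy
    rw [hmaxS, Ideal.mem_span_singleton] at hτ
    obtain ⟨q, rfl⟩ := hτ
    have hq0 : q ≠ 0 := by
      rintro rfl
      rw [mul_zero, map_zero, w.ord_zero] at hy
      exact zero_ne_one hy
    have hpM0 : algebraMap S M p ≠ 0 := fun h => hp0 (hSi (by rw [h, map_zero]))
    have hqM0 : algebraMap S M q ≠ 0 := fun h => hq0 (hSi (by rw [h, map_zero]))
    rw [map_mul, w.ord_mul _ _ hpM0 hqM0] at hy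
    have h1 := hwpos p hpmax hp0
    have h2 := hw0 q
    omega
  have hO : ∀ z : K, 0 ≤ v.ord z → 0 ≤ w.ord (algebraMap K M z) := by
    intro z hz
    have h1 := hw0 (algebraMap A S (AdjoinRoot.of G₀ ⟨z, hz⟩))
    rwa [← IsScalarTower.algebraMap_apply, hιalg, hιof] at h1
  have htM : algebraMap K M t ≠ 0 := (_root_.map_ne_zero _).2 ht0
  refine ⟨w, 1, one_pos, fun z => ?_, fun z hz => ?_⟩
  · rw [Nat.cast_one, one_mul]
    by_cases hz0 : z = 0
    · rw [hz0, map_zero, w.ord_zero, v.ord_zero]
    have h1 : v.ord (z / t ^ v.ord z) = 0 := by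
      rw [v.ord_div hz0 (zpow_ne_zero _ ht0), v.ord_zpow, ht]
      ring
    have h2 := hO _ h1.ge
    have h3 := hO (z / t ^ v.ord z)⁻¹ (by rw [v.ord_inv, h1]; simp)
    rw [map_inv₀, w.ord_inv] at h3
    have h4 : w.ord (algebraMap K M (z / t ^ v.ord z)) = 0 := by omega
    rw [map_div₀, map_zpow₀, w.ord_div ((_root_.map_ne_zero _).2 hz0) (zpow_ne_zero _ htM), w.ord_zpow,
      hwp] at h4
    linarith
  · obtain ⟨σ, rfl⟩ := (hw z).1 hz
    obtain ⟨⟨a, y⟩, hay⟩ := IsLocalization.surj 𝔪.primeCompl σ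
    have hy0 : ρ (y : A) ≠ 0 := fun h => y.2 h
    obtain ⟨b, hb⟩ := hψ (ρ a / ρ y)
    refine ⟨(b : K), b.2, ?_⟩
    by_cases h0 : algebraMap S M σ - algebraMap K M (b : K) = 0
    · exact Or.inl (sub_eq_zero.1 h0)
    right
    have hbS : algebraMap K M (b : K) = algebraMap S M (algebraMap A S (AdjoinRoot.of G₀ b)) := by
      rw [← IsScalarTower.algebraMap_apply, hιalg, hιof]
    rw [hbS, ← map_sub]
    refine hwpos _ ?_ ?_
    · have h1 : (σ - algebraMap A S (AdjoinRoot.of G₀ b)) * algebraMap A S y =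
          algebraMap A S (a - AdjoinRoot.of G₀ b * y) := by
        rw [sub_mul, hay, map_sub, map_mul]
      have h2 : algebraMap A S (a - AdjoinRoot.of G₀ b * y) ∈ IsLocalRing.maximalIdeal S := by
        rw [← Localization.AtPrime.map_eq_maximalIdeal]
        apply Ideal.mem_map_of_mem
        show ρ _ = 0
        rw [map_sub, map_mul, hρof, hb, div_mul_cancel₀ _ hy0, sub_self]
      rw [← h1] at h2
      rcases (IsLocalRing.maximalIdeal.isMaximal S).isPrime.mem_or_mem h2 with h3 | h3
      · exact h3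
      · exact absurd (IsLocalization.map_units S y) h3
    · intro h
      apply h0
      rw [hbS, ← map_sub, h, map_zero]

end Pool.Agent.LibK3M
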