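import Pool.Agent.LibK3F.GF2
import Pool.Agent.LibHPF.P9
import Pool.Agent.LibK3.HDefs
import Pool.Agent.LibK3.BW1
import Pool.Agent.LibK3.BC13

/-!
Block S3: an extension of the function field which is unramified over the codimension one points of an
open set `U` and has a place over the curve `x₀` with the same residue field is trivial, if every finite
étale cover of `U` with a section over `x₀` is an isomorphism.
-/

set_option autoImplicit false

open AlgebraicGeometry CategoryTheory
open Pool.Agent.LibHP Pool.Agent.LibK3 Pool.Agent.LibK3F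

namespace Pool.Agent.LibK3M

/-- Every connected finite étale cover of `U` which has a section over the curve `x₀` is an
isomorphism. -/
def CurveGenerates {X : Scheme} (U : X.Opens) (x₀ : X) : Prop :=
  ∀ (V : Scheme) (π : V ⟶ (U : Scheme)), AlgebraicGeometry.IsIntegral V →
    AlgebraicGeometry.IsFinite π → AlgebraicGeometry.Etale π →
    (∃ s : Spec (X.residueField x₀) ⟶ V, s ≫ π ≫ U.ι = X.fromSpecResidueField x₀) → IsIso π

theorem presAt_ff {X Y : Scheme} [IsIntegral X] [IsIntegral Y] (q : Y ⟶ X)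
    (hq : ∀ y, Function.Bijective (q.stalkMap y).hom)
    (e : X.functionField ≃+* Y.functionField)
    (he : ∀ (y : Y) (a : X.presheaf.stalk (q y)),
      e (algebraMap (X.presheaf.stalk (q y)) X.functionField a) =
        algebraMap (Y.presheaf.stalk y) Y.functionField (q.stalkMap y a))
    {L : Type} [Field L] (j : X.functionField →+* L) (x : Y) (hP : PresAt j (q x)) :
    PresAt (j.comp (e.symm : Y.functionField →+* X.functionField)) x := by
  have hst : ∀ a : X.presheaf.stalk (q x),
      stalkTo (j.comp (e.symm : Y.functionField →+* X.functionField)) x (q.stalkMap x a) =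
        stalkTo j (q x) a := by
    intro a
    show j (e.symm (algebraMap _ _ _)) = j (algebraMap _ _ _)
    rw [← he, e.symm_apply_apply]
  have hints : ∀ b : L, (stalkTo (j.comp (e.symm : Y.functionField →+* X.functionField))
      x).IsIntegralElem b ↔ (stalkTo j (q x)).IsIntegralElem b := by
    intro b
    have hcomp2 : (stalkTo (j.comp (e.symm : Y.functionField →+* X.functionField)) x).comp
        (q.stalkMap x).hom = stalkTo j (q x) := RingHom.ext hst
    rw [← hcomp2]
    constructor
    · rintro ⟨P, hPm, hPe⟩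
      let es := RingEquiv.ofBijective (q.stalkMap x).hom (hq x)
      refine ⟨P.map (es.symm : _ →+* _), hPm.map _, ?_⟩
      rw [Polynomial.eval₂_map]
      convert hPe using 2
      ext y
      show stalkTo (j.comp (e.symm : Y.functionField →+* X.functionField)) x (es (es.symm y)) = _
      rw [es.apply_symm_apply]
    · rintro ⟨P, hPm, hPe⟩
      exact ⟨P.map (q.stalkMap x).hom, hPm.map _, by rw [Polynomial.eval₂_map]; exact hPe⟩
  intro D hD b hb
  rw [hints] at hb ⊢
  refine hP D ?_ b hb
  intro y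
  obtain ⟨y', hy'⟩ := hD (q.stalkMap x y)
  obtain ⟨y'', rfl⟩ := (hq x).2 y'
  refine ⟨y'', ?_⟩
  rw [← hst, ← hst]
  exact hy'

/-- The section over the curve given by a place with the same residue field. -/
theorem exists_section {k : Type} [Field k] {X : Scheme} [IsIntegral X]
    [Algebra k X.functionField] (U : X.Opens) [IsIntegral (U : Scheme)] (x₀ : X) (hx₀ : x₀ ∈ U)
    (e : X.functionField ≃+* (U : Scheme).functionField)
    (he : ∀ (y : (U : Scheme)) (a : X.presheaf.stalk (U.ι y)),
      e (algebraMap (X.presheaf.stalk (U.ι y)) X.functionField a) =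
        algebraMap ((U : Scheme).presheaf.stalk y) (U : Scheme).functionField (U.ι.stalkMap y a))
    (hq : ∀ y : (U : Scheme), Function.Bijective (U.ι.stalkMap y).hom)
    (L : Type) [Field L] (j : X.functionField →+* L)
    (v : KVal k X.functionField) (hv : ∀ z, 0 ≤ v.ord z ↔ z ∈ stk X x₀) (hres : ResLift j v)
    {V : Scheme} (i₁ : Spec (CommRingCat.of L) ⟶ V) (π : V ⟶ (U : Scheme)) [IsFinite π]
    (hi₁ : i₁ ≫ π = S1a_g (j.comp (e.symm : (U : Scheme).functionField →+* X.functionField))) :
    ∃ s : Spec (X.residueField x₀) ⟶ V, s ≫ π ≫ U.ι = X.fromSpecResidueField x₀ := by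
  set j' : (U : Scheme).functionField →+* L :=
    j.comp (e.symm : (U : Scheme).functionField →+* X.functionField) with hj'
  let y₀ : (U : Scheme) := ⟨x₀, hx₀⟩
  let _ : Algebra k L := (j.comp (algebraMap k X.functionField)).toAlgebra
  obtain ⟨w, n, hn, hw, hwres⟩ := hres
  have hdvr := w.isDVR
  have hfr := w.isFractionRing
  -- the map from the local ring of `X`
  have hmem : ∀ a : X.presheaf.stalk x₀,
      0 ≤ w.ord (j (algebraMap (X.presheaf.stalk x₀) X.functionField a)) := by
    intro a
    rw [hw]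
    exact mul_nonneg (Int.natCast_nonneg n) ((hv _).2 ⟨a, rfl⟩)
  let θ₀ : X.presheaf.stalk x₀ →+* w.ring :=
    (j.comp (algebraMap (X.presheaf.stalk x₀) X.functionField)).codRestrict w.ring hmem
  have hθ₀ : ∀ a, ((θ₀ a : w.ring) : L) = j (algebraMap (X.presheaf.stalk x₀) X.functionField a) :=
    fun a => rfl
  have hinj : Function.Injective (algebraMap (X.presheaf.stalk x₀) X.functionField) :=
    IsFractionRing.injective _ _
  have hloc : IsLocalHom θ₀ := by
    refine ⟨fun a ha => ?_⟩
    obtain ⟨u, hu⟩ := ha.exists_right_inv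
    have h1 : j (algebraMap (X.presheaf.stalk x₀) X.functionField a) * (u : L) = 1 := by
      rw [← hθ₀]
      exact congrArg Subtype.val hu
    have h2 : j (algebraMap (X.presheaf.stalk x₀) X.functionField a) ≠ 0 := left_ne_zero_of_mul_eq_one h1
    have h3 : (u : L) ≠ 0 := right_ne_zero_of_mul_eq_one h1
    have h4 := w.ord_mul _ _ h2 h3
    rw [h1, w.ord_one, hw] at h4
    have h5 := w.mem_ring.1 u.2
    have h6 : 0 ≤ v.ord (algebraMap (X.presheaf.stalk x₀) X.functionField a) := (hv _).2 ⟨a, rfl⟩
    have h7 : v.ord (algebraMap (X.presheaf.stalk x₀) X.functionField a) = 0 := by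
      by_contra h8
      have h9 : 0 < v.ord (algebraMap (X.presheaf.stalk x₀) X.functionField a) := by omega
      have h10 : 0 < (n : ℤ) * v.ord (algebraMap (X.presheaf.stalk x₀) X.functionField a) :=
        mul_pos (by exact_mod_cast hn) h9
      omega
    have h8 : algebraMap (X.presheaf.stalk x₀) X.functionField a ≠ 0 := fun h => h2 (by
      rw [h, map_zero])
    obtain ⟨b, hb⟩ := (hv (algebraMap (X.presheaf.stalk x₀) X.functionField a)⁻¹).1 (by
      rw [v.ord_inv, h7]; simp)
    refine IsUnit.of_mul_eq_one b (hinj ?_)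
    rw [map_mul, hb, map_one]
    exact mul_inv_cancel₀ h8
  let es : X.presheaf.stalk x₀ ≃+* (U : Scheme).presheaf.stalk y₀ :=
    RingEquiv.ofBijective (U.ι.stalkMap y₀).hom (hq y₀)
  let θ : (U : Scheme).presheaf.stalk y₀ →+* w.ring :=
    θ₀.comp (es.symm : (U : Scheme).presheaf.stalk y₀ →+* X.presheaf.stalk x₀)
  have hθ : ∀ a, ((θ a : w.ring) : L) =
      j' (algebraMap ((U : Scheme).presheaf.stalk y₀) (U : Scheme).functionField a) := by
    intro a
    obtain ⟨b, rfl⟩ := es.surjective a
    show ((θ₀ (es.symm (es b)) : w.ring) : L) = j (e.symm (algebraMap _ _ (U.ι.stalkMap y₀ b)))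
    rw [es.symm_apply_apply, ← he y₀ b, e.symm_apply_apply]
    rfl
  let i₂ : Spec (CommRingCat.of w.ring) ⟶ (U : Scheme) :=
    Spec.map (CommRingCat.ofHom θ) ≫ (U : Scheme).fromSpecStalk y₀
  have hsq : CommSq i₁ (Spec.map (CommRingCat.ofHom (algebraMap w.ring L))) π i₂ := by
    refine ⟨?_⟩
    have hsp : genericPoint (U : Scheme) ⤳ y₀ :=
      (genericPoint_spec (U : Scheme)).specializes (Set.mem_univ y₀)
    have h1 : CommRingCat.ofHom θ ≫ CommRingCat.ofHom (algebraMap w.ring L) =
        (U : Scheme).presheaf.stalkSpecializes hsp ≫ CommRingCat.ofHom j' := by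
      ext a
      exact hθ a
    rw [hi₁, S1a_g]
    show _ = Spec.map (CommRingCat.ofHom (algebraMap w.ring L)) ≫
      Spec.map (CommRingCat.ofHom θ) ≫ (U : Scheme).fromSpecStalk y₀
    rw [← Spec.map_comp_assoc, h1, Spec.map_comp_assoc,
      Scheme.SpecMap_stalkSpecializes_fromSpecStalk]
    rfl
  have hval : ValuationRing w.ring := inferInstance
  have hex : ValuativeCriterion.Existence π := by
    have h := UniversallyClosed.eq_valuativeCriterion
    have h2 : (@UniversallyClosed) π := inferInstance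
    rw [h] at h2
    exact h2.1
  obtain ⟨⟨l, hl1, hl2⟩⟩ := hex ⟨w.ring, L, i₁, i₂, hsq⟩
  -- the residue fields
  have hbij : Function.Bijective (IsLocalRing.ResidueField.map θ₀) := by
    refine ⟨(IsLocalRing.ResidueField.map θ₀).injective, fun z => ?_⟩
    obtain ⟨z₀, rfl⟩ := IsLocalRing.residue_surjective z
    obtain ⟨a, ha, hza⟩ := hwres (z₀ : L) z₀.2
    obtain ⟨b, rfl⟩ := (hv a).1 ha
    refine ⟨IsLocalRing.residue _ b, ?_⟩
    rw [IsLocalRing.ResidueField.map_residue]
    have h0 : IsLocalRing.residue w.ring (z₀ - θ₀ b) = 0 := by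
      rw [IsLocalRing.residue_eq_zero_iff, IsLocalRing.mem_maximalIdeal, mem_nonunits_iff]
      intro hu
      obtain ⟨u, hu⟩ := hu.exists_right_inv
      have h1 : ((z₀ : L) - j (algebraMap (X.presheaf.stalk x₀) X.functionField b)) * (u : L) = 1 :=
        congrArg Subtype.val hu
      have h2 := left_ne_zero_of_mul_eq_one h1
      have h3 := right_ne_zero_of_mul_eq_one h1
      have h4 := w.ord_mul _ _ h2 h3
      rw [h1, w.ord_one] at h4
      have h5 := w.mem_ring.1 u.2
      rcases hza with h | h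
      · exact h2 (by rw [h, sub_self])
      · omega
    rw [map_sub, sub_eq_zero] at h0
    exact h0.symm
  let τ : w.ring →+* IsLocalRing.ResidueField (X.presheaf.stalk x₀) :=
    ((RingEquiv.ofBijective _ hbij).symm : _ →+* _).comp (IsLocalRing.residue w.ring)
  have hτ : ∀ a, τ (θ₀ a) = IsLocalRing.residue (X.presheaf.stalk x₀) a := by
    intro a
    show (RingEquiv.ofBijective _ hbij).symm (IsLocalRing.residue w.ring (θ₀ a)) = _
    rw [RingEquiv.symm_apply_eq]
    rfl
  refine ⟨Spec.map (CommRingCat.ofHom τ) ≫ l, ?_⟩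
  have hl2' : l ≫ π = i₂ := hl2
  have h3 : (U : Scheme).fromSpecStalk y₀ ≫ U.ι =
      Spec.map (U.ι.stalkMap y₀) ≫ X.fromSpecStalk x₀ :=
    (Scheme.SpecMap_stalkMap_fromSpecStalk U.ι (x := y₀)).symm
  have h4 : U.ι.stalkMap y₀ ≫ CommRingCat.ofHom θ ≫ CommRingCat.ofHom τ = X.residue x₀ := by
    ext a
    show τ (θ₀ (es.symm (es a))) = _
    rw [es.symm_apply_apply, hτ]
    rfl
  rw [Category.assoc, reassoc_of% hl2']
  show Spec.map (CommRingCat.ofHom τ) ≫ (Spec.map (CommRingCat.ofHom θ) ≫
    (U : Scheme).fromSpecStalk y₀) ≫ U.ι = _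
  rw [Category.assoc, h3, ← Spec.map_comp_assoc, ← Spec.map_comp_assoc]
  exact congrArg (fun φ : X.presheaf.stalk x₀ ⟶ X.residueField x₀ =>
    Spec.map φ ≫ X.fromSpecStalk x₀) h4

theorem surjective_of_curve {k : Type} [Field k] [CharZero k] {X : Scheme}
    (f : X ⟶ Spec (CommRingCat.of k)) [IsIntegral X] [Smooth f] [IsSeparated f] [QuasiCompact f]
    [Algebra k X.functionField] (U : X.Opens) (x₀ : X) (hx₀ : x₀ ∈ U) (hS : CurveGenerates U x₀)
    (L : Type) [Field L] (j : X.functionField →+* L) (hjfin : j.Finite)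
    (hpres : ∀ x ∈ U, ringKrullDim (X.presheaf.stalk x) = 1 → PresAt j x)
    (v : KVal k X.functionField) (hv : ∀ z, 0 ≤ v.ord z ↔ z ∈ stk X x₀) (hres : ResLift j v) :
    Function.Surjective j := by
  have hU0 : Nonempty (U : Scheme) := ⟨⟨x₀, hx₀⟩⟩
  have hint : IsIntegral (U : Scheme) := isIntegral_of_isOpenImmersion U.ι
  have hln : IsLocallyNoetherian X := LocallyOfFiniteType.isLocallyNoetherian f
  have hq : ∀ y : (U : Scheme), Function.Bijective (U.ι.stalkMap y).hom := fun y =>
    ConcreteCategory.bijective_of_isIso (U.ι.stalkMap y)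
  obtain ⟨e, he⟩ := exists_ff U.ι hq
  set j' : (U : Scheme).functionField →+* L :=
    j.comp (e.symm : (U : Scheme).functionField →+* X.functionField) with hj'
  have hj'fin : j'.Finite := hjfin.comp (RingHom.Finite.of_surjective _ e.symm.surjective)
  have hpres' : ∀ y : (U : Scheme), ringKrullDim ((U : Scheme).presheaf.stalk y) = 1 →
      PresAt j' y := by
    intro y hy
    refine presAt_ff U.ι hq e he j y (hpres (U.ι y) y.2 ?_)
    rw [krullDim_eq U.ι y (hq y)]
    exact hy
  have hcov : S1a_Cov j' := by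
    intro y
    obtain ⟨W, hW, hy, m, ψ, hψ⟩ := exists_etale_chart (U.ι ≫ f) y
    exact ⟨W, hW, hy, finEt_of_presAt j' hj'fin hpres' y W hW hy m ψ hψ⟩
  have hgf : S1a_g j' ≫ (U.ι ≫ f) =
      Spec.map (CommRingCat.ofHom (j'.comp (toStalk (U.ι ≫ f) (genericPoint (U : Scheme))))) := by
    rw [S1a_g, Category.assoc, S1a_fromSpecStalk, ← Spec.map_comp]
    rfl
  have hqs : QuasiSeparated (S1a_g j') := by
    have : QuasiSeparated (S1a_g j' ≫ (U.ι ≫ f)) := by rw [hgf]; infer_instance
    exact QuasiSeparated.of_comp (S1a_g j') (U.ι ≫ f)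
  have hqc : QuasiCompact (S1a_g j') := by
    have : QuasiCompact (S1a_g j' ≫ (U.ι ≫ f)) := by rw [hgf]; infer_instance
    exact MorphismProperty.of_postcomp (W := @QuasiCompact) (W' := @QuasiSeparated)
      (S1a_g j') (U.ι ≫ f) inferInstance this
  obtain ⟨h1, h2⟩ := S1a_pi j' hcov
  -- the section over the curve
  have hsec : ∃ s : Spec (X.residueField x₀) ⟶ (S1a_g j').normalization,
      s ≫ (S1a_g j').fromNormalization ≫ U.ι = X.fromSpecResidueField x₀ :=
    exists_section U x₀ hx₀ e he hq L j v hv hres (S1a_g j').toNormalization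
      (S1a_g j').fromNormalization (Scheme.Hom.toNormalization_fromNormalization _)
  have hiso := hS _ (S1a_g j').fromNormalization inferInstance h1 h2 hsec
  obtain ⟨W, hW, hy, _⟩ := hcov (genericPoint (U : Scheme))
  have hs := S1a_surj j' hj'fin W hW ⟨_, hy⟩
  intro z
  obtain ⟨w, hw⟩ := hs z
  exact ⟨e.symm w, hw⟩

end Pool.Agent.LibK3M
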