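import Pool.Agent.LibK3M.S3

/-!
Block S6: an extension of the function field which is unramified over the codimension one points of an
open set `U` and through which a given dominant map factors is trivial, if every finite étale cover of
`U` through which the map factors is an isomorphism.
-/

set_option autoImplicit false

open AlgebraicGeometry CategoryTheory
open Pool.Agent.LibHP Pool.Agent.LibK3 Pool.Agent.LibK3F

namespace Pool.Agent.LibK3M

/-- Every connected finite étale cover of `U` through which the map `Spec K' ⟶ X` factors is an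
isomorphism. -/
def MapGenerates {X : Scheme} (U : X.Opens) {T : Scheme} (φ : T ⟶ X) : Prop :=
  ∀ (V : Scheme) (π : V ⟶ (U : Scheme)), AlgebraicGeometry.IsIntegral V →
    AlgebraicGeometry.IsFinite π → AlgebraicGeometry.Etale π →
    (∃ s : T ⟶ V, s ≫ π ≫ U.ι = φ) → IsIso π

theorem s6_alg {Y : Scheme} [IsIntegral Y] (b : Y.presheaf.stalk (genericPoint Y)) :
    @algebraMap (Y.presheaf.stalk (genericPoint Y)) Y.functionField _ _
      (stalkFunctionFieldAlgebra Y (genericPoint Y)) b = b := by
  have h := gf2_algebraMap (genericPoint Y) b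
  rw [TopCat.Presheaf.stalkSpecializes_refl] at h
  exact h

theorem surjective_of_factor {k : Type} [Field k] [CharZero k] {X : Scheme}
    (f : X ⟶ Spec (CommRingCat.of k)) [IsIntegral X] [Smooth f] [IsSeparated f] [QuasiCompact f]
    (U : X.Opens) [Nonempty U] (L K' : Type) [Field L] [Field K'] (j : X.functionField →+* L)
    (hjfin : j.Finite) (hpres : ∀ x ∈ U, ringKrullDim (X.presheaf.stalk x) = 1 → PresAt j x)
    (i : L →+* K') (hS : MapGenerates U (S1a_g (i.comp j))) :
    Function.Surjective j := by
  have hU0 : Nonempty (U : Scheme) := ‹Nonempty U›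
  have hint : IsIntegral (U : Scheme) := isIntegral_of_isOpenImmersion U.ι
  have hln : IsLocallyNoetherian X := LocallyOfFiniteType.isLocallyNoetherian f
  have hq : ∀ y : (U : Scheme), Function.Bijective (U.ι.stalkMap y).hom := fun y =>
    ConcreteCategory.bijective_of_isIso (U.ι.stalkMap y)
  obtain ⟨e, he⟩ := exists_ff U.ι hq
  set j' : (U : Scheme).functionField →+* L :=
    j.comp (e.symm : (U : Scheme).functionField →+* X.functionField) with hj'
  have hj'fin : j'.Finite := hjfin.comp (RingHom.Finite.of_surjective _ e.symm.surjective)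
  have hpres' : ∀ y : (U : Scheme), ringKrullDim ((U : Scheme).presheaf.stalk y) = 1 →
      PresAt j' y := by
    intro y hy
    refine presAt_ff U.ι hq e he j y (hpres (U.ι y) y.2 ?_)
    rw [krullDim_eq U.ι y (hq y)]
    exact hy
  have hcov : S1a_Cov j' := by
    intro y
    obtain ⟨W, hW, hy, m, ψ, hψ⟩ := exists_etale_chart (U.ι ≫ f) y
    exact ⟨W, hW, hy, finEt_of_presAt j' hj'fin hpres' y W hW hy m ψ hψ⟩
  have hgf : S1a_g j' ≫ (U.ι ≫ f) =
      Spec.map (CommRingCat.ofHom (j'.comp (toStalk (U.ι ≫ f) (genericPoint (U : Scheme))))) := by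
    rw [S1a_g, Category.assoc, S1a_fromSpecStalk, ← Spec.map_comp]
    rfl
  have hqs : QuasiSeparated (S1a_g j') := by
    have : QuasiSeparated (S1a_g j' ≫ (U.ι ≫ f)) := by rw [hgf]; infer_instance
    exact QuasiSeparated.of_comp (S1a_g j') (U.ι ≫ f)
  have hqc : QuasiCompact (S1a_g j') := by
    have : QuasiCompact (S1a_g j' ≫ (U.ι ≫ f)) := by rw [hgf]; infer_instance
    exact MorphismProperty.of_postcomp (W := @QuasiCompact) (W' := @QuasiSeparated)
      (S1a_g j') (U.ι ≫ f) inferInstance this
  obtain ⟨h1, h2⟩ := S1a_pi j' hcov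
  -- the map factors
  have hsec : ∃ s : Spec (CommRingCat.of K') ⟶ (S1a_g j').normalization,
      s ≫ (S1a_g j').fromNormalization ≫ U.ι = S1a_g (i.comp j) := by
    refine ⟨Spec.map (CommRingCat.ofHom i) ≫ (S1a_g j').toNormalization, ?_⟩
    rw [Category.assoc, Scheme.Hom.toNormalization_fromNormalization_assoc]
    -- the generic points
    have hy : U.ι (genericPoint (U : Scheme)) = genericPoint X := genericPoint_eq_of_isOpenImmersion U.ι
    have hsp : genericPoint X ⤳ U.ι (genericPoint (U : Scheme)) := by rw [hy]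
    have h3 : U.ι.stalkMap (genericPoint (U : Scheme)) ≫ CommRingCat.ofHom j' =
        X.presheaf.stalkSpecializes hsp ≫ CommRingCat.ofHom j := by
      ext a
      show j (e.symm (U.ι.stalkMap (genericPoint (U : Scheme)) a)) = j _
      have h4 := he (genericPoint (U : Scheme)) a
      have h8 : e.symm (U.ι.stalkMap (genericPoint (U : Scheme)) a) =
          algebraMap (X.presheaf.stalk (U.ι (genericPoint (U : Scheme)))) X.functionField a := by
        rw [RingEquiv.symm_apply_eq, h4]
        exact (s6_alg _).symm
      exact congrArg j h8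
    have h6 : (U : Scheme).fromSpecStalk (genericPoint (U : Scheme)) ≫ U.ι =
        Spec.map (U.ι.stalkMap (genericPoint (U : Scheme))) ≫
          X.fromSpecStalk (U.ι (genericPoint (U : Scheme))) :=
      (Scheme.SpecMap_stalkMap_fromSpecStalk U.ι (x := genericPoint (U : Scheme))).symm
    have h7 : S1a_g (i.comp j) = Spec.map (CommRingCat.ofHom i) ≫ S1a_g j := by
      rw [S1a_g, S1a_g, ← Category.assoc, ← Spec.map_comp]
      rfl
    have h9 : (Spec.map (CommRingCat.ofHom j') ≫ (U : Scheme).fromSpecStalk
        (genericPoint (U : Scheme))) ≫ U.ι = S1a_g j := by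
      rw [Category.assoc, h6, ← Spec.map_comp_assoc]
      refine (congrArg (fun φ : X.presheaf.stalk (U.ι (genericPoint (U : Scheme))) ⟶
        CommRingCat.of L => Spec.map φ ≫ X.fromSpecStalk (U.ι (genericPoint (U : Scheme)))) h3).trans ?_
      show Spec.map (X.presheaf.stalkSpecializes hsp ≫ CommRingCat.ofHom j) ≫
        X.fromSpecStalk (U.ι (genericPoint (U : Scheme))) = _
      rw [Spec.map_comp_assoc, Scheme.SpecMap_stalkSpecializes_fromSpecStalk]
      rfl
    rw [h7]
    exact congrArg (Spec.map (CommRingCat.ofHom i) ≫ ·) h9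
  have hiso := hS _ (S1a_g j').fromNormalization inferInstance h1 h2 hsec
  obtain ⟨W, hW, hy, _⟩ := hcov (genericPoint (U : Scheme))
  have hs := S1a_surj j' hj'fin W hW ⟨_, hy⟩
  intro z
  obtain ⟨w, hw⟩ := hs z
  exact ⟨e.symm w, hw⟩

end Pool.Agent.LibK3M
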